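import Mathlib

set_option autoImplicit false

open Filter Topology ComplexConjugate

namespace Pool.Agent.H44.WEP

/-- `f` belongs to `H^infinity`: it is analytic and bounded on the open unit disc. -/
def HInf (f : ℂ → ℂ) : Prop :=
  DifferentiableOn ℂ f (Metric.ball 0 1) ∧ ∃ C : ℝ, ∀ z ∈ Metric.ball (0 : ℂ) 1, ‖f z‖ ≤ C

/-- `f` is inner: it belongs to `H^infinity` and at almost every point `exp (i theta)` of the
unit circle it has a radial limit, of modulus one. -/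
def IsInner (f : ℂ → ℂ) : Prop :=
  HInf f ∧ ∀ᵐ θ : ℝ, ∃ c : ℂ, ‖c‖ = 1 ∧
    Tendsto (fun r : ℝ => f (r * Complex.exp (θ * Complex.I))) (𝓝[<] 1) (𝓝 c)

/-- The pseudohyperbolic distance. -/
noncomputable def rho (z w : ℂ) : ℝ := ‖(z - w) / (1 - conj w * z)‖

/-- The zero set of `f` in the open unit disc. -/
def zeroSet (f : ℂ → ℂ) : Set ℂ := {z | z ∈ Metric.ball (0 : ℂ) 1 ∧ f z = 0}

/-- `t` is at most the pseudohyperbolic distance from `z` to the zero set of `f`. -/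
def FarFromZeros (f : ℂ → ℂ) (t : ℝ) (z : ℂ) : Prop := ∀ w ∈ zeroSet f, t ≤ rho z w

/-- The class of `f` is invertible in the quotient algebra `H^infinity / Theta H^infinity`. -/
def InvertibleMod (Θ f : ℂ → ℂ) : Prop :=
  ∃ g h : ℂ → ℂ, HInf g ∧ HInf h ∧ ∀ z ∈ Metric.ball (0 : ℂ) 1, f z * g z = 1 + Θ z * h z

/-- The Weak Embedding Property: every `f` in `H^infinity` that is bounded away from zero on the
zero set of `Theta` is invertible modulo `Theta H^infinity`. -/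
def HasWEP (Θ : ℂ → ℂ) : Prop :=
  ∀ f : ℂ → ℂ, HInf f → (∃ c : ℝ, 0 < c ∧ ∀ z ∈ zeroSet Θ, c ≤ ‖f z‖) → InvertibleMod Θ f

/-- `eta_Theta (t) -> 1` as `t -> 1`, where `eta_Theta (t)` is the infimum of `|Theta|` over the
points of the disc at pseudohyperbolic distance at least `t` from the zero set of `Theta`. -/
def EtaTendsToOne (Θ : ℂ → ℂ) : Prop :=
  ∀ ε : ℝ, 0 < ε → ∃ t : ℝ, t < 1 ∧
    ∀ z ∈ Metric.ball (0 : ℂ) 1, FarFromZeros Θ t z → 1 - ε ≤ ‖Θ z‖

/-- `Theta` divides `Phi` in `H^infinity`. -/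
def DividesInHInf (Θ Φ : ℂ → ℂ) : Prop :=
  ∃ g : ℂ → ℂ, HInf g ∧ ∀ z ∈ Metric.ball (0 : ℂ) 1, Φ z = Θ z * g z

end Pool.Agent.H44.WEP
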