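import Mathlib

set_option autoImplicit false

namespace Pool.Agent.H44.WEP

/-- `K z w = 1 - rho(z,w)^2` in the upper half plane -/
noncomputable def K (z w : ℂ) : ℝ :=
  4 * z.im * w.im / ((z.re - w.re) ^ 2 + (z.im + w.im) ^ 2)

theorem K_nonneg {z w : ℂ} (hz : 0 < z.im) (hw : 0 < w.im) : 0 ≤ K z w := by
  unfold K; positivity

theorem K_pos {z w : ℂ} (hz : 0 < z.im) (hw : 0 < w.im) : 0 < K z w := by
  unfold K
  have : 0 < (z.re - w.re) ^ 2 + (z.im + w.im) ^ 2 := by positivity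
  positivity

theorem K_symm (z w : ℂ) : K z w = K w z := by
  unfold K
  congr 1 <;> ring

theorem K_le_one {z w : ℂ} (hz : 0 < z.im) (hw : 0 < w.im) : K z w ≤ 1 := by
  unfold K
  have : 0 < (z.re - w.re) ^ 2 + (z.im + w.im) ^ 2 := by positivity
  rw [div_le_one this]
  nlinarith [sq_nonneg (z.re - w.re), sq_nonneg (z.im - w.im)]

/-- sum of `K z` over a list of points -/
noncomputable def N (L : List ℂ) (z : ℂ) : ℝ := (L.map (K z)).sum

noncomputable def mass (L : List ℂ) : ℝ := (L.map Complex.im).sum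

theorem N_nil (z : ℂ) : N [] z = 0 := rfl

theorem N_cons (w : ℂ) (L : List ℂ) (z : ℂ) : N (w :: L) z = K z w + N L z := by
  simp [N]

theorem N_append (L M : List ℂ) (z : ℂ) : N (L ++ M) z = N L z + N M z := by
  simp [N]

theorem mass_cons (w : ℂ) (L : List ℂ) : mass (w :: L) = w.im + mass L := by
  simp [mass]

theorem mass_append (L M : List ℂ) : mass (L ++ M) = mass L + mass M := by
  simp [mass]

theorem N_flatMap {α : Type*} (l : List α) (f : α → List ℂ) (z : ℂ) :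
    N (l.flatMap f) z = (l.map (fun a => N (f a) z)).sum := by
  induction l with
  | nil => simp [N]
  | cons a l ih => simp [N_append, ih]

theorem mass_flatMap {α : Type*} (l : List α) (f : α → List ℂ) :
    mass (l.flatMap f) = (l.map (fun a => mass (f a))).sum := by
  induction l with
  | nil => simp [mass]
  | cons a l ih => simp [mass_append, ih]

theorem N_nonneg {L : List ℂ} {z : ℂ} (hz : 0 < z.im) (hL : ∀ w ∈ L, 0 < w.im) : 0 ≤ N L z := by
  unfold N
  apply List.sum_nonneg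
  intro x hx
  rw [List.mem_map] at hx
  obtain ⟨w, hw, rfl⟩ := hx
  exact K_nonneg hz (hL w hw)

theorem sum_map_range (f : ℕ → ℝ) (n : ℕ) :
    ((List.range n).map f).sum = ∑ k ∈ Finset.range n, f k := by
  induction n with
  | zero => simp
  | succ n ih => rw [List.range_succ, List.map_append, List.sum_append, ih,
      Finset.sum_range_succ]; simp

/-- affine automorphisms of the half plane -/
noncomputable def aff (x h : ℝ) (w : ℂ) : ℂ := ⟨x + h * w.re, h * w.im⟩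

noncomputable def un (x h : ℝ) (z : ℂ) : ℂ := ⟨(z.re - x) / h, z.im / h⟩

@[simp] theorem aff_re (x h : ℝ) (w : ℂ) : (aff x h w).re = x + h * w.re := rfl
@[simp] theorem aff_im (x h : ℝ) (w : ℂ) : (aff x h w).im = h * w.im := rfl
@[simp] theorem un_re (x h : ℝ) (w : ℂ) : (un x h w).re = (w.re - x) / h := rfl
@[simp] theorem un_im (x h : ℝ) (w : ℂ) : (un x h w).im = w.im / h := rfl

theorem aff_un {x h : ℝ} (hh : 0 < h) (z : ℂ) : aff x h (un x h z) = z := by
  apply Complex.ext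
  · rw [aff_re, un_re]; field_simp; ring
  · rw [aff_im, un_im]; field_simp

theorem un_aff {x h : ℝ} (hh : 0 < h) (z : ℂ) : un x h (aff x h z) = z := by
  apply Complex.ext
  · rw [un_re, aff_re]; field_simp; ring
  · rw [un_im, aff_im]; field_simp

theorem K_aff {x h : ℝ} (hh : 0 < h) (z w : ℂ) : K z (aff x h w) = K (un x h z) w := by
  unfold K
  rw [aff_re, aff_im, un_re, un_im]
  have h1 : (z.re - (x + h * w.re)) ^ 2 + (z.im + h * w.im) ^ 2
      = h ^ 2 * (((z.re - x) / h - w.re) ^ 2 + (z.im / h + w.im) ^ 2) := by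
    field_simp
    ring
  rw [h1]
  by_cases h0 : ((z.re - x) / h - w.re) ^ 2 + (z.im / h + w.im) ^ 2 = 0
  · rw [h0]; simp
  · field_simp

theorem N_map_aff {x h : ℝ} (hh : 0 < h) (L : List ℂ) (z : ℂ) :
    N (L.map (aff x h)) z = N L (un x h z) := by
  unfold N
  rw [List.map_map]
  congr 1
  apply List.map_congr_left
  intro w _
  exact K_aff hh z w

theorem mass_map_aff {x h : ℝ} (L : List ℂ) :
    mass (L.map (aff x h)) = h * mass L := by
  unfold mass
  rw [List.map_map]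
  induction L with
  | nil => simp
  | cons a L ih => simp only [List.map_cons, List.sum_cons, ih, mul_add, Function.comp, aff_im]

/-- far field estimate -/
theorem K_far {z w : ℂ} (hz : 0 < z.im) (hw0 : 0 < w.im) (hw1 : w.im ≤ 1) (hwr : |w.re| ≤ 3 / 4)
    (hfar : 1 ≤ |z.re| ∨ 1 ≤ z.im) : K z w ≤ 80 * w.im * K z Complex.I := by
  unfold K
  simp only [Complex.I_re, Complex.I_im, sub_zero, mul_one]
  have hd1 : 0 < (z.re - w.re) ^ 2 + (z.im + w.im) ^ 2 := by positivity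
  have hd2 : 0 < z.re ^ 2 + (z.im + 1) ^ 2 := by positivity
  have hkey : z.re ^ 2 + (z.im + 1) ^ 2 ≤ 80 * ((z.re - w.re) ^ 2 + (z.im + w.im) ^ 2) := by
    obtain ⟨hw3, hw4⟩ := abs_le.1 hwr
    rcases hfar with h | h
    · by_cases hy : 1 ≤ z.im
      · nlinarith [sq_nonneg (z.re - 2 * w.re), mul_pos hz hw0]
      · push Not at hy
        have h3 : z.re ^ 2 ≤ 16 * (z.re - w.re) ^ 2 := by
          rcases le_abs.1 h with h' | h' <;> nlinarith
        have h4 : 1 ≤ z.re ^ 2 := by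
          rcases le_abs.1 h with h' | h' <;> nlinarith
        nlinarith [sq_nonneg (z.im + w.im)]
    · nlinarith [sq_nonneg (z.re - 2 * w.re), mul_pos hz hw0]
  rw [div_le_iff₀ hd1]
  have : 80 * w.im * (4 * z.im / (z.re ^ 2 + (z.im + 1) ^ 2)) *
      ((z.re - w.re) ^ 2 + (z.im + w.im) ^ 2)
      = 4 * z.im * w.im * (80 * ((z.re - w.re) ^ 2 + (z.im + w.im) ^ 2) / (z.re ^ 2 + (z.im + 1) ^ 2)) := by
    ring
  rw [this]
  have h5 : 1 ≤ 80 * ((z.re - w.re) ^ 2 + (z.im + w.im) ^ 2) / (z.re ^ 2 + (z.im + 1) ^ 2) := by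
    rw [le_div_iff₀ hd2, one_mul]; exact hkey
  have h6 : 0 ≤ 4 * z.im * w.im := by positivity
  nlinarith

theorem N_far {L : List ℂ} {z : ℂ} (hz : 0 < z.im)
    (hL : ∀ w ∈ L, 0 < w.im ∧ w.im ≤ 1 ∧ |w.re| ≤ 3 / 4)
    (hfar : 1 ≤ |z.re| ∨ 1 ≤ z.im) : N L z ≤ 80 * mass L * K z Complex.I := by
  induction L with
  | nil => simp [N, mass]
  | cons a L ih =>
    rw [N_cons, mass_cons]
    have h1 := ih (fun w hw => hL w (List.mem_cons_of_mem _ hw))
    obtain ⟨ha1, ha2, ha3⟩ := hL a List.mem_cons_self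
    have h2 := K_far hz ha1 ha2 ha3 hfar
    linarith

/-- horizontal lattice -/
noncomputable def lat (x0 s h : ℝ) (T : ℕ) : List ℂ :=
  (List.range T).map (fun k : ℕ => (⟨x0 + k * s, h⟩ : ℂ))

theorem N_lat (x0 s h : ℝ) (T : ℕ) (z : ℂ) :
    N (lat x0 s h T) z = ∑ k ∈ Finset.range T, K z ⟨x0 + k * s, h⟩ := by
  unfold N lat
  rw [List.map_map, ← sum_map_range]
  rfl

theorem mass_lat (x0 s h : ℝ) (T : ℕ) : mass (lat x0 s h T) = T * h := by
  unfold mass lat
  rw [List.map_map, sum_map_range]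
  simp

theorem mem_lat {x0 s h : ℝ} {T : ℕ} {w : ℂ} :
    w ∈ lat x0 s h T ↔ ∃ k < T, w = ⟨x0 + k * s, h⟩ := by
  unfold lat
  simp only [List.mem_map, List.mem_range]
  constructor
  · rintro ⟨k, hk, rfl⟩; exact ⟨k, hk, rfl⟩
  · rintro ⟨k, hk, rfl⟩; exact ⟨k, hk, rfl⟩

theorem tele {c σ : ℝ} (hc : 0 < c) (hσ : 0 < σ) (T : ℕ) :
    ∑ n ∈ Finset.range T, 1 / (c + (n + 1) * σ) ^ 2 ≤ 1 / (σ * c) := by
  have h : ∀ T : ℕ, ∑ n ∈ Finset.range T, 1 / (c + ((n : ℝ) + 1) * σ) ^ 2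
      ≤ 1 / (σ * c) - 1 / (σ * (c + T * σ)) := by
    intro T
    induction T with
    | zero => simp
    | succ T ih =>
      rw [Finset.sum_range_succ]
      have e1 : 1 / (c + ((T : ℝ) + 1) * σ) ^ 2
          ≤ 1 / (σ * (c + T * σ)) - 1 / (σ * (c + (T + 1) * σ)) := by
        have hp1 : 0 < c + (T : ℝ) * σ := by positivity
        have hp2 : 0 < c + ((T : ℝ) + 1) * σ := by positivity
        have e2 : 1 / (σ * (c + T * σ)) - 1 / (σ * (c + (T + 1) * σ))
            = 1 / ((c + T * σ) * (c + (T + 1) * σ)) := by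
          field_simp
          ring
        rw [e2, sq]
        gcongr
        linarith
      push_cast
      linarith
  have h1 := h T
  have h2 : 0 ≤ 1 / (σ * (c + T * σ)) := by positivity
  push_cast at h1 ⊢
  linarith

/-- the off-centre part of a lattice sum -/
theorem lat_tail_aux {x x0 s b : ℝ} (hs : 0 < s) (hb : 0 < b) {T k0 : ℕ} (hk0 : k0 < T)
    (hmin : ∀ k < T, |x - (x0 + k0 * s)| ≤ |x - (x0 + k * s)|) :
    ∑ k ∈ (Finset.range T).erase k0, 1 / ((x - (x0 + k * s)) ^ 2 + b ^ 2)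
      ≤ 32 / (s * (|x - (x0 + k0 * s)| + b)) := by
  set Δ : ℝ := |x - (x0 + k0 * s)| with hΔ
  have hΔ0 : 0 ≤ Δ := abs_nonneg _
  set c : ℝ := Δ + b with hc
  have hcpos : 0 < c := by positivity
  -- termwise
  have hterm : ∀ k < T, ∀ n : ℝ, 0 ≤ n → |(k : ℝ) - k0| = n →
      1 / ((x - (x0 + k * s)) ^ 2 + b ^ 2) ≤ 8 * (1 / (c + n * (s / 2)) ^ 2) := by
    intro k hk n hn hkn
    have h1 := hmin k hk
    have h2 : n * s ≤ 2 * |x - (x0 + k * s)| := by
      have : n * s = |(x - (x0 + k0 * s)) - (x - (x0 + k * s))| := by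
        have e : (x - (x0 + k0 * s)) - (x - (x0 + k * s)) = ((k : ℝ) - k0) * s := by ring
        rw [e, abs_mul, hkn, abs_of_pos hs]
      rw [this]
      calc |(x - (x0 + k0 * s)) - (x - (x0 + k * s))| ≤ |x - (x0 + k0 * s)| + |x - (x0 + k * s)| :=
            abs_sub _ _
        _ ≤ 2 * |x - (x0 + k * s)| := by linarith
    set d : ℝ := |x - (x0 + k * s)| with hd
    have hd0 : 0 ≤ d := abs_nonneg _
    have h3 : (x - (x0 + k * s)) ^ 2 = d ^ 2 := by rw [hd, sq_abs]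
    rw [h3]
    have h4 : c + n * (s / 2) ≤ 2 * (d + b) := by
      rw [hc]; linarith
    have h5 : (c + n * (s / 2)) ^ 2 ≤ 8 * (d ^ 2 + b ^ 2) := by
      have h6 : 0 ≤ c + n * (s / 2) := by positivity
      nlinarith [sq_nonneg (d - b)]
    have h7 : 0 < c + n * (s / 2) := by positivity
    rw [mul_one_div, div_le_div_iff₀ (by positivity) (by positivity)]
    linarith
  -- split the sum
  have hsplit : ∑ k ∈ (Finset.range T).erase k0, 1 / ((x - (x0 + k * s)) ^ 2 + b ^ 2)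
      = ∑ k ∈ Finset.range k0, 1 / ((x - (x0 + k * s)) ^ 2 + b ^ 2)
        + ∑ n ∈ Finset.range (T - (k0 + 1)), 1 / ((x - (x0 + ((k0 + 1 + n : ℕ) : ℝ) * s)) ^ 2 + b ^ 2) := by
    have h1 : ∑ k ∈ Finset.range T, 1 / ((x - (x0 + k * s)) ^ 2 + b ^ 2)
        = ∑ k ∈ (Finset.range T).erase k0, 1 / ((x - (x0 + k * s)) ^ 2 + b ^ 2)
          + 1 / ((x - (x0 + k0 * s)) ^ 2 + b ^ 2) := by
      rw [Finset.sum_erase_add _ _ (Finset.mem_range.2 hk0)]
    have h2 : ∑ k ∈ Finset.range T, 1 / ((x - (x0 + k * s)) ^ 2 + b ^ 2)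
        = ∑ k ∈ Finset.range (k0 + 1), 1 / ((x - (x0 + k * s)) ^ 2 + b ^ 2)
          + ∑ k ∈ Finset.Ico (k0 + 1) T, 1 / ((x - (x0 + k * s)) ^ 2 + b ^ 2) := by
      rw [Finset.sum_range_add_sum_Ico _ (by omega)]
    rw [Finset.sum_range_succ, Finset.sum_Ico_eq_sum_range] at h2
    linarith
  rw [hsplit]
  have hA : ∑ k ∈ Finset.range k0, 1 / ((x - (x0 + k * s)) ^ 2 + b ^ 2) ≤ 16 / (s * c) := by
    rw [← Finset.sum_range_reflect]
    calc ∑ j ∈ Finset.range k0, 1 / ((x - (x0 + ((k0 - 1 - j : ℕ) : ℝ) * s)) ^ 2 + b ^ 2)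
        ≤ ∑ j ∈ Finset.range k0, 8 * (1 / (c + ((j : ℝ) + 1) * (s / 2)) ^ 2) := by
          apply Finset.sum_le_sum
          intro j hj
          rw [Finset.mem_range] at hj
          apply hterm _ (by omega) _ (by positivity)
          have : ((k0 - 1 - j : ℕ) : ℝ) = (k0 : ℝ) - 1 - j := by
            rw [Nat.cast_sub (by omega), Nat.cast_sub (by omega)]; simp
          rw [this, abs_sub_comm]
          rw [abs_of_nonneg (by ring_nf; positivity)]
          ring
      _ = 8 * ∑ j ∈ Finset.range k0, (1 / (c + ((j : ℝ) + 1) * (s / 2)) ^ 2) := by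
          rw [Finset.mul_sum]
      _ ≤ 8 * (1 / (s / 2 * c)) := by
          gcongr
          exact tele hcpos (by positivity) k0
      _ = 16 / (s * c) := by field_simp; norm_num
  have hB : ∑ n ∈ Finset.range (T - (k0 + 1)),
      1 / ((x - (x0 + ((k0 + 1 + n : ℕ) : ℝ) * s)) ^ 2 + b ^ 2) ≤ 16 / (s * c) := by
    calc ∑ n ∈ Finset.range (T - (k0 + 1)),
          1 / ((x - (x0 + ((k0 + 1 + n : ℕ) : ℝ) * s)) ^ 2 + b ^ 2)
        ≤ ∑ j ∈ Finset.range (T - (k0 + 1)), 8 * (1 / (c + ((j : ℝ) + 1) * (s / 2)) ^ 2) := by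
          apply Finset.sum_le_sum
          intro j hj
          rw [Finset.mem_range] at hj
          apply hterm _ (by omega) _ (by positivity)
          push_cast
          have : (k0 : ℝ) + 1 + j - k0 = (j : ℝ) + 1 := by ring
          rw [this, abs_of_nonneg (by positivity)]
      _ = 8 * ∑ j ∈ Finset.range (T - (k0 + 1)), (1 / (c + ((j : ℝ) + 1) * (s / 2)) ^ 2) := by
          rw [Finset.mul_sum]
      _ ≤ 8 * (1 / (s / 2 * c)) := by
          gcongr
          exact tele hcpos (by positivity) _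
      _ = 16 / (s * c) := by field_simp; norm_num
  have : 32 / (s * c) = 16 / (s * c) + 16 / (s * c) := by ring
  rw [this]
  exact add_le_add hA hB

/-- existence of a nearest lattice point -/
theorem exists_nearest (x x0 s : ℝ) {T : ℕ} (hT : 0 < T) :
    ∃ k0 < T, ∀ k < T, |x - (x0 + k0 * s)| ≤ |x - (x0 + k * s)| := by
  obtain ⟨k0, hk0, h⟩ := Finset.exists_min_image (Finset.range T)
    (fun k : ℕ => |x - (x0 + k * s)|) ⟨0, Finset.mem_range.2 hT⟩
  exact ⟨k0, Finset.mem_range.1 hk0, fun k hk => h k (Finset.mem_range.2 hk)⟩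

/-- off-centre part, in terms of `K` -/
theorem lat_tail {z : ℂ} (hz : 0 < z.im) {x0 s h : ℝ} (hs : 0 < s) (hh : 0 < h) {T k0 : ℕ}
    (hk0 : k0 < T) (hmin : ∀ k < T, |z.re - (x0 + k0 * s)| ≤ |z.re - (x0 + k * s)|) :
    ∑ k ∈ (Finset.range T).erase k0, K z ⟨x0 + k * s, h⟩
      ≤ 128 * z.im * h / (s * (|z.re - (x0 + k0 * s)| + z.im + h)) := by
  have h1 := lat_tail_aux hs (b := z.im + h) (by positivity) hk0 hmin
  have h2 : ∑ k ∈ (Finset.range T).erase k0, K z ⟨x0 + k * s, h⟩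
      = 4 * z.im * h * ∑ k ∈ (Finset.range T).erase k0,
        1 / ((z.re - (x0 + k * s)) ^ 2 + (z.im + h) ^ 2) := by
    rw [Finset.mul_sum]
    apply Finset.sum_congr rfl
    intro k _
    unfold K
    ring
  rw [h2]
  have hpos : 0 < |z.re - (x0 + k0 * s)| + (z.im + h) := by positivity
  calc 4 * z.im * h * ∑ k ∈ (Finset.range T).erase k0,
        1 / ((z.re - (x0 + k * s)) ^ 2 + (z.im + h) ^ 2)
      ≤ 4 * z.im * h * (32 / (s * (|z.re - (x0 + k0 * s)| + (z.im + h)))) := by gcongr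
    _ = 128 * z.im * h / (s * (|z.re - (x0 + k0 * s)| + z.im + h)) := by
        rw [add_assoc]; ring

theorem lat_bound {z : ℂ} (hz : 0 < z.im) {x0 s h : ℝ} (hs : 0 < s) (hh : 0 < h) {T k0 : ℕ}
    (hk0 : k0 < T) (hmin : ∀ k < T, |z.re - (x0 + k0 * s)| ≤ |z.re - (x0 + k * s)|) :
    N (lat x0 s h T) z ≤ K z ⟨x0 + k0 * s, h⟩
      + 128 * z.im * h / (s * (|z.re - (x0 + k0 * s)| + z.im + h)) := by
  rw [N_lat, ← Finset.add_sum_erase _ _ (Finset.mem_range.2 hk0)]
  gcongr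
  exact lat_tail hz hs hh hk0 hmin

/-- `K` in terms of the sum of distances -/
theorem K_le_c {z : ℂ} (hz : 0 < z.im) {x' h : ℝ} (hh : 0 < h) :
    K z ⟨x', h⟩ ≤ 8 * z.im * h / (|z.re - x'| + z.im + h) ^ 2 := by
  unfold K
  rw [div_le_div_iff₀ (by positivity) (by positivity)]
  have : (|z.re - x'| + z.im + h) ^ 2 ≤ 2 * ((z.re - x') ^ 2 + (z.im + h) ^ 2) := by
    have := sq_abs (z.re - x')
    nlinarith [sq_nonneg (|z.re - x'| - (z.im + h))]
  have h2 : 0 ≤ 4 * z.im * h := by positivity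
  simp only
  nlinarith

theorem K_ge_c {z : ℂ} (hz : 0 < z.im) {x' h : ℝ} (hh : 0 < h) :
    4 * z.im * h / (|z.re - x'| + z.im + h) ^ 2 ≤ K z ⟨x', h⟩ := by
  unfold K
  rw [div_le_div_iff₀ (by positivity) (by positivity)]
  have : (z.re - x') ^ 2 + (z.im + h) ^ 2 ≤ (|z.re - x'| + z.im + h) ^ 2 := by
    have := sq_abs (z.re - x')
    have h3 : 0 ≤ |z.re - x'| := abs_nonneg _
    nlinarith [mul_nonneg h3 (by positivity : 0 ≤ z.im + h)]
  have h2 : 0 ≤ 4 * z.im * h := by positivity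
  simp only
  nlinarith

end Pool.Agent.H44.WEP
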