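import Mathlib
import Pool.Agent.H44.WEP.Kernel

set_option autoImplicit false

namespace Pool.Agent.H44.WEP

/-- dyadic height -/
noncomputable def dy (m : ℕ) : ℝ := (1 / 2) ^ m

theorem dy_pos (m : ℕ) : 0 < dy m := by unfold dy; positivity
theorem dy_le_one (m : ℕ) : dy m ≤ 1 := by
  unfold dy; exact pow_le_one₀ (by norm_num) (by norm_num)
theorem dy_eq (m : ℕ) : dy m = 1 / 2 ^ m := by unfold dy; rw [one_div_pow]
theorem dy_zero : dy 0 = 1 := by unfold dy; simp
theorem dy_succ (m : ℕ) : dy (m + 1) = dy m / 2 := by unfold dy; rw [pow_succ]; ring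
theorem dy_mul_pow (m : ℕ) : dy m * 2 ^ m = 1 := by rw [dy_eq]; field_simp
theorem dy_add (m n : ℕ) : dy (m + n) = dy m * dy n := by unfold dy; rw [pow_add]
theorem dy_anti {m n : ℕ} (h : m ≤ n) : dy n ≤ dy m := by
  unfold dy; exact pow_le_pow_of_le_one (by norm_num) (by norm_num) h

theorem sum_dy (n : ℕ) : ∑ m ∈ Finset.range n, dy m ≤ 2 := by
  have h : ∀ n, ∑ m ∈ Finset.range n, dy m = 2 - 2 * dy n := by
    intro n
    induction n with
    | zero => simp [dy_zero]
    | succ n ih => rw [Finset.sum_range_succ, ih, dy_succ]; ring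
  rw [h]; linarith [dy_pos n]

theorem sqrt_dy_le (m : ℕ) : Real.sqrt (dy m) ≤ (3 / 4) ^ m := by
  apply Real.sqrt_le_iff.2
  constructor
  · positivity
  · unfold dy
    rw [← pow_mul, mul_comm m 2, pow_mul]
    gcongr
    norm_num

theorem sum_geom34 (n : ℕ) : ∑ m ∈ Finset.range n, (3 / 4 : ℝ) ^ m ≤ 4 := by
  have h : ∀ n : ℕ, ∑ m ∈ Finset.range n, (3 / 4 : ℝ) ^ m = 4 - 4 * (3 / 4) ^ n := by
    intro n
    induction n with
    | zero => simp
    | succ n ih => rw [Finset.sum_range_succ, ih, pow_succ]; ring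
  rw [h]
  have : (0 : ℝ) ≤ (3 / 4) ^ n := by positivity
  linarith

theorem sum_pow_filter {t : ℝ} (ht : 0 ≤ t) (n : ℕ) :
    ∑ m ∈ (Finset.range n).filter (fun m => (2 : ℝ) ^ m ≤ t), (2 : ℝ) ^ m ≤ 2 * t := by
  have h : ∀ n : ℕ, ∑ m ∈ (Finset.range n).filter (fun m => (2 : ℝ) ^ m ≤ t), (2 : ℝ) ^ m ≤ 2 * t ∧
      ∑ m ∈ (Finset.range n).filter (fun m => (2 : ℝ) ^ m ≤ t), (2 : ℝ) ^ m ≤ 2 ^ n - 1 := by
    intro n
    induction n with
    | zero => simp [ht]
    | succ n ih =>
      rw [Finset.range_add_one, Finset.filter_insert]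
      split_ifs with h1
      · rw [Finset.sum_insert (by simp)]
        constructor
        · have := ih.2
          linarith
        · have := ih.2
          rw [pow_succ]
          linarith
      · constructor
        · exact ih.1
        · have := ih.2
          rw [pow_succ]
          have : (0 : ℝ) < 2 ^ n := by positivity
          linarith
  exact (h n).1

/-- half-width of the object at height `h` -/
noncomputable def aw (β h : ℝ) : ℝ := Real.sqrt (h + β ^ 2) / 2

noncomputable def JA (β h : ℝ) : ℕ := ⌊aw β h / h⌋₊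

noncomputable def lvlA (β h : ℝ) : List ℂ := lat (-((JA β h : ℝ) * h)) h h (2 * JA β h + 1)

/-- the amplifier -/
noncomputable def objA (a : ℕ) : List ℂ :=
  (List.range (2 ^ a + 1)).flatMap (fun m => lvlA (dy a) (dy m))

theorem aw_nonneg (β h : ℝ) : 0 ≤ aw β h := by unfold aw; positivity

theorem JA_mul_le {β h : ℝ} (hh : 0 < h) : (JA β h : ℝ) * h ≤ aw β h := by
  unfold JA
  have h1 : (⌊aw β h / h⌋₊ : ℝ) ≤ aw β h / h := Nat.floor_le (div_nonneg (aw_nonneg _ _) hh.le)
  calc (⌊aw β h / h⌋₊ : ℝ) * h ≤ aw β h / h * h := by gcongr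
    _ = aw β h := by field_simp

theorem aw_le {β h : ℝ} (hh : 0 ≤ h) (hβ : 0 ≤ β) : 2 * aw β h ≤ Real.sqrt h + β := by
  unfold aw
  have h1 : Real.sqrt (h + β ^ 2) ≤ Real.sqrt h + β := by
    rw [Real.sqrt_le_iff]
    constructor
    · positivity
    · have := Real.sq_sqrt hh
      nlinarith [mul_nonneg (Real.sqrt_nonneg h) hβ]
  linarith

theorem mem_lvlA {β h : ℝ} {w : ℂ} (hw : w ∈ lvlA β h) (hh : 0 < h) :
    w.im = h ∧ |w.re| ≤ aw β h := by
  obtain ⟨k, hk, rfl⟩ := mem_lat.1 hw
  refine ⟨rfl, ?_⟩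
  have h1 := JA_mul_le (β := β) hh
  have h2 : (k : ℝ) ≤ 2 * JA β h := by
    have : k ≤ 2 * JA β h := by omega
    exact_mod_cast this
  have h3 : (0 : ℝ) ≤ k := Nat.cast_nonneg k
  simp only
  rw [abs_le]
  constructor
  · nlinarith
  · nlinarith

theorem exists_mem_lvlA {β h x : ℝ} (hh : 0 < h) (hx : |x| ≤ aw β h) :
    ∃ x', (⟨x', h⟩ : ℂ) ∈ lvlA β h ∧ |x - x'| ≤ h := by
  set j : ℕ := ⌊|x| / h⌋₊ with hj
  have hjJ : j ≤ JA β h := by
    unfold JA
    apply Nat.floor_le_floor
    gcongr
  have h1 : (j : ℝ) * h ≤ |x| := by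
    have : (j : ℝ) ≤ |x| / h := Nat.floor_le (by positivity)
    calc (j : ℝ) * h ≤ |x| / h * h := by gcongr
      _ = |x| := by field_simp
  have h2 : |x| < ((j : ℝ) + 1) * h := by
    have : |x| / h < (j : ℝ) + 1 := Nat.lt_floor_add_one _
    rwa [div_lt_iff₀ hh] at this
  rcases le_total 0 x with hx0 | hx0
  · refine ⟨(j : ℝ) * h, mem_lat.2 ⟨JA β h + j, by omega, ?_⟩, ?_⟩
    · apply Complex.ext
      · simp only; push_cast; ring
      · rfl
    · rw [abs_of_nonneg hx0] at h1 h2
      rw [abs_le]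
      constructor <;> linarith
  · refine ⟨-((j : ℝ) * h), mem_lat.2 ⟨JA β h - j, by omega, ?_⟩, ?_⟩
    · apply Complex.ext
      · simp only; rw [Nat.cast_sub hjJ]; ring
      · rfl
    · rw [abs_of_nonpos hx0] at h1 h2
      rw [abs_le]
      constructor <;> linarith

theorem mem_objA {a : ℕ} {w : ℂ} : w ∈ objA a ↔ ∃ m ≤ 2 ^ a, w ∈ lvlA (dy a) (dy m) := by
  unfold objA
  rw [List.mem_flatMap]
  constructor
  · rintro ⟨m, hm, hw⟩
    exact ⟨m, by rw [List.mem_range] at hm; omega, hw⟩
  · rintro ⟨m, hm, hw⟩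
    exact ⟨m, by rw [List.mem_range]; omega, hw⟩

theorem I_mem_objA (a : ℕ) : Complex.I ∈ objA a := by
  rw [mem_objA]
  refine ⟨0, Nat.zero_le _, ?_⟩
  rw [dy_zero]
  refine mem_lat.2 ⟨JA (dy a) 1, by omega, ?_⟩
  apply Complex.ext
  · simp
  · simp

theorem objA_ext {a : ℕ} {w : ℂ} (hw : w ∈ objA a) : 0 < w.im ∧ w.im ≤ 1 ∧ |w.re| ≤ 3 / 4 := by
  obtain ⟨m, hm, hw⟩ := mem_objA.1 hw
  obtain ⟨h1, h2⟩ := mem_lvlA hw (dy_pos m)
  refine ⟨by rw [h1]; exact dy_pos m, by rw [h1]; exact dy_le_one m, h2.trans ?_⟩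
  unfold aw
  have h3 := dy_le_one m
  have h4 := dy_le_one a
  have h5 := dy_pos a
  have h6 : Real.sqrt (dy m + dy a ^ 2) ≤ 3 / 2 := by
    rw [Real.sqrt_le_iff]
    constructor
    · norm_num
    · nlinarith
  linarith

theorem M_mul_dy (a : ℕ) : ((2 : ℝ) ^ a + 1) * dy a ≤ 2 := by
  have := dy_mul_pow a
  have := dy_le_one a
  nlinarith

theorem sum_widths (a : ℕ) :
    ∑ m ∈ Finset.range (2 ^ a + 1), (Real.sqrt (dy m) + dy a + dy m) ≤ 8 := by
  rw [Finset.sum_add_distrib, Finset.sum_add_distrib]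
  have h1 : ∑ m ∈ Finset.range (2 ^ a + 1), Real.sqrt (dy m) ≤ 4 := by
    refine le_trans (Finset.sum_le_sum fun m _ => sqrt_dy_le m) (sum_geom34 _)
  have h2 : ∑ m ∈ Finset.range (2 ^ a + 1), dy a ≤ 2 := by
    rw [Finset.sum_const, Finset.card_range, nsmul_eq_mul]
    have := M_mul_dy a
    push_cast
    exact this
  have h3 := sum_dy (2 ^ a + 1)
  linarith

theorem mass_objA (a : ℕ) : mass (objA a) ≤ 8 := by
  unfold objA
  rw [mass_flatMap, sum_map_range]
  refine le_trans (Finset.sum_le_sum fun m _ => ?_) (sum_widths a)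
  unfold lvlA
  rw [mass_lat]
  have h1 := JA_mul_le (β := dy a) (dy_pos m)
  have h2 := aw_le (dy_pos m).le (dy_pos a).le
  push_cast
  linarith

theorem N_objA (a : ℕ) (z : ℂ) :
    N (objA a) z = ∑ m ∈ Finset.range (2 ^ a + 1), N (lvlA (dy a) (dy m)) z := by
  unfold objA
  rw [N_flatMap, sum_map_range]

/-- basic bound for one level -/
theorem lvlA_bound {β h : ℝ} (hh : 0 < h) {z : ℂ} (hz : 0 < z.im) :
    N (lvlA β h) z ≤ 136 * z.im / h ∧
      (aw β h < |z.re| → N (lvlA β h) z ≤ 136 * z.im / (|z.re| - aw β h)) ∧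
      (aw β h < |z.re| →
        N (lvlA β h) z ≤ (2 * aw β h + h) * (4 * z.im / (|z.re| - aw β h) ^ 2)) := by
  have hT : 0 < 2 * JA β h + 1 := by omega
  obtain ⟨k0, hk0, hmin⟩ := exists_nearest z.re (-((JA β h : ℝ) * h)) h hT
  have hb := lat_bound hz hh hh hk0 hmin
  have hmem : (⟨-((JA β h : ℝ) * h) + k0 * h, h⟩ : ℂ) ∈ lvlA β h := mem_lat.2 ⟨k0, hk0, rfl⟩
  have hre := (mem_lvlA hmem hh).2
  simp only at hre
  set x' : ℝ := -((JA β h : ℝ) * h) + k0 * h with hx'
  set c : ℝ := |z.re - x'| + z.im + h with hc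
  have hcpos : 0 < c := by positivity
  have hch : h ≤ c := by
    have : 0 ≤ |z.re - x'| := abs_nonneg _
    rw [hc]; linarith
  have h1 : N (lvlA β h) z ≤ 136 * z.im / c := by
    have h2 := K_le_c hz (x' := x') hh
    rw [← hc] at h2
    have h3 : 8 * z.im * h / c ^ 2 ≤ 8 * z.im / c := by
      rw [div_le_div_iff₀ (by positivity) hcpos]
      have : 0 ≤ 8 * z.im * c := by positivity
      nlinarith
    have h4 : 128 * z.im * h / (h * c) = 128 * z.im / c := by
      field_simp
    unfold lvlA
    rw [h4] at hb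
    calc _ ≤ 8 * z.im / c + 128 * z.im / c := by linarith
      _ = 136 * z.im / c := by ring
  refine ⟨h1.trans (by gcongr), fun hlt => ?_, fun hlt => ?_⟩
  · have hpos : 0 < |z.re| - aw β h := by linarith
    refine h1.trans ?_
    gcongr
    have : |z.re| ≤ |z.re - x'| + |x'| := by
      calc |z.re| = |(z.re - x') + x'| := by ring_nf
        _ ≤ _ := abs_add_le _ _
    rw [hc]; linarith
  · have hpos : 0 < |z.re| - aw β h := by linarith
    unfold lvlA
    rw [N_lat]
    calc ∑ k ∈ Finset.range (2 * JA β h + 1), K z ⟨-((JA β h : ℝ) * h) + k * h, h⟩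
        ≤ ∑ k ∈ Finset.range (2 * JA β h + 1), 4 * z.im * h / (|z.re| - aw β h) ^ 2 := by
          apply Finset.sum_le_sum
          intro k hk
          rw [Finset.mem_range] at hk
          have hmem : (⟨-((JA β h : ℝ) * h) + k * h, h⟩ : ℂ) ∈ lvlA β h := mem_lat.2 ⟨k, hk, rfl⟩
          have hre := (mem_lvlA hmem hh).2
          simp only at hre
          unfold K
          simp only
          gcongr
          have h5 : |z.re| - aw β h ≤ |z.re - (-((JA β h : ℝ) * h) + k * h)| := by
            have : |z.re| ≤ |z.re - (-((JA β h : ℝ) * h) + k * h)|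
                + |(-((JA β h : ℝ) * h) + k * h)| := by
              calc |z.re| = |(z.re - (-((JA β h : ℝ) * h) + k * h))
                    + (-((JA β h : ℝ) * h) + k * h)| := by ring_nf
                _ ≤ _ := abs_add_le _ _
            linarith
          have h6 : (|z.re| - aw β h) ^ 2 ≤ (z.re - (-((JA β h : ℝ) * h) + k * h)) ^ 2 := by
            rw [← sq_abs (z.re - _)]
            gcongr
          nlinarith [sq_nonneg (z.im + h)]
      _ = (2 * (JA β h * h) + h) * (4 * z.im / (|z.re| - aw β h) ^ 2) := by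
          rw [Finset.sum_const, Finset.card_range, nsmul_eq_mul]
          push_cast
          ring
      _ ≤ (2 * aw β h + h) * (4 * z.im / (|z.re| - aw β h) ^ 2) := by
          have := JA_mul_le (β := β) hh
          gcongr

theorem exists_level {τ : ℝ} (h0 : 0 < τ) (h1 : τ ≤ 1) : ∃ m : ℕ, τ ≤ dy m ∧ dy m < 2 * τ := by
  obtain ⟨n, hn1, hn2⟩ := exists_nat_pow_near (x := 1 / τ) (y := (2 : ℝ))
    (by rw [le_div_iff₀ h0]; linarith) (by norm_num)
  refine ⟨n, ?_, ?_⟩
  · rw [dy_eq, le_div_iff₀ (by positivity)]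
    rw [le_div_iff₀ h0] at hn1
    linarith
  · rw [dy_eq, div_lt_iff₀ (by positivity)]
    rw [div_lt_iff₀ h0, pow_succ] at hn2
    linarith

/-- main estimate for the amplifier -/
theorem objA_bound (a : ℕ) {z : ℂ} (hz : 0 < z.im) {κ : ℝ} (hκ : κ < 2 / 5)
    (hfar : ∀ w ∈ objA a, K z w ≤ κ) : N (objA a) z ≤ 40000 * κ := by
  have hκI := hfar _ (I_mem_objA a)
  have hKI : 0 < K z Complex.I := K_pos hz (by simp)
  by_cases hbox : 1 ≤ |z.re| ∨ 1 ≤ z.im
  · have h1 := N_far (L := objA a) hz (fun w hw => objA_ext hw) hbox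
    have h2 := mass_objA a
    nlinarith
  push Not at hbox
  obtain ⟨hx1, hy1⟩ := hbox
  set x := z.re with hx
  set y := z.im with hy
  set β := dy a with hβ
  have hβpos : 0 < β := dy_pos a
  have hβ1 : β ≤ 1 := dy_le_one a
  set hm : ℝ := dy (2 ^ a) with hhm
  have hmpos : 0 < hm := dy_pos _
  set Y : ℝ := 4 * x ^ 2 - β ^ 2 with hY
  set Ym : ℝ := max Y hm with hYm
  have hYmpos : 0 < Ym := lt_of_lt_of_le hmpos (le_max_right _ _)
  have hYYm : Y ≤ Ym := le_max_left _ _
  have hx2 : x ^ 2 = |x| ^ 2 := (sq_abs x).symm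
  have hx0 : 0 ≤ |x| := abs_nonneg x
  -- lower bound for κ
  have hlow : 2 / 5 * (y / max Ym y) ≤ κ := by
    set τ : ℝ := max Ym y with hτ
    have hτpos : 0 < τ := lt_of_lt_of_le hYmpos (le_max_left _ _)
    have hyτ : y ≤ τ := le_max_right _ _
    by_cases hτ1 : τ ≤ 1
    · obtain ⟨m, hm1, hm2⟩ := exists_level hτpos hτ1
      have hmM : m ≤ 2 ^ a := by
        by_contra hcon
        push Not at hcon
        have h1 : dy m ≤ dy (2 ^ a + 1) := dy_anti (by omega)
        rw [dy_succ] at h1
        have h2 : hm ≤ Ym := le_max_right _ _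
        have h3 : Ym ≤ τ := le_max_left _ _
        linarith
      set h := dy m with hh
      have hhpos : 0 < h := dy_pos m
      have hYh : Y ≤ h := hYYm.trans ((le_max_left _ _).trans hm1)
      have hxa : |x| ≤ aw β h := by
        unfold aw
        rw [le_div_iff₀ (by norm_num)]
        apply Real.le_sqrt_of_sq_le
        nlinarith
      obtain ⟨x', hx'mem, hx'⟩ := exists_mem_lvlA hhpos hxa
      have h1 := hfar _ (mem_objA.2 ⟨m, hmM, hx'mem⟩)
      refine le_trans ?_ h1
      unfold K
      simp only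
      rw [← hx, ← hy]
      have h2 : (x - x') ^ 2 + (y + h) ^ 2 ≤ 5 * h ^ 2 := by
        have := sq_abs (x - x')
        have h3 : 0 ≤ |x - x'| := abs_nonneg _
        have h4 : y ≤ h := hyτ.trans hm1
        nlinarith
      have h3 : 0 < (x - x') ^ 2 + (y + h) ^ 2 := by positivity
      rw [div_eq_mul_inv y τ]
      have h4 : 4 * y * h / (5 * h ^ 2) ≤ 4 * y * h / ((x - x') ^ 2 + (y + h) ^ 2) := by
        gcongr
      refine le_trans ?_ h4
      have h5 : 4 * y * h / (5 * h ^ 2) = 4 / 5 * (y * h⁻¹) := by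
        field_simp
      rw [h5]
      have h6 : τ⁻¹ ≤ 2 * h⁻¹ := by
        rw [← one_div, ← one_div, mul_one_div, div_le_div_iff₀ hτpos hhpos]
        linarith
      nlinarith
    · push Not at hτ1
      refine le_trans ?_ hκI
      unfold K
      simp only [Complex.I_re, Complex.I_im, sub_zero, mul_one]
      rw [← hx, ← hy]
      have h1 : x ^ 2 + (y + 1) ^ 2 ≤ 5 := by nlinarith
      have h3 : 0 < x ^ 2 + (y + 1) ^ 2 := by positivity
      have h4 : 4 * y / 5 ≤ 4 * y / (x ^ 2 + (y + 1) ^ 2) := by gcongr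
      refine le_trans ?_ h4
      have h5 : y / τ ≤ y := div_le_self hz.le hτ1.le
      linarith
  have hyYm : y < Ym := by
    by_contra hcon
    push Not at hcon
    rw [max_eq_right hcon, div_self hz.ne'] at hlow
    linarith
  rw [max_eq_left hyYm.le] at hlow
  -- upper bound
  have hup : N (objA a) z ≤ 14000 * (y / Ym) := by
    rw [N_objA]
    have hterm : ∀ m ∈ Finset.range (2 ^ a + 1), N (lvlA β (dy m)) z ≤
        (if (2 : ℝ) ^ m ≤ 2 / Ym then 136 * y * 2 ^ m else 0) +
          (if |x| ≤ 3 * β then 6528 * β * (y / Ym)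
            else 220 * (y / Ym) * (Real.sqrt (dy m) + β + dy m)) := by
      intro m hm'
      rw [Finset.mem_range] at hm'
      obtain ⟨b1, b2, b3⟩ := lvlA_bound (β := β) (dy_pos m) hz
      rw [← hy] at b1
      rw [← hx, ← hy] at b2 b3
      have hpos2 : 0 ≤ (if |x| ≤ 3 * β then 6528 * β * (y / Ym)
            else 220 * (y / Ym) * (Real.sqrt (dy m) + β + dy m)) := by
        have := dy_pos m
        split_ifs <;> positivity
      by_cases hc : (2 : ℝ) ^ m ≤ 2 / Ym
      · rw [if_pos hc]
        have : 136 * y / dy m = 136 * y * 2 ^ m := by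
          rw [dy_eq]; field_simp
        linarith
      · rw [if_neg hc, zero_add]
        push Not at hc
        -- dy m < Ym / 2
        have hdm : dy m < Ym / 2 := by
          rw [dy_eq, div_lt_div_iff₀ (by positivity) (by norm_num)]
          rw [div_lt_iff₀ hYmpos] at hc
          linarith
        have hdm2 : hm ≤ dy m := dy_anti (by omega)
        have hYmY : Ym = Y := by
          rw [hYm]
          apply max_eq_left
          by_contra hcon
          push Not at hcon
          rw [hYm, max_eq_right hcon.le] at hdm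
          linarith
        have hYpos : 0 < Y := hYmY ▸ hYmpos
        set h := dy m with hh
        have hhpos : 0 < h := dy_pos m
        have haw2 : 4 * aw β h ^ 2 = h + β ^ 2 := by
          unfold aw
          have := Real.sq_sqrt (by positivity : 0 ≤ h + β ^ 2)
          nlinarith
        have haw0 : 0 ≤ aw β h := aw_nonneg _ _
        have hxpos : 0 < |x| := by
          by_contra hcon
          push Not at hcon
          have : |x| = 0 := le_antisymm hcon hx0
          rw [hx2, this] at hY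
          nlinarith
        have hlt : aw β h < |x| := by
          by_contra hcon
          push Not at hcon
          have hp := pow_le_pow_left₀ hx0 hcon 2
          rw [hYmY, hY, hx2] at hdm
          rw [hY, hx2] at hYpos
          linarith
        have hgap : Y ≤ 16 * |x| * (|x| - aw β h) := by
          have e1 : 4 * (|x| - aw β h) * (|x| + aw β h) = Y - h := by
            rw [hY, hx2]
            have : 4 * (|x| - aw β h) * (|x| + aw β h) = 4 * |x| ^ 2 - 4 * aw β h ^ 2 := by ring
            rw [this, haw2]; ring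
          have e2 : Y / 2 ≤ Y - h := by linarith
          have e3 : |x| + aw β h ≤ 2 * |x| := by linarith
          have e4 : 0 < |x| - aw β h := by linarith
          have e5 : 4 * (|x| - aw β h) * (|x| + aw β h) ≤ 4 * (|x| - aw β h) * (2 * |x|) := by
            gcongr
          linarith
        split_ifs with hreg
        · refine (b2 hlt).trans ?_
          have e4 : 0 < |x| - aw β h := by linarith
          rw [hYmY, div_le_iff₀ e4]
          have e5 : 6528 * β * (y / Y) * (|x| - aw β h) = 6528 * y * (β * (|x| - aw β h)) / Y := by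
            ring
          rw [e5, le_div_iff₀ hYpos]
          calc 136 * y * Y ≤ 136 * y * (16 * |x| * (|x| - aw β h)) := by gcongr
            _ ≤ 136 * y * (16 * (3 * β) * (|x| - aw β h)) := by gcongr
            _ = 6528 * y * (β * (|x| - aw β h)) := by ring
        · push Not at hreg
          refine (b3 hlt).trans ?_
          have e4 : 0 < |x| - aw β h := by linarith
          have e6 : aw β h ≤ 73 / 100 * |x| := by
            have hβ2 : (3 * β) ^ 2 ≤ |x| ^ 2 := by gcongr
            have hq : aw β h ^ 2 ≤ (73 / 100 * |x|) ^ 2 := by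
              rw [mul_pow] at hβ2 ⊢
              rw [hYmY, hY, hx2] at hdm
              linarith
            exact (pow_le_pow_iff_left₀ haw0 (by positivity) two_ne_zero).1 hq
          have e7 : 27 / 100 * |x| ≤ |x| - aw β h := by linarith
          have e8 : 4 * y / (|x| - aw β h) ^ 2 ≤ 220 * (y / Y) := by
            rw [div_le_iff₀ (by positivity)]
            have e9 : 220 * (y / Y) * (|x| - aw β h) ^ 2 = 4 * y * (55 * (|x| - aw β h) ^ 2 / Y) := by
              ring
            rw [e9]
            have e10 : 1 ≤ 55 * (|x| - aw β h) ^ 2 / Y := by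
              rw [le_div_iff₀ hYpos, one_mul]
              have hY2 : Y ≤ 4 * |x| ^ 2 := by
                rw [hY, hx2]
                have := sq_nonneg β
                linarith
              have e11 : (27 / 100 * |x|) ^ 2 ≤ (|x| - aw β h) ^ 2 := by gcongr
              rw [mul_pow] at e11
              linarith [sq_nonneg |x|]
            have e12 : 0 ≤ 4 * y := by positivity
            calc 4 * y = 4 * y * 1 := by ring
              _ ≤ 4 * y * (55 * (|x| - aw β h) ^ 2 / Y) := by gcongr
          have e11 := aw_le hhpos.le hβpos.le (β := β) (h := h)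
          rw [hYmY]
          have e12 : 0 ≤ 220 * (y / Y) := by positivity
          calc (2 * aw β h + h) * (4 * y / (|x| - aw β h) ^ 2)
              ≤ (Real.sqrt h + β + h) * (220 * (y / Y)) := by
                have : 0 ≤ 4 * y / (|x| - aw β h) ^ 2 := by positivity
                gcongr
            _ = 220 * (y / Y) * (Real.sqrt h + β + h) := by ring
    refine (Finset.sum_le_sum hterm).trans ?_
    rw [Finset.sum_add_distrib]
    have hs1 : ∑ m ∈ Finset.range (2 ^ a + 1), (if (2 : ℝ) ^ m ≤ 2 / Ym then 136 * y * 2 ^ m else 0)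
        ≤ 544 * (y / Ym) := by
      rw [← Finset.sum_filter, ← Finset.mul_sum]
      have := sum_pow_filter (t := 2 / Ym) (by positivity) (2 ^ a + 1)
      calc 136 * y * ∑ m ∈ (Finset.range (2 ^ a + 1)).filter (fun m => (2 : ℝ) ^ m ≤ 2 / Ym), (2 : ℝ) ^ m
          ≤ 136 * y * (2 * (2 / Ym)) := by gcongr
        _ = 544 * (y / Ym) := by ring
    have hs2 : ∑ m ∈ Finset.range (2 ^ a + 1), (if |x| ≤ 3 * β then 6528 * β * (y / Ym)
            else 220 * (y / Ym) * (Real.sqrt (dy m) + β + dy m)) ≤ 13056 * (y / Ym) := by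
      split_ifs with hreg
      · rw [Finset.sum_const, Finset.card_range, nsmul_eq_mul]
        have := M_mul_dy a
        rw [← hβ] at this
        push_cast
        have h1 : 0 ≤ y / Ym := by positivity
        nlinarith
      · rw [← Finset.mul_sum]
        have := sum_widths a
        rw [← hβ] at this
        have h1 : 0 ≤ y / Ym := by positivity
        nlinarith
    have h1 : 0 ≤ y / Ym := by positivity
    linarith
  linarith

end Pool.Agent.H44.WEP
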