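import Mathlib
import Pool.Agent.H44.WEP.ObjA

set_option autoImplicit false

open Filter Topology ComplexConjugate

namespace Pool.Agent.H44.WEP

/-- half-plane Blaschke factor -/
noncomputable def bf (l w : ℂ) : ℂ := (w - l) / (w - conj l)

theorem sub_conj_ne {l w : ℂ} (hl : 0 < l.im) (hw : 0 ≤ w.im) : w - conj l ≠ 0 := by
  intro h
  have := congrArg Complex.im h
  simp at this
  linarith

theorem normSq_sub_conj (l w : ℂ) :
    ‖w - conj l‖ ^ 2 = (w.re - l.re) ^ 2 + (w.im + l.im) ^ 2 := by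
  rw [← Complex.normSq_eq_norm_sq, Complex.normSq_apply]
  simp
  ring

theorem normSq_sub (l w : ℂ) :
    ‖w - l‖ ^ 2 = (w.re - l.re) ^ 2 + (w.im - l.im) ^ 2 := by
  rw [← Complex.normSq_eq_norm_sq, Complex.normSq_apply]
  simp
  ring

theorem norm_bf_sq {l w : ℂ} (hl : 0 < l.im) (hw : 0 ≤ w.im) : ‖bf l w‖ ^ 2 = 1 - K w l := by
  unfold bf K
  rw [norm_div, div_pow, normSq_sub_conj, normSq_sub]
  have : 0 < (w.re - l.re) ^ 2 + (w.im + l.im) ^ 2 := by positivity
  field_simp
  ring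

theorem norm_bf_le {l w : ℂ} (hl : 0 < l.im) (hw : 0 ≤ w.im) : ‖bf l w‖ ≤ 1 := by
  have h1 := norm_bf_sq hl hw
  have h2 : 0 ≤ K w l := by unfold K; positivity
  nlinarith [norm_nonneg (bf l w)]

theorem norm_bf_real {l w : ℂ} (hl : 0 < l.im) (hw : w.im = 0) : ‖bf l w‖ = 1 := by
  have h1 := norm_bf_sq hl hw.ge
  have h2 : K w l = 0 := by unfold K; rw [hw]; simp
  rw [h2, sub_zero] at h1
  nlinarith [norm_nonneg (bf l w)]

theorem one_sub_bf {l w : ℂ} (hl : 0 < l.im) (hw : 0 ≤ w.im) :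
    ‖1 - bf l w‖ = 2 * l.im / ‖w - conj l‖ := by
  unfold bf
  have h := sub_conj_ne hl hw
  have h1 : 1 - (w - l) / (w - conj l) = (l - conj l) / (w - conj l) := by
    field_simp; ring
  rw [h1, norm_div]
  congr 1
  rw [Complex.sub_conj]
  rw [norm_mul, Complex.norm_I, mul_one, Complex.norm_real, Real.norm_eq_abs, abs_of_pos (by positivity)]

noncomputable def bl (L : List ℂ) (w : ℂ) : ℂ := (L.map (fun l => bf l w)).prod

theorem bl_cons (l : ℂ) (L : List ℂ) (w : ℂ) : bl (l :: L) w = bf l w * bl L w := by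
  simp [bl]

theorem norm_bl_le {L : List ℂ} {w : ℂ} (hL : ∀ l ∈ L, 0 < l.im) (hw : 0 ≤ w.im) :
    ‖bl L w‖ ≤ 1 := by
  induction L with
  | nil => simp [bl]
  | cons l L ih =>
    rw [bl_cons, norm_mul]
    have h1 := norm_bf_le (hL l List.mem_cons_self) hw
    have h2 := ih (fun l hl => hL l (List.mem_cons_of_mem _ hl))
    calc _ ≤ (1 : ℝ) * 1 := by gcongr
      _ = 1 := one_mul 1

theorem norm_bl_real {L : List ℂ} {w : ℂ} (hL : ∀ l ∈ L, 0 < l.im) (hw : w.im = 0) :
    ‖bl L w‖ = 1 := by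
  induction L with
  | nil => simp [bl]
  | cons l L ih =>
    rw [bl_cons, norm_mul, norm_bf_real (hL l List.mem_cons_self) hw,
      ih (fun l hl => hL l (List.mem_cons_of_mem _ hl)), one_mul]

theorem bl_zero {L : List ℂ} {w : ℂ} (hw : w ∈ L) : bl L w = 0 := by
  unfold bl
  apply List.prod_eq_zero
  rw [List.mem_map]
  exact ⟨w, hw, by simp [bf]⟩

theorem one_sub_mul_le {a b : ℂ} (ha : ‖a‖ ≤ 1) : ‖1 - a * b‖ ≤ ‖1 - a‖ + ‖1 - b‖ := by
  have : 1 - a * b = (1 - a) + a * (1 - b) := by ring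
  rw [this]
  refine (norm_add_le _ _).trans ?_
  rw [norm_mul]
  have := norm_nonneg (1 - b)
  nlinarith

theorem one_sub_bl {L : List ℂ} {w : ℂ} (hL : ∀ l ∈ L, 0 < l.im) (hw : 0 ≤ w.im) {d : ℝ}
    (hd : 0 < d) (hdist : ∀ l ∈ L, d ≤ ‖w - conj l‖) : ‖1 - bl L w‖ ≤ 2 * mass L / d := by
  induction L with
  | nil => simp [bl, mass]
  | cons l L ih =>
    rw [bl_cons, mass_cons]
    have hl := hL l List.mem_cons_self
    refine (one_sub_mul_le (norm_bf_le hl hw)).trans ?_
    have h1 := ih (fun l hl => hL l (List.mem_cons_of_mem _ hl))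
      (fun l hl => hdist l (List.mem_cons_of_mem _ hl))
    rw [one_sub_bf hl hw]
    have h2 : 2 * l.im / ‖w - conj l‖ ≤ 2 * l.im / d := by
      have := hdist l List.mem_cons_self
      gcongr
    calc _ ≤ 2 * l.im / d + 2 * mass L / d := by linarith
      _ = _ := by ring

theorem bl_low {L : List ℂ} {w : ℂ} (hL : ∀ l ∈ L, 0 < l.im) (hw : 0 < w.im) :
    1 - N L w ≤ ‖bl L w‖ ^ 2 := by
  induction L with
  | nil => simp [bl, N]
  | cons l L ih =>
    rw [bl_cons, N_cons, norm_mul, mul_pow, norm_bf_sq (hL l List.mem_cons_self) hw.le]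
    have h1 := ih (fun l hl => hL l (List.mem_cons_of_mem _ hl))
    have h2 := K_nonneg hw (hL l List.mem_cons_self)
    have h3 := K_le_one hw (hL l List.mem_cons_self)
    have h4 := norm_bl_le (fun l hl => hL l (List.mem_cons_of_mem _ hl)) hw.le (L := L)
    have h5 : ‖bl L w‖ ^ 2 ≤ 1 := by
      have := norm_nonneg (bl L w)
      nlinarith
    nlinarith [sq_nonneg ‖bl L w‖]

structure Fam (c : ℕ → List ℂ) : Prop where
  pos : ∀ n, ∀ w ∈ c n, 0 < w.im
  norm : ∀ n, ∀ w ∈ c (n + 1), ‖w‖ ≤ 2 * dy n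
  mass : ∀ n, WEP.mass (c n) ≤ 8 * dy n

noncomputable def PF (c : ℕ → List ℂ) (n : ℕ) (w : ℂ) : ℂ := ∏ k ∈ Finset.range n, bl (c k) w

noncomputable def GF (c : ℕ → List ℂ) (w : ℂ) : ℂ := 1 + ∑' n, (PF c (n + 1) w - PF c n w)

theorem norm_PF_le {c : ℕ → List ℂ} (hc : Fam c) (n : ℕ) {w : ℂ} (hw : 0 ≤ w.im) :
    ‖PF c n w‖ ≤ 1 := by
  unfold PF
  rw [norm_prod]
  apply Finset.prod_le_one
  · intro i _; exact norm_nonneg _
  · intro i _; exact norm_bl_le (hc.pos i) hw

theorem norm_PF_real {c : ℕ → List ℂ} (hc : Fam c) (n : ℕ) {w : ℂ} (hw : w.im = 0) :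
    ‖PF c n w‖ = 1 := by
  unfold PF
  rw [norm_prod]
  apply Finset.prod_eq_one
  intro i _; exact norm_bl_real (hc.pos i) hw

theorem PF_succ (c : ℕ → List ℂ) (n : ℕ) (w : ℂ) : PF c (n + 1) w = PF c n w * bl (c n) w := by
  unfold PF
  rw [Finset.prod_range_succ]

theorem PF_diff {c : ℕ → List ℂ} (hc : Fam c) (n : ℕ) {w : ℂ} (hw : 0 ≤ w.im) :
    ‖PF c (n + 1) w - PF c n w‖ ≤ ‖1 - bl (c n) w‖ := by
  rw [PF_succ]
  have : PF c n w * bl (c n) w - PF c n w = -(PF c n w * (1 - bl (c n) w)) := by ring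
  rw [this, norm_neg, norm_mul]
  have h1 := norm_PF_le hc n hw
  have h2 := norm_nonneg (1 - bl (c n) w)
  nlinarith

/-- the region of convergence -/
def Sd (d : ℝ) : Set ℂ := {w | 0 ≤ w.im ∧ d < ‖w‖}

theorem summable_dy : Summable dy := by
  unfold dy
  exact summable_geometric_of_lt_one (by norm_num) (by norm_num)

theorem GF_unif {c : ℕ → List ℂ} (hc : Fam c) {d : ℝ} (hd : 0 < d) :
    TendstoUniformlyOn (fun n w => PF c n w) (GF c) atTop (Sd d) := by
  obtain ⟨n0, hn0⟩ : ∃ n0 : ℕ, ∀ n, n0 ≤ n → 4 * dy n ≤ d := by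
    have hlim : Tendsto (fun n : ℕ => 4 * dy n) atTop (𝓝 (4 * 0)) := by
      apply Tendsto.const_mul
      exact summable_dy.tendsto_atTop_zero
    rw [mul_zero] at hlim
    have h1 := hlim.eventually (ge_mem_nhds hd)
    rw [eventually_atTop] at h1
    exact h1
  set u : ℕ → ℝ := fun n => (if n < n0 + 1 then 2 else 0) + 32 / d * dy n with hu
  have hsum : Summable u := by
    apply Summable.add
    · apply summable_of_finite_support
      apply (Set.finite_Iio (n0 + 1)).subset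
      intro n hn
      simp only [Function.mem_support, ne_eq, ite_eq_right_iff, OfNat.ofNat_ne_zero,
        imp_false, not_not] at hn
      exact hn
    · exact summable_dy.mul_left _
  have hbound : ∀ n w, w ∈ Sd d → ‖PF c (n + 1) w - PF c n w‖ ≤ u n := by
    intro n w hw
    obtain ⟨hw1, hw2⟩ := hw
    have hdy := dy_pos n
    by_cases hn : n < n0 + 1
    · simp only [hu, if_pos hn]
      have h1 := norm_PF_le hc (n + 1) hw1
      have h2 := norm_PF_le hc n hw1
      have h3 := norm_sub_le (PF c (n + 1) w) (PF c n w)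
      have h4 : 0 < 32 / d * dy n := by positivity
      linarith
    · simp only [hu, if_neg hn]
      push Not at hn
      refine (PF_diff hc n hw1).trans ?_
      obtain ⟨k, rfl⟩ : ∃ k, n = k + 1 := ⟨n - 1, by omega⟩
      have hk := hn0 k (by omega)
      have h1 : ∀ l ∈ c (k + 1), d / 2 ≤ ‖w - conj l‖ := by
        intro l hl
        have h2 := hc.norm k l hl
        have h3 : ‖conj l‖ = ‖l‖ := Complex.norm_conj l
        have h4 := norm_sub_norm_le w (conj l)
        rw [h3] at h4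
        linarith
      have h2 := one_sub_bl (hc.pos (k + 1)) hw1 (by positivity : 0 < d / 2) h1
      have h3 := hc.mass (k + 1)
      calc _ ≤ 2 * WEP.mass (c (k + 1)) / (d / 2) := h2
        _ ≤ 2 * (8 * dy (k + 1)) / (d / 2) := by gcongr
        _ = 0 + 32 / d * dy (k + 1) := by field_simp; ring
  have h := tendstoUniformlyOn_tsum_nat hsum hbound
  have hP : ∀ n w, ∑ k ∈ Finset.range n, (PF c (k + 1) w - PF c k w) = PF c n w - 1 := by
    intro n w
    rw [Finset.sum_range_sub (fun k => PF c k w)]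
    simp [PF]
  rw [Metric.tendstoUniformlyOn_iff] at h ⊢
  intro ε hε
  filter_upwards [h ε hε] with n hn w hw
  have := hn w hw
  rw [hP] at this
  unfold GF
  rw [dist_eq_norm] at this ⊢
  have e : (1 + ∑' n, (PF c (n + 1) w - PF c n w)) - PF c n w
      = ∑' n, (PF c (n + 1) w - PF c n w) - (PF c n w - 1) := by ring
  rw [e]
  exact this

theorem GF_tendsto {c : ℕ → List ℂ} (hc : Fam c) {w : ℂ} (hw : 0 ≤ w.im) (hw0 : w ≠ 0) :
    Tendsto (fun n => PF c n w) atTop (𝓝 (GF c w)) := by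
  have hn : 0 < ‖w‖ := norm_pos_iff.2 hw0
  exact (GF_unif hc (d := ‖w‖ / 2) (by positivity)).tendsto_at ⟨hw, by linarith⟩

theorem norm_GF_le {c : ℕ → List ℂ} (hc : Fam c) {w : ℂ} (hw : 0 ≤ w.im) (hw0 : w ≠ 0) :
    ‖GF c w‖ ≤ 1 := by
  have h := (GF_tendsto hc hw hw0).norm
  exact le_of_tendsto' h (fun n => norm_PF_le hc n hw)

theorem norm_GF_real {c : ℕ → List ℂ} (hc : Fam c) {w : ℂ} (hw : w.im = 0) (hw0 : w ≠ 0) :
    ‖GF c w‖ = 1 := by
  have h := (GF_tendsto hc hw.ge hw0).norm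
  simp only [norm_PF_real hc _ hw] at h
  exact (tendsto_nhds_unique h tendsto_const_nhds)

theorem GF_zero {c : ℕ → List ℂ} (hc : Fam c) {n : ℕ} {w : ℂ} (hw : w ∈ c n) : GF c w = 0 := by
  have hpos := hc.pos n w hw
  have hw0 : w ≠ 0 := by
    intro h; rw [h] at hpos; simp at hpos
  have h := GF_tendsto hc hpos.le hw0
  have h2 : Tendsto (fun m => PF c m w) atTop (𝓝 0) := by
    apply tendsto_const_nhds.congr'
    rw [Filter.EventuallyEq, eventually_atTop]
    refine ⟨n + 1, fun m hm => ?_⟩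
    unfold PF
    rw [eq_comm, Finset.prod_eq_zero (Finset.mem_range.2 (by omega : n < m))]
    exact bl_zero hw
  exact tendsto_nhds_unique h h2

theorem bf_continuousOn {l : ℂ} (hl : 0 < l.im) : ContinuousOn (bf l) {w | 0 ≤ w.im} := by
  unfold bf
  apply ContinuousOn.div
  · fun_prop
  · fun_prop
  · intro w hw; exact sub_conj_ne hl hw

theorem bf_differentiableOn {l : ℂ} (hl : 0 < l.im) : DifferentiableOn ℂ (bf l) {w | 0 < w.im} := by
  unfold bf
  apply DifferentiableOn.div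
  · fun_prop
  · fun_prop
  · intro w hw; exact sub_conj_ne hl (le_of_lt hw)

theorem bl_continuousOn {L : List ℂ} (hL : ∀ l ∈ L, 0 < l.im) :
    ContinuousOn (bl L) {w | 0 ≤ w.im} := by
  induction L with
  | nil =>
    have : bl [] = fun _ => 1 := by funext w; simp [bl]
    rw [this]; exact continuousOn_const
  | cons l L ih =>
    have : bl (l :: L) = fun w => bf l w * bl L w := by funext w; exact bl_cons l L w
    rw [this]
    exact (bf_continuousOn (hL l List.mem_cons_self)).mul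
      (ih (fun l hl => hL l (List.mem_cons_of_mem _ hl)))

theorem bl_differentiableOn {L : List ℂ} (hL : ∀ l ∈ L, 0 < l.im) :
    DifferentiableOn ℂ (bl L) {w | 0 < w.im} := by
  induction L with
  | nil =>
    have : bl [] = fun _ => 1 := by funext w; simp [bl]
    rw [this]; exact differentiableOn_const _
  | cons l L ih =>
    have : bl (l :: L) = fun w => bf l w * bl L w := by funext w; exact bl_cons l L w
    rw [this]
    exact (bf_differentiableOn (hL l List.mem_cons_self)).mul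
      (ih (fun l hl => hL l (List.mem_cons_of_mem _ hl)))

theorem PF_continuousOn {c : ℕ → List ℂ} (hc : Fam c) (n : ℕ) :
    ContinuousOn (PF c n) {w | 0 ≤ w.im} := by
  induction n with
  | zero =>
    have : PF c 0 = fun _ => 1 := by funext w; simp [PF]
    rw [this]; exact continuousOn_const
  | succ n ih =>
    have : PF c (n + 1) = fun w => PF c n w * bl (c n) w := by funext w; exact PF_succ c n w
    rw [this]
    exact ih.mul (bl_continuousOn (hc.pos n))

theorem PF_differentiableOn {c : ℕ → List ℂ} (hc : Fam c) (n : ℕ) :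
    DifferentiableOn ℂ (PF c n) {w | 0 < w.im} := by
  induction n with
  | zero =>
    have : PF c 0 = fun _ => 1 := by funext w; simp [PF]
    rw [this]; exact differentiableOn_const _
  | succ n ih =>
    have : PF c (n + 1) = fun w => PF c n w * bl (c n) w := by funext w; exact PF_succ c n w
    rw [this]
    exact ih.mul (bl_differentiableOn (hc.pos n))

theorem GF_continuousWithinAt {c : ℕ → List ℂ} (hc : Fam c) {w : ℂ} (hw : 0 ≤ w.im) (hw0 : w ≠ 0) :
    ContinuousWithinAt (GF c) {w | 0 ≤ w.im} w := by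
  have hn : 0 < ‖w‖ := norm_pos_iff.2 hw0
  have h1 : ContinuousOn (GF c) (Sd (‖w‖ / 2)) :=
    (GF_unif hc (d := ‖w‖ / 2) (by positivity)).continuousOn
      (Eventually.of_forall fun n => (PF_continuousOn hc n).mono (fun w hw => hw.1)).frequently
  have h2 := h1 w ⟨hw, by linarith⟩
  have h3 : {w : ℂ | 0 ≤ w.im} ∩ {v : ℂ | ‖w‖ / 2 < ‖v‖} = Sd (‖w‖ / 2) := by
    ext v; simp [Sd]
  rw [← h3] at h2
  apply (continuousWithinAt_inter _).1 h2
  exact (isOpen_lt continuous_const continuous_norm).mem_nhds (by simp only [Set.mem_setOf_eq]; linarith)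

theorem isOpen_H : IsOpen {w : ℂ | 0 < w.im} := isOpen_lt continuous_const Complex.continuous_im

theorem GF_differentiableOn {c : ℕ → List ℂ} (hc : Fam c) :
    DifferentiableOn ℂ (GF c) {w | 0 < w.im} := by
  intro w hw
  have hwi : 0 < w.im := hw
  have hw0 : w ≠ 0 := by
    intro h; rw [h] at hwi; simp at hwi
  have hn : 0 < ‖w‖ := norm_pos_iff.2 hw0
  set U : Set ℂ := {v | 0 < v.im} ∩ {v | ‖w‖ / 2 < ‖v‖} with hU
  have hUo : IsOpen U := isOpen_H.inter (isOpen_lt continuous_const continuous_norm)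
  have hwU : w ∈ U := ⟨hw, by simp only [Set.mem_setOf_eq]; linarith⟩
  have h1 : TendstoLocallyUniformlyOn (fun n w => PF c n w) (GF c) atTop U :=
    ((GF_unif hc (d := ‖w‖ / 2) (by positivity)).mono
      (fun v hv => ⟨le_of_lt hv.1, hv.2⟩)).tendstoLocallyUniformlyOn
  have h2 : DifferentiableOn ℂ (GF c) U :=
    h1.differentiableOn (Eventually.of_forall fun n => (PF_differentiableOn hc n).mono
      (fun v hv => hv.1)) hUo
  exact ((h2 w hwU).differentiableAt (hUo.mem_nhds hwU)).differentiableWithinAt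

theorem PF_low {c : ℕ → List ℂ} (hc : Fam c) {w : ℂ} (hw : 0 < w.im) (n : ℕ) :
    1 - ∑ k ∈ Finset.range n, N (c k) w ≤ ‖PF c n w‖ ^ 2 := by
  induction n with
  | zero => simp [PF]
  | succ n ih =>
    rw [PF_succ, norm_mul, mul_pow, Finset.sum_range_succ]
    have h1 := bl_low (hc.pos n) hw
    have h2 : ‖PF c n w‖ ^ 2 ≤ 1 := by
      have h3 := norm_PF_le hc n hw.le
      have := norm_nonneg (PF c n w)
      nlinarith
    have h3 : 0 ≤ N (c n) w := N_nonneg hw (hc.pos n)
    by_cases h4 : 1 - N (c n) w ≤ 0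
    · have h5 : 0 ≤ ∑ k ∈ Finset.range n, N (c k) w :=
        Finset.sum_nonneg (fun k _ => N_nonneg hw (hc.pos k))
      have h6 : 0 ≤ ‖PF c n w‖ ^ 2 * ‖bl (c n) w‖ ^ 2 := by positivity
      linarith
    · push Not at h4
      have h5 : ‖PF c n w‖ ^ 2 * (1 - N (c n) w) ≤ ‖PF c n w‖ ^ 2 * ‖bl (c n) w‖ ^ 2 := by
        gcongr
      nlinarith

theorem GF_low {c : ℕ → List ℂ} (hc : Fam c) {w : ℂ} (hw : 0 < w.im) {B : ℝ}
    (hB : ∀ n, ∑ k ∈ Finset.range n, N (c k) w ≤ B) : 1 - B ≤ ‖GF c w‖ ^ 2 := by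
  have hw0 : w ≠ 0 := by
    intro h; rw [h] at hw; simp at hw
  have h := (GF_tendsto hc hw.le hw0).norm.pow 2
  apply ge_of_tendsto' h
  intro n
  have := PF_low hc hw n
  have := hB n
  linarith

end Pool.Agent.H44.WEP
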