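import Mathlib
import Pool.Agent.H44.WEP.Defs
import Pool.Agent.H44.WEP.HP

set_option autoImplicit false

open Filter Topology ComplexConjugate

namespace Pool.Agent.H44.WEP

noncomputable def cay (z : ℂ) : ℂ := Complex.I * (1 + z) / (1 - z)

noncomputable def cinv (w : ℂ) : ℂ := (w - Complex.I) / (w + Complex.I)

theorem one_sub_ne {z : ℂ} (hz : ‖z‖ < 1) : 1 - z ≠ 0 := by
  intro h
  have : z = 1 := (sub_eq_zero.1 h).symm
  rw [this] at hz
  simp at hz

theorem cay_im {z : ℂ} (hz : 1 - z ≠ 0) : (cay z).im = (1 - ‖z‖ ^ 2) / ‖1 - z‖ ^ 2 := by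
  have h1 : cay z = Complex.I * ((1 + z) * conj (1 - z)) / ((‖1 - z‖ ^ 2 : ℝ) : ℂ) := by
    unfold cay
    have h2 : ((‖1 - z‖ ^ 2 : ℝ) : ℂ) = (1 - z) * conj (1 - z) := by
      rw [Complex.mul_conj, Complex.normSq_eq_norm_sq]
    have h3 : conj (1 - z) ≠ 0 := by
      intro h
      apply hz
      rwa [map_eq_zero] at h
    rw [h2]
    field_simp
  rw [h1, Complex.div_ofReal_im]
  congr 1
  have h4 : ‖z‖ ^ 2 = z.re * z.re + z.im * z.im := by
    rw [← Complex.normSq_eq_norm_sq, Complex.normSq_apply]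
  rw [h4]
  simp
  ring

theorem cay_im_pos {z : ℂ} (hz : ‖z‖ < 1) : 0 < (cay z).im := by
  rw [cay_im (one_sub_ne hz)]
  have h1 : 0 < ‖1 - z‖ := norm_pos_iff.2 (one_sub_ne hz)
  have h2 : ‖z‖ ^ 2 < 1 := by
    have := norm_nonneg z
    nlinarith
  have h3 : 0 < 1 - ‖z‖ ^ 2 := by linarith
  positivity

theorem one_sub_conj_mul_ne {z w : ℂ} (hz : ‖z‖ < 1) (hw : ‖w‖ < 1) : 1 - conj w * z ≠ 0 := by
  apply one_sub_ne
  rw [norm_mul, Complex.norm_conj]
  have h1 := norm_nonneg z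
  have h2 := norm_nonneg w
  nlinarith

/-- the basic identity -/
theorem one_sub_rho_sq {z w : ℂ} (hz : ‖z‖ < 1) (hw : ‖w‖ < 1) :
    1 - rho z w ^ 2 = (1 - ‖z‖ ^ 2) * (1 - ‖w‖ ^ 2) / ‖1 - conj w * z‖ ^ 2 := by
  unfold rho
  have h1 := one_sub_conj_mul_ne hz hw
  have h2 : ‖1 - conj w * z‖ ^ 2 ≠ 0 := by
    have := norm_pos_iff.2 h1
    positivity
  rw [norm_div, div_pow]
  rw [eq_div_iff h2, sub_mul, div_mul_cancel₀ _ h2]
  rw [← Complex.normSq_eq_norm_sq, ← Complex.normSq_eq_norm_sq, ← Complex.normSq_eq_norm_sq,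
    ← Complex.normSq_eq_norm_sq]
  simp only [Complex.normSq_apply]
  simp
  ring

theorem K_cay {z w : ℂ} (hz : ‖z‖ < 1) (hw : ‖w‖ < 1) : K (cay z) (cay w) = 1 - rho z w ^ 2 := by
  rw [one_sub_rho_sq hz hw]
  have h1 := one_sub_ne hz
  have h2 := one_sub_ne hw
  have h3 := one_sub_conj_mul_ne hz hw
  have h4 : (cay z) - conj (cay w) = 2 * Complex.I * (1 - conj w * z) / ((1 - z) * (1 - conj w)) := by
    unfold cay
    have h2' : 1 - conj w ≠ 0 := by
      intro h
      apply h2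
      have := congrArg conj h
      simpa using this
    rw [map_div₀, map_mul, map_add, map_sub, map_one, Complex.conj_I]
    field_simp
    ring
  have h5 := normSq_sub_conj (cay w) (cay z)
  unfold K
  rw [← h5, h4, cay_im h1, cay_im h2]
  rw [norm_div, norm_mul, norm_mul, norm_mul, Complex.norm_I, div_pow]
  have h6 : ‖1 - conj w‖ = ‖1 - w‖ := by
    rw [← Complex.norm_conj (1 - w)]; simp
  rw [h6]
  have h7 : 0 < ‖1 - z‖ := norm_pos_iff.2 h1
  have h8 : 0 < ‖1 - w‖ := norm_pos_iff.2 h2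
  have h9 : 0 < ‖1 - conj w * z‖ := norm_pos_iff.2 h3
  have h10 : ‖(2 : ℂ)‖ = 2 := by simp
  rw [h10]
  field_simp
  ring

theorem add_I_ne {w : ℂ} (hw : 0 < w.im) : w + Complex.I ≠ 0 := by
  intro h
  have := congrArg Complex.im h
  simp at this
  linarith

theorem cinv_norm {w : ℂ} (hw : 0 < w.im) : ‖cinv w‖ < 1 := by
  unfold cinv
  have h1 := norm_pos_iff.2 (add_I_ne hw)
  rw [norm_div, div_lt_one h1]
  have h2 := normSq_sub Complex.I w
  have h3 := normSq_sub_conj Complex.I w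
  rw [Complex.conj_I, sub_neg_eq_add] at h3
  rw [Complex.I_im, Complex.I_re] at h2 h3
  have h4 : ‖w - Complex.I‖ ^ 2 < ‖w + Complex.I‖ ^ 2 := by
    rw [h2, h3]; nlinarith
  exact lt_of_pow_lt_pow_left₀ 2 h1.le h4

theorem cay_cinv {w : ℂ} (hw : 0 < w.im) : cay (cinv w) = w := by
  unfold cay cinv
  have h1 := add_I_ne hw
  have h2 : 1 - (w - Complex.I) / (w + Complex.I) = 2 * Complex.I / (w + Complex.I) := by
    field_simp; ring
  rw [h2]
  have h3 := Complex.I_ne_zero
  field_simp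
  ring

theorem cinv_cay {z : ℂ} (hz : ‖z‖ < 1) : cinv (cay z) = z := by
  unfold cay cinv
  have h1 := one_sub_ne hz
  have h2 : Complex.I * (1 + z) / (1 - z) + Complex.I = 2 * Complex.I / (1 - z) := by
    field_simp; ring
  have h3 : Complex.I * (1 + z) / (1 - z) - Complex.I = 2 * Complex.I * z / (1 - z) := by
    field_simp; ring
  rw [h2, h3]
  have h4 := Complex.I_ne_zero
  field_simp

theorem K_eq_rho {z w : ℂ} (hz : 0 < z.im) (hw : 0 < w.im) :
    K z w = 1 - rho (cinv z) (cinv w) ^ 2 := by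
  have := K_cay (cinv_norm hz) (cinv_norm hw)
  rwa [cay_cinv hz, cay_cinv hw] at this

theorem rho_nonneg (z w : ℂ) : 0 ≤ rho z w := norm_nonneg _

/-- the Blaschke product on the disc -/
noncomputable def TH (c : ℕ → List ℂ) (z : ℂ) : ℂ := GF c (cay z)

theorem cay_differentiableOn : DifferentiableOn ℂ cay (Metric.ball 0 1) := by
  unfold cay
  apply DifferentiableOn.div
  · fun_prop
  · fun_prop
  · intro z hz; exact one_sub_ne (mem_ball_zero_iff.1 hz)

theorem TH_hInf {c : ℕ → List ℂ} (hc : Fam c) : HInf (TH c) := by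
  constructor
  · apply (GF_differentiableOn hc).comp cay_differentiableOn
    intro z hz
    exact cay_im_pos (mem_ball_zero_iff.1 hz)
  · refine ⟨1, fun z hz => ?_⟩
    have h := cay_im_pos (mem_ball_zero_iff.1 hz)
    apply norm_GF_le hc h.le
    intro h0; rw [h0] at h; simp at h

theorem TH_norm_le {c : ℕ → List ℂ} (hc : Fam c) {z : ℂ} (hz : ‖z‖ < 1) : ‖TH c z‖ ≤ 1 := by
  have h := cay_im_pos hz
  apply norm_GF_le hc h.le
  intro h0; rw [h0] at h; simp at h

theorem TH_inner {c : ℕ → List ℂ} (hc : Fam c) : IsInner (TH c) := by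
  refine ⟨TH_hInf hc, ?_⟩
  have hcount : (Set.range (fun n : ℤ => (n : ℝ) * Real.pi)).Countable := Set.countable_range _
  filter_upwards [hcount.ae_notMem MeasureTheory.volume] with θ hθ
  set ζ := Complex.exp (θ * Complex.I) with hζ
  have hζn : ‖ζ‖ = 1 := Complex.norm_exp_ofReal_mul_I θ
  have hζ2 : ζ ^ 2 ≠ 1 := by
    intro h
    rw [hζ, ← Complex.exp_nat_mul, Complex.exp_eq_one_iff] at h
    obtain ⟨n, hn⟩ := h
    apply hθ
    refine ⟨n, ?_⟩
    have h1 := congrArg Complex.im hn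
    simp at h1
    simp only
    linarith
  have hζ1 : 1 - ζ ≠ 0 := by
    intro h
    apply hζ2
    rw [← sub_eq_zero.1 h]; norm_num
  have hζm : 1 + ζ ≠ 0 := by
    intro h
    apply hζ2
    have : ζ = -1 := by linear_combination h
    rw [this]; norm_num
  have him : (cay ζ).im = 0 := by
    rw [cay_im hζ1, hζn]; simp
  have hne : cay ζ ≠ 0 := by
    unfold cay
    exact div_ne_zero (mul_ne_zero Complex.I_ne_zero hζm) hζ1
  refine ⟨GF c (cay ζ), norm_GF_real hc him hne, ?_⟩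
  have hcont := GF_continuousWithinAt hc him.ge hne
  have h1 : Tendsto (fun r : ℝ => cay (r * ζ)) (𝓝[<] 1) (𝓝[{w | 0 ≤ w.im}] (cay ζ)) := by
    rw [tendsto_nhdsWithin_iff]
    constructor
    · have h2 : ContinuousAt (fun r : ℝ => cay (r * ζ)) 1 := by
        unfold cay
        apply ContinuousAt.div
        · fun_prop
        · fun_prop
        · simpa using hζ1
      have h3 := h2.tendsto
      simp only [Complex.ofReal_one, one_mul] at h3
      exact h3.mono_left nhdsWithin_le_nhds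
    · have h4 : ∀ᶠ r : ℝ in 𝓝[<] 1, r ∈ Set.Ioo (0 : ℝ) 1 := Ioo_mem_nhdsLT (by norm_num)
      filter_upwards [h4] with r hr
      apply le_of_lt
      apply cay_im_pos
      rw [norm_mul, hζn, mul_one, Complex.norm_real, Real.norm_eq_abs, abs_of_pos hr.1]
      exact hr.2
  exact hcont.tendsto.comp h1

end Pool.Agent.H44.WEP
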