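import Mathlib
import Pool.Agent.H44.WEP.ObjA

set_option autoImplicit false

namespace Pool.Agent.H44.WEP

/-- lattice of spacing `2^{-m}` in `[-1/2,1/2]` at height `h` -/
noncomputable def slat (m : ℕ) (h : ℝ) : List ℂ := lat (-(1 / 2)) (dy m) h (2 ^ m + 1)

theorem mem_slat {m : ℕ} {h : ℝ} {w : ℂ} :
    w ∈ slat m h ↔ ∃ k : ℕ, k ≤ 2 ^ m ∧ w = ⟨-(1 / 2) + k * dy m, h⟩ := by
  unfold slat
  rw [mem_lat]
  constructor
  · rintro ⟨k, hk, rfl⟩; exact ⟨k, by omega, rfl⟩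
  · rintro ⟨k, hk, rfl⟩; exact ⟨k, by omega, rfl⟩

theorem slat_re_bound {m k : ℕ} (hk : k ≤ 2 ^ m) : |-(1 / 2) + (k : ℝ) * dy m| ≤ 1 / 2 := by
  have h1 : (k : ℝ) ≤ 2 ^ m := by exact_mod_cast hk
  have h2 := dy_mul_pow m
  have h3 := dy_pos m
  have h4 : (k : ℝ) * dy m ≤ 1 := by nlinarith
  have h5 : 0 ≤ (k : ℝ) * dy m := by positivity
  rw [abs_le]; constructor <;> linarith

theorem slat_ext {m : ℕ} {h : ℝ} {w : ℂ} (hw : w ∈ slat m h) : w.im = h ∧ |w.re| ≤ 1 / 2 := by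
  obtain ⟨k, hk, rfl⟩ := mem_slat.1 hw
  exact ⟨rfl, slat_re_bound hk⟩

theorem mass_slat (m : ℕ) (h : ℝ) : mass (slat m h) = (2 ^ m + 1) * h := by
  unfold slat
  rw [mass_lat]
  push_cast
  ring

theorem exists_close (x : ℝ) (m : ℕ) :
    ∃ k : ℕ, k ≤ 2 ^ m ∧ |x - (-(1 / 2) + (k : ℝ) * dy m)| ≤ max (|x| - 1 / 2) 0 + dy m := by
  have h3 := dy_pos m
  have h2 := dy_mul_pow m
  have hm0 : 0 ≤ max (|x| - 1 / 2) 0 := le_max_right _ _
  have hm1 : |x| - 1 / 2 ≤ max (|x| - 1 / 2) 0 := le_max_left _ _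
  rcases le_or_gt x (-(1 / 2)) with hx | hx
  · refine ⟨0, Nat.zero_le _, ?_⟩
    rw [Nat.cast_zero, zero_mul, add_zero, abs_of_nonpos (by linarith)]
    rw [abs_of_nonpos (by linarith : x ≤ 0)] at hm1 hm0 ⊢
    linarith
  rcases le_or_gt (1 / 2) x with hx' | hx'
  · refine ⟨2 ^ m, le_rfl, ?_⟩
    rw [Nat.cast_pow, Nat.cast_ofNat, mul_comm, h2, abs_of_nonneg (by linarith)]
    rw [abs_of_nonneg (by linarith : 0 ≤ x)] at hm1 hm0 ⊢
    linarith
  · refine ⟨⌊(x + 1 / 2) / dy m⌋₊, ?_, ?_⟩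
    · have h1 : (x + 1 / 2) / dy m ≤ ((2 ^ m : ℕ) : ℝ) := by
        rw [div_le_iff₀ h3]
        push_cast
        nlinarith
      calc ⌊(x + 1 / 2) / dy m⌋₊ ≤ ⌊((2 ^ m : ℕ) : ℝ)⌋₊ := Nat.floor_le_floor h1
        _ = 2 ^ m := Nat.floor_natCast _
    · have h4 : 0 ≤ (x + 1 / 2) / dy m := div_nonneg (by linarith) h3.le
      have h5 := Nat.floor_le h4
      have h6 := Nat.lt_floor_add_one ((x + 1 / 2) / dy m)
      rw [le_div_iff₀ h3] at h5
      rw [div_lt_iff₀ h3] at h6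
      rw [abs_le]
      constructor <;> linarith

/-- bound for one lattice level -/
theorem slat_nearest {z : ℂ} (hz : 0 < z.im) (m : ℕ) {h : ℝ} (hh : 0 < h) :
    ∃ x' : ℝ, (⟨x', h⟩ : ℂ) ∈ slat m h ∧ |x'| ≤ 1 / 2 ∧
      |z.re - x'| ≤ max (|z.re| - 1 / 2) 0 + dy m ∧
      N (slat m h) z ≤ K z ⟨x', h⟩ + 128 * z.im * h / (dy m * (|z.re - x'| + z.im + h)) := by
  obtain ⟨k0, hk0, hmin⟩ := exists_nearest z.re (-(1 / 2)) (dy m) (T := 2 ^ m + 1) (Nat.succ_pos _)
  obtain ⟨k, hk, hclose⟩ := exists_close z.re m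
  refine ⟨-(1 / 2) + k0 * dy m, mem_slat.2 ⟨k0, by omega, rfl⟩, slat_re_bound (by omega),
    (hmin k (by omega)).trans hclose, ?_⟩
  exact lat_bound hz (dy_pos m) hh hk0 hmin

theorem sum_two_pow (n : ℕ) : ∑ m ∈ Finset.range n, (2 : ℝ) ^ m = 2 ^ n - 1 := by
  induction n with
  | zero => simp
  | succ n ih => rw [Finset.sum_range_succ, ih, pow_succ]; ring

theorem geom_up (c t n : ℕ) :
    ∑ m ∈ Finset.range n, (if t ≤ m + c then (3 / 4 : ℝ) ^ (m + c - t) else 0)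
      ≤ 4 - 4 * (3 / 4) ^ (n + c - t) := by
  induction n with
  | zero =>
    simp only [Finset.range_zero, Finset.sum_empty]
    have : (3 / 4 : ℝ) ^ (0 + c - t) ≤ 1 := pow_le_one₀ (by norm_num) (by norm_num)
    linarith
  | succ n ih =>
    rw [Finset.sum_range_succ]
    split_ifs with h
    · have e : n + 1 + c - t = (n + c - t) + 1 := by omega
      rw [e, pow_succ]
      linarith
    · have e : n + 1 + c - t = 0 := by omega
      have e' : n + c - t = 0 := by omega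
      rw [e'] at ih
      rw [e]
      linarith

theorem geom_down (c t n : ℕ) :
    ∑ m ∈ Finset.range n, (if m + c < t then (3 / 4 : ℝ) ^ (t - (m + c)) else 0)
      ≤ 3 * (3 / 4) ^ (t - (n + c)) := by
  induction n with
  | zero => simp only [Finset.range_zero, Finset.sum_empty]; positivity
  | succ n ih =>
    rw [Finset.sum_range_succ]
    split_ifs with h
    · have e : t - (n + c) = (t - (n + 1 + c)) + 1 := by omega
      rw [e, pow_succ] at ih ⊢
      linarith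
    · have e : t - (n + 1 + c) = 0 := by omega
      have e' : t - (n + c) = 0 := by omega
      rw [e'] at ih
      rw [e]
      linarith

theorem pow_half_le (n : ℕ) : (1 / 2 : ℝ) ^ n ≤ ((3 / 4 : ℝ) ^ n) ^ 2 := by
  rw [← pow_mul, mul_comm n 2, pow_mul]
  gcongr
  norm_num

/-- sum of the nearest-point terms -/
theorem sum_kap {y μ : ℝ} (hy : 0 < y) (hy1 : y < 1) (hμ : 0 < μ) (c n : ℕ) (f : ℕ → ℝ)
    (hf1 : ∀ m < n, f m ≤ μ ^ 4)
    (hf2 : ∀ m < n, f m ≤ 8 * y * dy (m + c) / (y + dy (m + c)) ^ 2) :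
    ∑ m ∈ Finset.range n, f m ≤ 28 * μ ^ 2 := by
  obtain ⟨t, ht1, ht2⟩ := exists_level hy hy1.le
  have hkey : ∀ m ∈ Finset.range n, f m ≤ 4 * μ ^ 2 *
      ((if t ≤ m + c then (3 / 4 : ℝ) ^ (m + c - t) else 0)
        + (if m + c < t then (3 / 4 : ℝ) ^ (t - (m + c)) else 0)) := by
    intro m hm
    rw [Finset.mem_range] at hm
    have h1 := hf1 m hm
    have h2 := hf2 m hm
    set h := dy (m + c) with hh
    have hpos : 0 < h := dy_pos _
    -- general min estimate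
    have hmin : ∀ u : ℝ, 0 ≤ u → f m ≤ u ^ 2 → f m ≤ μ ^ 2 * u := by
      intro u hu hfu
      rcases le_total (μ ^ 2) u with h3 | h3
      · calc f m ≤ μ ^ 2 * μ ^ 2 := by rw [← pow_add]; exact h1
          _ ≤ μ ^ 2 * u := by gcongr
      · calc f m ≤ u * u := by rw [← sq]; exact hfu
          _ ≤ μ ^ 2 * u := by gcongr
    by_cases hc : t ≤ m + c
    · rw [if_pos hc, if_neg (by omega), add_zero]
      have h3 : h = dy t * (1 / 2) ^ (m + c - t) := by
        rw [hh, show m + c = t + (m + c - t) by omega, dy_add]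
        congr 1
        unfold dy
        congr 1
        omega
      have h4 : 8 * y * h / (y + h) ^ 2 ≤ 16 * (1 / 2) ^ (m + c - t) := by
        rw [div_le_iff₀ (by positivity)]
        have h5 : h ≤ 2 * y * (1 / 2) ^ (m + c - t) := by
          rw [h3]; gcongr
        have h6 : y ^ 2 ≤ (y + h) ^ 2 := by gcongr; linarith
        have h7 : (0 : ℝ) < (1 / 2) ^ (m + c - t) := by positivity
        calc 8 * y * h ≤ 8 * y * (2 * y * (1 / 2) ^ (m + c - t)) := by gcongr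
          _ = 16 * (1 / 2) ^ (m + c - t) * y ^ 2 := by ring
          _ ≤ 16 * (1 / 2) ^ (m + c - t) * (y + h) ^ 2 := by gcongr
      have h8 := hmin (4 * (3 / 4) ^ (m + c - t)) (by positivity) (by
        have := pow_half_le (m + c - t)
        calc f m ≤ 16 * (1 / 2) ^ (m + c - t) := h2.trans h4
          _ ≤ 16 * ((3 / 4) ^ (m + c - t)) ^ 2 := by gcongr
          _ = (4 * (3 / 4) ^ (m + c - t)) ^ 2 := by ring)
      linarith
    · push Not at hc
      rw [if_neg (by omega), if_pos hc, zero_add]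
      have h3 : dy t = h * (1 / 2) ^ (t - (m + c)) := by
        rw [hh]
        conv_lhs => rw [show t = (m + c) + (t - (m + c)) by omega, dy_add]
        rfl
      have h4 : 8 * y * h / (y + h) ^ 2 ≤ 16 * (1 / 2) ^ (t - (m + c)) := by
        rw [div_le_iff₀ (by positivity)]
        have h5 : y ≤ h * (1 / 2) ^ (t - (m + c)) := by
          rw [← h3]; exact ht1
        have h6 : h ^ 2 ≤ (y + h) ^ 2 := by gcongr; linarith
        calc 8 * y * h ≤ 8 * (h * (1 / 2) ^ (t - (m + c))) * h := by gcongr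
          _ ≤ 16 * (1 / 2) ^ (t - (m + c)) * h ^ 2 := by
            have : 0 ≤ (1 / 2 : ℝ) ^ (t - (m + c)) * h ^ 2 := by positivity
            linarith
          _ ≤ 16 * (1 / 2) ^ (t - (m + c)) * (y + h) ^ 2 := by gcongr
      have h8 := hmin (4 * (3 / 4) ^ (t - (m + c))) (by positivity) (by
        have := pow_half_le (t - (m + c))
        calc f m ≤ 16 * (1 / 2) ^ (t - (m + c)) := h2.trans h4
          _ ≤ 16 * ((3 / 4) ^ (t - (m + c))) ^ 2 := by gcongr
          _ = (4 * (3 / 4) ^ (t - (m + c))) ^ 2 := by ring)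
      linarith
  refine (Finset.sum_le_sum hkey).trans ?_
  rw [← Finset.mul_sum, Finset.sum_add_distrib]
  have h1 := geom_up c t n
  have h2 := geom_down c t n
  have h3 : (0 : ℝ) ≤ (3 / 4) ^ (n + c - t) := by positivity
  have h4 : (3 / 4 : ℝ) ^ (t - (n + c)) ≤ 1 := pow_le_one₀ (by norm_num) (by norm_num)
  have h5 : 0 ≤ 4 * μ ^ 2 := by positivity
  calc 4 * μ ^ 2 * _ ≤ 4 * μ ^ 2 * 7 := by
        apply mul_le_mul_of_nonneg_left _ h5
        linarith
    _ = 28 * μ ^ 2 := by ring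

end Pool.Agent.H44.WEP
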