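import Mathlib
import Pool.Agent.H44.WEP.Slat

set_option autoImplicit false

namespace Pool.Agent.H44.WEP

/-- copies of `L` of scale `h` at the points `-1/2 + k 2^{-m}` -/
noncomputable def copies (m : ℕ) (h : ℝ) (L : List ℂ) : List ℂ :=
  (List.range (2 ^ m + 1)).flatMap (fun k : ℕ => L.map (aff (-(1 / 2) + k * dy m) h))

noncomputable def sparse (e : ℕ) : List ℂ :=
  (List.range (2 ^ (3 * e))).flatMap (fun m => slat m (dy (m + 4 * e)))

noncomputable def stage (e : ℕ) (L : List ℂ) : List ℂ :=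
  Complex.I :: (sparse e ++ copies (3 * e + 2 ^ (3 * e)) (dy (4 * e + 2 ^ (3 * e))) L)

def Ext (L : List ℂ) : Prop := ∀ w ∈ L, 0 < w.im ∧ w.im ≤ 1 ∧ |w.re| ≤ 3 / 4

def PP (L : List ℂ) : Prop :=
  ∀ μ : ℝ, 0 < μ → μ ≤ 1 / 2 → ∀ z : ℂ, 0 < z.im → (∀ w ∈ L, K z w ≤ μ ^ 4) →
    N L z + 1000 * K z Complex.I ≤ 10 ^ 6 * μ

structure Good (L : List ℂ) : Prop where
  I_mem : Complex.I ∈ L
  ext : Ext L
  mass_le : mass L ≤ 8
  bound : PP L

theorem good_objA (a : ℕ) : Good (objA a) := by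
  refine ⟨I_mem_objA a, fun w hw => objA_ext hw, mass_objA a, ?_⟩
  intro μ hμ hμ1 z hz hfar
  have h4 : μ ^ 4 ≤ μ := by
    calc μ ^ 4 = μ * μ ^ 3 := by ring
      _ ≤ μ * 1 := by gcongr; exact pow_le_one₀ hμ.le (by linarith)
      _ = μ := mul_one _
  have h5 : μ ^ 4 < 2 / 5 := by
    calc μ ^ 4 ≤ (1 / 2) ^ 4 := by gcongr
      _ < 2 / 5 := by norm_num
  have h1 := objA_bound a hz h5 hfar
  have h2 := hfar _ (I_mem_objA a)
  linarith

theorem aff_I (x h : ℝ) : aff x h Complex.I = ⟨x, h⟩ := by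
  apply Complex.ext
  · simp [aff]
  · simp [aff]

theorem far_copy {L : List ℂ} (hext : Ext L) (hmass : mass L ≤ 8) {z : ℂ} (hz : 0 < z.im)
    {x0 h : ℝ} (hh : 0 < h) (hfar : h ≤ |z.re - x0| ∨ h ≤ z.im) :
    N (L.map (aff x0 h)) z ≤ 640 * K z ⟨x0, h⟩ := by
  rw [N_map_aff hh]
  have hz' : 0 < (un x0 h z).im := by rw [un_im]; positivity
  have h1 := N_far (L := L) hz' hext (by
    rw [un_re, un_im]
    rcases hfar with h1 | h1
    · left
      rw [abs_div, abs_of_pos hh, le_div_iff₀ hh, one_mul]; exact h1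
    · right
      rw [le_div_iff₀ hh, one_mul]; exact h1)
  rw [← K_aff hh, aff_I] at h1
  have h2 : 0 ≤ K z ⟨x0, h⟩ := K_nonneg hz hh
  calc _ ≤ 80 * mass L * K z ⟨x0, h⟩ := h1
    _ ≤ 80 * 8 * K z ⟨x0, h⟩ := by gcongr
    _ = _ := by ring

theorem N_copies (m : ℕ) (h : ℝ) (L : List ℂ) (z : ℂ) :
    N (copies m h L) z
      = ∑ k ∈ Finset.range (2 ^ m + 1), N (L.map (aff (-(1 / 2) + k * dy m) h)) z := by
  unfold copies
  rw [N_flatMap, sum_map_range]

theorem N_sparse (e : ℕ) (z : ℂ) :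
    N (sparse e) z = ∑ m ∈ Finset.range (2 ^ (3 * e)), N (slat m (dy (m + 4 * e))) z := by
  unfold sparse
  rw [N_flatMap, sum_map_range]

theorem N_stage (e : ℕ) (L : List ℂ) (z : ℂ) : N (stage e L) z = K z Complex.I +
    (N (sparse e) z + N (copies (3 * e + 2 ^ (3 * e)) (dy (4 * e + 2 ^ (3 * e))) L) z) := by
  unfold stage
  rw [N_cons, N_append]

theorem mem_copies {m : ℕ} {h : ℝ} {L : List ℂ} {w : ℂ} :
    w ∈ copies m h L ↔ ∃ k : ℕ, k ≤ 2 ^ m ∧ ∃ v ∈ L, aff (-(1 / 2) + k * dy m) h v = w := by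
  unfold copies
  rw [List.mem_flatMap]
  constructor
  · rintro ⟨k, hk, hw⟩
    rw [List.mem_range] at hk
    rw [List.mem_map] at hw
    exact ⟨k, by omega, hw⟩
  · rintro ⟨k, hk, hw⟩
    refine ⟨k, ?_, ?_⟩
    · rw [List.mem_range]; omega
    · rw [List.mem_map]; exact hw

theorem mem_sparse {e : ℕ} {w : ℂ} :
    w ∈ sparse e ↔ ∃ m : ℕ, m < 2 ^ (3 * e) ∧ w ∈ slat m (dy (m + 4 * e)) := by
  unfold sparse
  rw [List.mem_flatMap]
  simp only [List.mem_range]

/-- constants -/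
theorem dy_four (e : ℕ) : dy (4 * e) = dy e ^ 4 := by
  unfold dy; rw [← pow_mul, mul_comm]

theorem dy_three (e : ℕ) : dy (3 * e) = dy e ^ 3 := by
  unfold dy; rw [← pow_mul, mul_comm]

theorem Hcast (e : ℕ) : ((2 ^ (3 * e) : ℕ) : ℝ) * dy e ^ 3 = 1 := by
  push_cast
  rw [← dy_three, mul_comm]
  exact dy_mul_pow _

theorem dy_e_le {e : ℕ} (he : 8 ≤ e) : dy e ≤ 1 / 256 := by
  calc dy e ≤ dy 8 := dy_anti he
    _ = 1 / 256 := by unfold dy; norm_num

theorem mass_copies (m : ℕ) (h : ℝ) (L : List ℂ) : mass (copies m h L) = (2 ^ m + 1) * (h * mass L) := by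
  unfold copies
  rw [mass_flatMap, sum_map_range]
  simp only [mass_map_aff]
  rw [Finset.sum_const, Finset.card_range, nsmul_eq_mul]
  push_cast
  ring

theorem mass_sparse_le {e : ℕ} (he : 8 ≤ e) : mass (sparse e) ≤ 1 := by
  unfold sparse
  rw [mass_flatMap, sum_map_range]
  have h1 : ∀ m ∈ Finset.range (2 ^ (3 * e)), mass (slat m (dy (m + 4 * e))) ≤ 2 * dy e ^ 4 := by
    intro m _
    rw [mass_slat, dy_add, dy_four]
    have h2 := dy_mul_pow m
    have h3 := dy_le_one m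
    have h4 : 0 < dy e ^ 4 := pow_pos (dy_pos e) 4
    calc (2 ^ m + 1) * (dy m * dy e ^ 4) = (dy m * 2 ^ m + dy m) * dy e ^ 4 := by ring
      _ ≤ (1 + 1) * dy e ^ 4 := by rw [h2]; gcongr
      _ = _ := by ring
  refine (Finset.sum_le_sum h1).trans ?_
  rw [Finset.sum_const, Finset.card_range, nsmul_eq_mul]
  have h5 := Hcast e
  have h6 := dy_e_le he
  calc ((2 ^ (3 * e) : ℕ) : ℝ) * (2 * dy e ^ 4)
      = (((2 ^ (3 * e) : ℕ) : ℝ) * dy e ^ 3) * (2 * dy e) := by ring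
    _ ≤ 1 := by rw [h5]; linarith

theorem mass_stage_le {e : ℕ} (he : 8 ≤ e) {L : List ℂ} (hm : mass L ≤ 8) (hm0 : 0 ≤ mass L) :
    mass (stage e L) ≤ 8 := by
  unfold stage
  rw [mass_cons, mass_append, mass_copies]
  have h1 := mass_sparse_le he
  have h2 : dy (4 * e + 2 ^ (3 * e)) = dy (3 * e + 2 ^ (3 * e)) * dy e := by
    rw [← dy_add]; congr 1; ring
  set M := 3 * e + 2 ^ (3 * e) with hM
  have h3 := dy_mul_pow M
  have h4 := dy_le_one M
  have h5 := dy_e_le he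
  have h6 := dy_pos e
  rw [h2]
  have h7 : (2 ^ M + 1) * (dy M * dy e * mass L) ≤ 1 := by
    calc (2 ^ M + 1) * (dy M * dy e * mass L) = (dy M * 2 ^ M + dy M) * (dy e * mass L) := by ring
      _ ≤ (1 + 1) * (1 / 256 * 8) := by rw [h3]; gcongr
      _ ≤ 1 := by norm_num
  simp only [Complex.I_im]
  linarith

theorem ext_stage {e : ℕ} (he : 8 ≤ e) {L : List ℂ} (hext : Ext L) : Ext (stage e L) := by
  intro w hw
  unfold stage at hw
  rw [List.mem_cons, List.mem_append] at hw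
  rcases hw with rfl | hw | hw
  · norm_num
  · obtain ⟨m, hm, hw⟩ := mem_sparse.1 hw
    obtain ⟨h1, h2⟩ := slat_ext hw
    rw [h1]
    exact ⟨dy_pos _, dy_le_one _, by linarith⟩
  · obtain ⟨k, hk, v, hv, rfl⟩ := mem_copies.1 hw
    obtain ⟨h1, h2, h3⟩ := hext v hv
    rw [aff_re, aff_im]
    have h4 := slat_re_bound hk
    have h5 := dy_pos (4 * e + 2 ^ (3 * e))
    have h6 : dy (4 * e + 2 ^ (3 * e)) ≤ 1 / 256 := by
      exact (dy_anti (le_trans (by omega : e ≤ 4 * e) (Nat.le_add_right _ _))).trans (dy_e_le he)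
    set hb := dy (4 * e + 2 ^ (3 * e)) with hhb
    refine ⟨by positivity, ?_, ?_⟩
    · calc hb * v.im ≤ 1 * 1 := by gcongr; linarith
        _ = 1 := by norm_num
    · calc |(-(1 / 2) + (k : ℝ) * dy (3 * e + 2 ^ (3 * e))) + hb * v.re|
          ≤ |(-(1 / 2) + (k : ℝ) * dy (3 * e + 2 ^ (3 * e)))| + |hb * v.re| := abs_add_le _ _
        _ ≤ 1 / 2 + 1 / 256 * (3 / 4) := by
            rw [abs_mul, abs_of_pos h5]
            gcongr
        _ ≤ 3 / 4 := by norm_num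

/-- sparse part, when `z` is deep -/
theorem sparse_deep {e : ℕ} (he : 8 ≤ e) {z : ℂ} (hz : 0 < z.im) :
    N (sparse e) z ≤ 5 * z.im / dy (4 * e + 2 ^ (3 * e)) := by
  rw [N_sparse]
  have hε := dy_pos e
  have hε1 := dy_e_le he
  have hε4 : 128 * dy e ^ 4 ≤ 1 := by
    calc 128 * dy e ^ 4 ≤ 128 * (1 / 256) ^ 4 := by gcongr
      _ ≤ 1 := by norm_num
  have h1 : ∀ m ∈ Finset.range (2 ^ (3 * e)), N (slat m (dy (m + 4 * e))) z
      ≤ 5 * z.im / dy e ^ 4 * 2 ^ m := by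
    intro m _
    obtain ⟨x', -, -, -, hb⟩ := slat_nearest hz m (dy_pos (m + 4 * e))
    have hm := dy_pos m
    set h := dy (m + 4 * e) with hh
    have hpos : 0 < h := dy_pos _
    have hheq : h = dy m * dy e ^ 4 := by rw [hh, dy_add, dy_four]
    have h2 : K z ⟨x', h⟩ ≤ 4 * z.im / h := by
      unfold K
      simp only
      rw [div_le_div_iff₀ (by positivity) hpos]
      have h3 : h ^ 2 ≤ (z.re - x') ^ 2 + (z.im + h) ^ 2 := by nlinarith [sq_nonneg (z.re - x')]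
      have h4 : 0 ≤ 4 * z.im := by positivity
      nlinarith
    have h3 : 128 * z.im * h / (dy m * (|z.re - x'| + z.im + h)) ≤ 128 * z.im / dy m := by
      have h0 : 0 ≤ |z.re - x'| := abs_nonneg _
      rw [div_le_div_iff₀ (by positivity) hm]
      have h5 : h ≤ |z.re - x'| + z.im + h := by linarith
      calc 128 * z.im * h * dy m ≤ 128 * z.im * (|z.re - x'| + z.im + h) * dy m := by gcongr
        _ = _ := by ring
    have h4 : 128 * z.im / dy m ≤ z.im / h := by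
      rw [hheq, div_le_div_iff₀ hm (by positivity)]
      have : 0 ≤ z.im * dy m := by positivity
      nlinarith
    have h5 : 5 * z.im / dy e ^ 4 * 2 ^ m = 5 * z.im / h := by
      rw [hheq]
      have := dy_mul_pow m
      field_simp
      rw [mul_comm, this]
    rw [h5]
    calc _ ≤ 4 * z.im / h + z.im / h := by linarith
      _ = _ := by ring
  refine (Finset.sum_le_sum h1).trans ?_
  rw [← Finset.mul_sum, sum_two_pow, dy_add, dy_four]
  have h6 := dy_mul_pow (2 ^ (3 * e))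
  have h7 := dy_pos (2 ^ (3 * e))
  have h8 : 5 * z.im / (dy e ^ 4 * dy (2 ^ (3 * e))) = 5 * z.im / dy e ^ 4 * 2 ^ (2 ^ (3 * e)) := by
    field_simp
    exact h6.symm
  rw [h8]
  have h9 : 0 ≤ 5 * z.im / dy e ^ 4 := by positivity
  apply mul_le_mul_of_nonneg_left _ h9
  linarith

/-- sparse part, general -/
theorem sparse_gen {e : ℕ} {z : ℂ} (hz : 0 < z.im) (hz1 : z.im < 1)
    {μ : ℝ} (hμ : 0 < μ) (hfar : ∀ w ∈ sparse e, K z w ≤ μ ^ 4) :
    N (sparse e) z ≤ 28 * μ ^ 2 + ∑ m ∈ Finset.range (2 ^ (3 * e)),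
      128 * z.im * dy e ^ 4 / (max (|z.re| - 1 / 2) 0 + z.im + dy (m + 4 * e)) := by
  rw [N_sparse]
  choose x' hx1 hx2 hx3 hx4 using fun m : ℕ => slat_nearest hz m (dy_pos (m + 4 * e))
  have h1 : ∑ m ∈ Finset.range (2 ^ (3 * e)), K z ⟨x' m, dy (m + 4 * e)⟩ ≤ 28 * μ ^ 2 := by
    apply sum_kap hz hz1 hμ (4 * e) (2 ^ (3 * e))
    · intro m hm
      exact hfar _ (mem_sparse.2 ⟨m, hm, hx1 m⟩)
    · intro m _
      have hpos := dy_pos (m + 4 * e)
      refine (K_le_c hz hpos).trans ?_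
      have h0 : 0 ≤ |z.re - x' m| := abs_nonneg _
      gcongr
      linarith
  have h2 : ∀ m ∈ Finset.range (2 ^ (3 * e)), N (slat m (dy (m + 4 * e))) z
      ≤ K z ⟨x' m, dy (m + 4 * e)⟩ +
        128 * z.im * dy e ^ 4 / (max (|z.re| - 1 / 2) 0 + z.im + dy (m + 4 * e)) := by
    intro m _
    refine (hx4 m).trans ?_
    have hpos := dy_pos (m + 4 * e)
    have hm := dy_pos m
    have hmax : 0 ≤ max (|z.re| - 1 / 2) 0 := le_max_right _ _
    have hs : max (|z.re| - 1 / 2) 0 ≤ |z.re - x' m| := by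
      apply max_le
      · have h5 : |z.re| ≤ |z.re - x' m| + |x' m| := by
          calc |z.re| = |(z.re - x' m) + x' m| := by ring_nf
            _ ≤ _ := abs_add_le _ _
        linarith [hx2 m]
      · exact abs_nonneg _
    have h6 : 128 * z.im * dy (m + 4 * e) / (dy m * (|z.re - x' m| + z.im + dy (m + 4 * e)))
        = 128 * z.im * dy e ^ 4 / (|z.re - x' m| + z.im + dy (m + 4 * e)) := by
      have h7 : dy (m + 4 * e) = dy m * dy e ^ 4 := by rw [dy_add, dy_four]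
      have h8 : 0 < |z.re - x' m| + z.im + dy (m + 4 * e) := by positivity
      rw [div_eq_div_iff (by positivity) (by positivity)]
      rw [show 128 * z.im * dy (m + 4 * e) = 128 * z.im * (dy m * dy e ^ 4) by rw [h7]]
      ring
    rw [h6]
    have hε := dy_pos e
    gcongr
  refine (Finset.sum_le_sum h2).trans ?_
  rw [Finset.sum_add_distrib]
  linarith

end Pool.Agent.H44.WEP
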