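import Mathlib
import Pool.Agent.H44.WEP.Stage

set_option autoImplicit false

namespace Pool.Agent.H44.WEP

theorem pow4_le {μ : ℝ} (hμ : 0 < μ) (hμ1 : μ ≤ 1 / 2) : μ ^ 4 ≤ μ / 8 := by
  calc μ ^ 4 = μ * μ ^ 3 := by ring
    _ ≤ μ * (1 / 2) ^ 3 := by gcongr
    _ = μ / 8 := by ring

/-- case 1: `z` is in the box of one copy -/
theorem stage_case1 {e : ℕ} (he : 8 ≤ e) {L : List ℂ} (hL : Good L) {μ : ℝ} (hμ : 0 < μ)
    (hμ1 : μ ≤ 1 / 2) {z : ℂ} (hz : 0 < z.im) (hfar : ∀ w ∈ stage e L, K z w ≤ μ ^ 4)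
    {k1 : ℕ} (hk1 : k1 ≤ 2 ^ (3 * e + 2 ^ (3 * e)))
    (hx : |z.re - (-(1 / 2) + (k1 : ℝ) * dy (3 * e + 2 ^ (3 * e)))|
      < dy (4 * e + 2 ^ (3 * e)))
    (hy : z.im < dy (4 * e + 2 ^ (3 * e))) :
    N (stage e L) z + 1000 * K z Complex.I ≤ 10 ^ 6 * μ := by
  rw [N_stage]
  have hsp := sparse_deep he hz
  set M := 3 * e + 2 ^ (3 * e) with hM
  set hb := dy (4 * e + 2 ^ (3 * e)) with hhb
  have hbpos : 0 < hb := dy_pos _
  set sb := dy M with hsb
  have hsbpos : 0 < sb := dy_pos _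
  have hrel : hb = sb * dy e := by
    rw [hhb, hsb, ← dy_add]; congr 1; rw [hM]; ring
  have hε := dy_pos e
  have hε1 := dy_e_le he
  have hb1 : hb ≤ 1 / 256 := by
    exact (dy_anti (le_trans (by omega : e ≤ 4 * e) (Nat.le_add_right _ _))).trans hε1
  have hsb2 : 256 * hb ≤ sb := by
    rw [hrel]
    nlinarith
  have hmin : ∀ k : ℕ, k < 2 ^ M + 1 → |z.re - (-(1 / 2) + (k1 : ℝ) * sb)| ≤ |z.re - (-(1 / 2) + (k : ℝ) * sb)| := by
    intro k _
    by_cases hkk : k = k1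
    · rw [hkk]
    · have h1 : sb ≤ |((k : ℝ) - k1) * sb| := by
        rw [abs_mul, abs_of_pos hsbpos]
        have h2 : (1 : ℝ) ≤ |(k : ℝ) - k1| := by
          have h3 : (1 : ℤ) ≤ |(k : ℤ) - k1| := by
            apply Int.one_le_abs
            intro h
            apply hkk
            omega
          exact_mod_cast h3
        nlinarith
      have h2 : ((k : ℝ) - k1) * sb = (z.re - (-(1 / 2) + (k1 : ℝ) * sb)) - (z.re - (-(1 / 2) + (k : ℝ) * sb)) := by
        ring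
      rw [h2] at h1
      have h3 := abs_sub (z.re - (-(1 / 2) + (k1 : ℝ) * sb)) (z.re - (-(1 / 2) + (k : ℝ) * sb))
      linarith
  -- the copies
  have hcop : N (copies M hb L) z ≤ N (L.map (aff (-(1 / 2) + k1 * sb) hb)) z + 320 * z.im / hb := by
    rw [N_copies, ← Finset.add_sum_erase _ _ (Finset.mem_range.2 (by omega : k1 < 2 ^ M + 1))]
    have h1 : ∀ k : ℕ, k ∈ (Finset.range (2 ^ M + 1)).erase k1 →
        N (L.map (aff (-(1 / 2) + k * sb) hb)) z ≤ 640 * K z ⟨-(1 / 2) + k * sb, hb⟩ := by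
      intro k hk
      rw [Finset.mem_erase, Finset.mem_range] at hk
      apply far_copy hL.ext hL.mass_le hz hbpos
      left
      have h1 : sb ≤ |((k : ℝ) - k1) * sb| := by
        rw [abs_mul, abs_of_pos hsbpos]
        have h2 : (1 : ℝ) ≤ |(k : ℝ) - k1| := by
          have h3 : (1 : ℤ) ≤ |(k : ℤ) - k1| := by
            apply Int.one_le_abs
            intro h
            apply hk.1
            omega
          exact_mod_cast h3
        nlinarith
      have h2 : ((k : ℝ) - k1) * sb = (z.re - (-(1 / 2) + (k1 : ℝ) * sb)) - (z.re - (-(1 / 2) + (k : ℝ) * sb)) := by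
        ring
      rw [h2] at h1
      have h3 := abs_sub (z.re - (-(1 / 2) + (k1 : ℝ) * sb)) (z.re - (-(1 / 2) + (k : ℝ) * sb))
      linarith
    have h2 := Finset.sum_le_sum h1
    rw [← Finset.mul_sum] at h2
    have h3 := lat_tail hz hsbpos hbpos (by omega : k1 < 2 ^ M + 1) hmin
    have h4 : 640 * (128 * z.im * hb / (sb * (|z.re - (-(1 / 2) + k1 * sb)| + z.im + hb)))
        ≤ 320 * z.im / hb := by
      have h0 : 0 ≤ |z.re - (-(1 / 2) + k1 * sb)| := abs_nonneg _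
      rw [← mul_div_assoc, div_le_div_iff₀ (by positivity) hbpos]
      have h5 : 256 * hb * hb ≤ sb * (|z.re - (-(1 / 2) + k1 * sb)| + z.im + hb) := by
        apply mul_le_mul hsb2 _ hbpos.le hsbpos.le
        linarith
      calc 640 * (128 * z.im * hb) * hb = 320 * z.im * (256 * hb * hb) := by ring
        _ ≤ 320 * z.im * (sb * (|z.re - (-(1 / 2) + k1 * sb)| + z.im + hb)) := by gcongr
    linarith
  -- slack at the top
  have htop : 4 / 5 * z.im / hb ≤ K z ⟨-(1 / 2) + k1 * sb, hb⟩ := by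
    unfold K
    simp only
    rw [div_le_div_iff₀ hbpos (by positivity)]
    have h1 : (z.re - (-(1 / 2) + k1 * sb)) ^ 2 ≤ hb ^ 2 := by
      rw [← sq_abs]; gcongr
    have h2 : (z.im + hb) ^ 2 ≤ (hb + hb) ^ 2 := by gcongr
    have h3 : 0 ≤ 4 / 5 * z.im := by positivity
    calc 4 / 5 * z.im * ((z.re - (-(1 / 2) + k1 * sb)) ^ 2 + (z.im + hb) ^ 2)
        ≤ 4 / 5 * z.im * (hb ^ 2 + (hb + hb) ^ 2) := by gcongr
      _ = 4 * z.im * hb * hb := by ring
  -- the copy itself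
  have hcopy : N (L.map (aff (-(1 / 2) + k1 * sb) hb)) z + 1000 * K z ⟨-(1 / 2) + k1 * sb, hb⟩
      ≤ 10 ^ 6 * μ := by
    rw [N_map_aff hbpos, ← aff_I, K_aff hbpos]
    apply hL.bound μ hμ hμ1
    · rw [un_im]; positivity
    · intro w hw
      rw [← K_aff hbpos]
      apply hfar
      unfold stage
      rw [List.mem_cons, List.mem_append]
      right; right
      exact mem_copies.2 ⟨k1, hk1, w, hw, rfl⟩
  -- K z I
  have hKI : K z Complex.I ≤ 4 * z.im := by
    unfold K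
    simp only [Complex.I_re, Complex.I_im, mul_one]
    apply div_le_self (by positivity)
    nlinarith [sq_nonneg (z.re - 0)]
  have hyb : z.im ≤ 1 / 256 * (z.im / hb) := by
    have h1 : z.im = hb * (z.im / hb) := by field_simp
    have h2 : 0 ≤ z.im / hb := by positivity
    calc z.im = hb * (z.im / hb) := h1
      _ ≤ 1 / 256 * (z.im / hb) := by gcongr
  have e1 : 5 * z.im / hb = 5 * (z.im / hb) := by ring
  have e2 : 320 * z.im / hb = 320 * (z.im / hb) := by ring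
  have e3 : 4 / 5 * z.im / hb = 4 / 5 * (z.im / hb) := by ring
  rw [e1] at hsp
  rw [e2] at hcop
  rw [e3] at htop
  linarith

/-- lower bound for the nearest sparse point -/
theorem exists_sparse_low {e : ℕ} (he : 8 ≤ e) {z : ℂ} (hz : 0 < z.im) {b : ℝ}
    (hb : b = max (|z.re| - 1 / 2) 0 + z.im) (hb2 : b < 2) (hb3 : 2 * dy (2 ^ (3 * e)) < b) :
    ∃ w ∈ sparse e, 49 / 100 * (z.im / b) * dy e ^ 4 ≤ K z w := by
  have hbpos : 0 < b := by
    have := dy_pos (2 ^ (3 * e)); linarith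
  obtain ⟨m, hm1, hm2⟩ := exists_level (τ := b / 2) (by linarith) (by linarith)
  have hmH : m < 2 ^ (3 * e) := by
    by_contra hcon
    push Not at hcon
    have := dy_anti hcon
    linarith
  obtain ⟨k, hk, hclose⟩ := exists_close z.re m
  refine ⟨⟨-(1 / 2) + k * dy m, dy (m + 4 * e)⟩,
    mem_sparse.2 ⟨m, hmH, mem_slat.2 ⟨k, hk, rfl⟩⟩, ?_⟩
  refine le_trans ?_ (K_ge_c hz (dy_pos _))
  rw [dy_add, dy_four]
  have hε := dy_pos e
  have hε1 := dy_e_le he
  set ε := dy e with hεdef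
  set c := dy m with hc
  have hcpos : 0 < c := dy_pos m
  set Δ := |z.re - (-(1 / 2) + k * c)| with hΔ
  have hΔ0 : 0 ≤ Δ := abs_nonneg _
  have hε4 : ε ^ 4 ≤ 1 / 1000 := by
    calc ε ^ 4 ≤ (1 / 256) ^ 4 := by gcongr
      _ ≤ 1 / 1000 := by norm_num
  have hε4pos : 0 < ε ^ 4 := by positivity
  have hD : Δ + z.im + c * ε ^ 4 ≤ 201 / 100 * b := by
    have h1 : c * ε ^ 4 ≤ b * (1 / 1000) := by
      have : c ≤ b := by linarith
      gcongr
    linarith
  have h2 : 4 * z.im * (b / 2 * ε ^ 4) / (201 / 100 * b) ^ 2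
      ≤ 4 * z.im * (c * ε ^ 4) / (Δ + z.im + c * ε ^ 4) ^ 2 := by
    gcongr
  refine le_trans ?_ h2
  rw [le_div_iff₀ (by positivity)]
  have h3 : 49 / 100 * (z.im / b) * ε ^ 4 * (201 / 100 * b) ^ 2
      = (49 / 100 * (201 / 100) ^ 2) * (z.im * b * ε ^ 4) := by
    field_simp
  rw [h3]
  have h4 : 0 ≤ z.im * b * ε ^ 4 := by positivity
  calc (49 / 100 * (201 / 100) ^ 2) * (z.im * b * ε ^ 4) ≤ 2 * (z.im * b * ε ^ 4) := by
        gcongr; norm_num
    _ = 4 * z.im * (b / 2 * ε ^ 4) := by ring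

/-- from the lower bound on `κ` -/
theorem eps_r_le {ε μ r κ : ℝ} (hε : 0 < ε) (hμ : 0 < μ) (hr : 0 ≤ r) (hr1 : r ≤ 1)
    (hκ : κ ≤ μ ^ 4) (h : 49 / 100 * r * ε ^ 4 ≤ κ) : ε * r ≤ 3 * μ := by
  rcases le_total ε μ with h1 | h1
  · calc ε * r ≤ μ * 1 := by gcongr
      _ ≤ 3 * μ := by linarith
  · have h2 : r * ε ^ 4 ≤ 3 * μ ^ 4 := by
      have : 0 ≤ r * ε ^ 4 := by positivity
      have h3 : 0 ≤ μ ^ 4 := by positivity
      linarith
    have h3 : ε * r * ε ^ 3 ≤ 3 * μ * ε ^ 3 := by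
      calc ε * r * ε ^ 3 = r * ε ^ 4 := by ring
        _ ≤ 3 * μ ^ 4 := h2
        _ = 3 * μ * μ ^ 3 := by ring
        _ ≤ 3 * μ * ε ^ 3 := by gcongr
    exact le_of_mul_le_mul_right h3 (by positivity)

/-- case 2: `z` is outside the boxes of all copies -/
theorem stage_case2 {e : ℕ} (he : 8 ≤ e) {L : List ℂ} (hL : Good L) {μ : ℝ} (hμ : 0 < μ)
    (hμ1 : μ ≤ 1 / 2) {z : ℂ} (hz : 0 < z.im) (hfar : ∀ w ∈ stage e L, K z w ≤ μ ^ 4)
    (hx1 : |z.re| < 1) (hy1 : z.im < 1)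
    (hout : ∀ k : ℕ, k ≤ 2 ^ (3 * e + 2 ^ (3 * e)) →
      dy (4 * e + 2 ^ (3 * e)) ≤ |z.re - (-(1 / 2) + (k : ℝ) * dy (3 * e + 2 ^ (3 * e)))| ∨
        dy (4 * e + 2 ^ (3 * e)) ≤ z.im) :
    N (stage e L) z + 1000 * K z Complex.I ≤ 10 ^ 6 * μ := by
  rw [N_stage]
  have hfar1 : ∀ w ∈ sparse e, K z w ≤ μ ^ 4 := by
    intro w hw
    apply hfar
    unfold stage
    rw [List.mem_cons, List.mem_append]
    exact Or.inr (Or.inl hw)
  have hfar2 : ∀ w ∈ copies (3 * e + 2 ^ (3 * e)) (dy (4 * e + 2 ^ (3 * e))) L, K z w ≤ μ ^ 4 := by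
    intro w hw
    apply hfar
    unfold stage
    rw [List.mem_cons, List.mem_append]
    exact Or.inr (Or.inr hw)
  have hfarI : K z Complex.I ≤ μ ^ 4 := by
    apply hfar
    unfold stage
    exact List.mem_cons_self
  have hsp := sparse_gen hz hy1 hμ hfar1
  have hdyH := dy_pos (2 ^ (3 * e))
  have hpow := dy_mul_pow (2 ^ (3 * e))
  have hHc := Hcast e
  have hrelH : dy (4 * e + 2 ^ (3 * e)) = dy e ^ 4 * dy (2 ^ (3 * e)) := by
    rw [dy_add, dy_four]
  have hrelH3 : dy (3 * e + 2 ^ (3 * e)) = dy e ^ 3 * dy (2 ^ (3 * e)) := by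
    rw [dy_add, dy_three]
  have hlow := exists_sparse_low he hz (b := max (|z.re| - 1 / 2) 0 + z.im) rfl
  set M := 3 * e + 2 ^ (3 * e) with hM
  set hb := dy (4 * e + 2 ^ (3 * e)) with hhb
  have hbpos : 0 < hb := dy_pos _
  set sb := dy M with hsb
  have hsbpos : 0 < sb := dy_pos _
  have hrel : hb = sb * dy e := by
    rw [hrelH, hrelH3]; ring
  have hε := dy_pos e
  have hε1 := dy_e_le he
  set ε := dy e with hεdef
  set s := max (|z.re| - 1 / 2) 0 with hs
  have hs0 : 0 ≤ s := le_max_right _ _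
  have hs1 : s ≤ 1 / 2 := max_le (by linarith) (by norm_num)
  set b := s + z.im with hbdef
  have hbp : 0 < b := by positivity
  -- copies
  have hcop : N (copies M hb L) z ≤ 640 * N (slat M hb) z := by
    rw [N_copies]
    unfold slat
    rw [N_lat, Finset.mul_sum]
    apply Finset.sum_le_sum
    intro k hk
    rw [Finset.mem_range] at hk
    exact far_copy hL.ext hL.mass_le hz hbpos (hout k (by omega))
  obtain ⟨x', hx'mem, hx'half, hx'close, hx'b⟩ := slat_nearest hz M hbpos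
  rw [← hs] at hx'close
  rw [← hsb] at hx'close hx'b
  -- top of copies
  have htopfar : K z ⟨x', hb⟩ ≤ μ ^ 4 := by
    obtain ⟨k, hk, hkeq⟩ := mem_slat.1 hx'mem
    apply hfar2
    refine mem_copies.2 ⟨k, hk, Complex.I, hL.I_mem, ?_⟩
    rw [aff_I, hkeq]
  set Δ := |z.re - x'| with hΔ
  have hΔ0 : 0 ≤ Δ := abs_nonneg _
  have hsΔ : s ≤ Δ := by
    apply max_le
    · have h5 : |z.re| ≤ |z.re - x'| + |x'| := by
        calc |z.re| = |(z.re - x') + x'| := by ring_nf
          _ ≤ _ := abs_add_le _ _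
      linarith
    · exact abs_nonneg _
  have hμ4 := pow4_le hμ hμ1
  have hμ2 : μ ^ 2 ≤ μ / 2 := by
    calc μ ^ 2 = μ * μ := by ring
      _ ≤ μ * (1 / 2) := by gcongr
      _ = μ / 2 := by ring
  have hHcast2 : (((2 ^ (3 * e) : ℕ) : ℝ)) * ε ^ 4 = ε := by
    calc (((2 ^ (3 * e) : ℕ) : ℝ)) * ε ^ 4 = (((2 ^ (3 * e) : ℕ) : ℝ) * ε ^ 3) * ε := by ring
      _ = ε := by rw [hHc, one_mul]
  rcases le_or_gt sb b with hzone | hzone
  · -- zone I
    set r := z.im / b with hr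
    have hr0 : 0 ≤ r := by positivity
    have hr1 : r ≤ 1 := by
      rw [hr, div_le_one hbp, hbdef]; linarith
    have hεr : ε * r ≤ 3 * μ := by
      rcases lt_or_ge (2 * dy (2 ^ (3 * e))) b with hb3 | hb3
      · obtain ⟨w, hw, hKw⟩ := hlow (by linarith) hb3
        exact eps_r_le hε hμ hr0 hr1 (hfar1 w hw) hKw
      · apply eps_r_le hε hμ hr0 hr1 htopfar
        refine le_trans ?_ (K_ge_c hz hbpos)
        rw [← hΔ]
        have hD : Δ + z.im + hb ≤ 201 / 100 * b := by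
          have h1 : hb ≤ 1 / 256 * b := by
            rw [hrel]
            calc sb * ε ≤ b * (1 / 256) := by gcongr
              _ = _ := by ring
          linarith
        have h2 : 4 * z.im * hb / (201 / 100 * b) ^ 2 ≤ 4 * z.im * hb / (Δ + z.im + hb) ^ 2 := by
          gcongr
        refine le_trans ?_ h2
        rw [le_div_iff₀ (by positivity), hrelH]
        have h3 : 49 / 100 * r * ε ^ 4 * (201 / 100 * b) ^ 2
            = (49 / 100 * (201 / 100) ^ 2) * (z.im * b * ε ^ 4) := by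
          rw [hr]; field_simp
        rw [h3]
        have h4 : 0 ≤ z.im * b * ε ^ 4 := by positivity
        calc (49 / 100 * (201 / 100) ^ 2) * (z.im * b * ε ^ 4) ≤ 2 * (z.im * b * ε ^ 4) := by
              gcongr; norm_num
          _ ≤ 2 * (z.im * (2 * dy (2 ^ (3 * e))) * ε ^ 4) := by gcongr
          _ = 4 * z.im * (ε ^ 4 * dy (2 ^ (3 * e))) := by ring
    have h1 : ∑ m ∈ Finset.range (2 ^ (3 * e)), 128 * z.im * ε ^ 4 / (s + z.im + dy (m + 4 * e))
        ≤ 128 * (ε * r) := by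
      have h2 : ∀ m ∈ Finset.range (2 ^ (3 * e)), 128 * z.im * ε ^ 4 / (s + z.im + dy (m + 4 * e))
          ≤ 128 * ε ^ 4 * r := by
        intro m _
        have hm := dy_pos (m + 4 * e)
        calc 128 * z.im * ε ^ 4 / (s + z.im + dy (m + 4 * e)) ≤ 128 * z.im * ε ^ 4 / b := by
              gcongr
              linarith
          _ = 128 * ε ^ 4 * r := by rw [hr]; ring
      refine (Finset.sum_le_sum h2).trans ?_
      rw [Finset.sum_const, Finset.card_range, nsmul_eq_mul]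
      apply le_of_eq
      calc (((2 ^ (3 * e) : ℕ) : ℝ)) * (128 * ε ^ 4 * r)
          = 128 * ((((2 ^ (3 * e) : ℕ) : ℝ)) * ε ^ 4 * r) := by ring
        _ = _ := by rw [hHcast2]
    have h2 : 128 * z.im * hb / (sb * (Δ + z.im + hb)) ≤ 128 * (ε * r) := by
      rw [hrel]
      calc 128 * z.im * (sb * ε) / (sb * (Δ + z.im + sb * ε))
          ≤ 128 * z.im * (sb * ε) / (sb * b) := by
            gcongr
            have : 0 < sb * ε := by positivity
            linarith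
        _ = 128 * (ε * r) := by rw [hr]; field_simp
    linarith
  · -- zone II
    have hD : Δ + z.im + hb ≤ 3 * sb := by
      have h1 : hb ≤ sb := by
        rw [hrel]
        nlinarith
      linarith
    have hD0 : 0 < Δ + z.im + hb := by positivity
    have hK := (K_ge_c hz (x' := x') hbpos).trans htopfar
    rw [← hΔ, div_le_iff₀ (by positivity)] at hK
    have hμ40 : 0 < μ ^ 4 := by positivity
    have h2 : 128 * z.im * hb / (sb * (Δ + z.im + hb)) ≤ 96 * μ ^ 4 := by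
      rw [div_le_iff₀ (by positivity)]
      calc 128 * z.im * hb = 32 * (4 * z.im * hb) := by ring
        _ ≤ 32 * (μ ^ 4 * (Δ + z.im + hb) ^ 2) := by gcongr
        _ = 32 * μ ^ 4 * (Δ + z.im + hb) * (Δ + z.im + hb) := by ring
        _ ≤ 32 * μ ^ 4 * (Δ + z.im + hb) * (3 * sb) := by gcongr
        _ = 96 * μ ^ 4 * (sb * (Δ + z.im + hb)) := by ring
    have h1 : ∑ m ∈ Finset.range (2 ^ (3 * e)), 128 * z.im * ε ^ 4 / (s + z.im + dy (m + 4 * e))
        ≤ μ ^ 4 := by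
      have h3 : ∀ m ∈ Finset.range (2 ^ (3 * e)), 128 * z.im * ε ^ 4 / (s + z.im + dy (m + 4 * e))
          ≤ 128 * z.im * 2 ^ m := by
        intro m _
        have hm := dy_pos m
        have hm2 : dy (m + 4 * e) = dy m * ε ^ 4 := by rw [dy_add, dy_four]
        rw [hm2]
        have hε4 : 0 < ε ^ 4 := by positivity
        calc 128 * z.im * ε ^ 4 / (s + z.im + dy m * ε ^ 4)
            ≤ 128 * z.im * ε ^ 4 / (dy m * ε ^ 4) := by
              gcongr
              linarith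
          _ = 128 * z.im * 2 ^ m := by
              have := dy_mul_pow m
              rw [div_eq_iff (by positivity)]
              calc 128 * z.im * ε ^ 4 = 128 * z.im * ε ^ 4 * (dy m * 2 ^ m) := by rw [this, mul_one]
                _ = _ := by ring
      refine (Finset.sum_le_sum h3).trans ?_
      rw [← Finset.mul_sum, sum_two_pow]
      -- y * 2^H ≤ (9/4) μ^4 ε^2
      have h4 : 4 * z.im * hb ≤ μ ^ 4 * (3 * sb) ^ 2 := by
        refine hK.trans ?_
        gcongr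
      have h5 : z.im * 2 ^ (2 ^ (3 * e)) ≤ 9 / 4 * μ ^ 4 * ε ^ 2 := by
        rw [hrelH, hrelH3] at h4
        set d := dy (2 ^ (3 * e)) with hd
        have h6 : 4 * z.im * (ε ^ 4 * d) = (4 * (z.im * 2 ^ (2 ^ (3 * e)))) * (ε ^ 4 * d ^ 2) := by
          calc 4 * z.im * (ε ^ 4 * d) = 4 * z.im * (ε ^ 4 * d) * (d * 2 ^ (2 ^ (3 * e))) := by
                rw [hpow, mul_one]
            _ = _ := by ring
        have h7 : μ ^ 4 * (3 * (ε ^ 3 * d)) ^ 2 = (9 * μ ^ 4 * ε ^ 2) * (ε ^ 4 * d ^ 2) := by ring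
        rw [h6, h7] at h4
        have h8 := le_of_mul_le_mul_right h4 (by positivity)
        linarith
      have h6 : 128 * z.im * (2 ^ (2 ^ (3 * e)) - 1) ≤ 128 * (z.im * 2 ^ (2 ^ (3 * e))) := by
        linarith
      refine h6.trans ?_
      calc 128 * (z.im * 2 ^ (2 ^ (3 * e))) ≤ 128 * (9 / 4 * μ ^ 4 * ε ^ 2) := by gcongr
        _ ≤ 128 * (9 / 4 * μ ^ 4 * (1 / 256) ^ 2) := by gcongr
        _ ≤ μ ^ 4 := by linarith
    linarith

theorem good_stage {e : ℕ} (he : 8 ≤ e) {L : List ℂ} (hL : Good L) : Good (stage e L) := by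
  have hI : Complex.I ∈ stage e L := by unfold stage; exact List.mem_cons_self
  have hmass0 : 0 ≤ mass L := by
    unfold mass
    apply List.sum_nonneg
    intro x hx
    rw [List.mem_map] at hx
    obtain ⟨w, hw, rfl⟩ := hx
    exact (hL.ext w hw).1.le
  have hext := ext_stage he hL.ext
  have hmass := mass_stage_le he hL.mass_le hmass0
  refine ⟨hI, hext, hmass, ?_⟩
  intro μ hμ hμ1 z hz hfar
  by_cases hbox : 1 ≤ |z.re| ∨ 1 ≤ z.im
  · have h1 := N_far (L := stage e L) hz hext hbox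
    have h2 := hfar _ hI
    have h3 : 0 ≤ K z Complex.I := K_nonneg hz (by norm_num)
    have h4 : 80 * mass (stage e L) * K z Complex.I ≤ 80 * 8 * K z Complex.I := by gcongr
    have h5 := pow4_le hμ hμ1
    linarith
  push Not at hbox
  by_cases hin : ∃ k : ℕ, k ≤ 2 ^ (3 * e + 2 ^ (3 * e)) ∧
      |z.re - (-(1 / 2) + (k : ℝ) * dy (3 * e + 2 ^ (3 * e)))| < dy (4 * e + 2 ^ (3 * e)) ∧
        z.im < dy (4 * e + 2 ^ (3 * e))
  · obtain ⟨k, hk, h1, h2⟩ := hin
    exact stage_case1 he hL hμ hμ1 hz hfar hk h1 h2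
  · push Not at hin
    apply stage_case2 he hL hμ hμ1 hz hfar hbox.1 hbox.2
    intro k hk
    by_cases h : |z.re - (-(1 / 2) + (k : ℝ) * dy (3 * e + 2 ^ (3 * e)))| < dy (4 * e + 2 ^ (3 * e))
    · exact Or.inr (hin k hk h)
    · exact Or.inl (not_lt.1 h)

end Pool.Agent.H44.WEP
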