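import Mathlib
import Pool.Agent.H44.WEP.Stage2

set_option autoImplicit false

namespace Pool.Agent.H44.WEP

/-- abstract data: zeros `Z` and modulus `v` of a bounded function, with lower bound `η` -/
structure Sys (Z : Set ℂ) (v : ℂ → ℝ) (η : ℝ → ℝ) : Prop where
  pos : ∀ φ ∈ Z, 0 < φ.im
  v0 : ∀ z, 0 ≤ v z
  low : ∀ κ, 0 < κ → κ < 1 → ∀ z : ℂ, 0 < z.im → (∀ φ ∈ Z, K z φ ≤ κ) → η κ ≤ v z
  up : ∀ F : Finset ℂ, (∀ φ ∈ F, φ ∈ Z) → ∀ z : ℂ, 0 < z.im →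
    v z ^ 2 ≤ Real.exp (-∑ φ ∈ F, K z φ)

theorem aff_inj {x h : ℝ} (hh : 0 < h) : Function.Injective (aff x h) := by
  intro a b hab
  have := congrArg (un x h) hab
  rwa [un_aff hh, un_aff hh] at this

theorem K_aff_aff {x h : ℝ} (hh : 0 < h) (z w : ℂ) : K (aff x h z) (aff x h w) = K z w := by
  rw [K_aff hh, un_aff hh]

theorem Sys.aff {Z : Set ℂ} {v : ℂ → ℝ} {η : ℝ → ℝ} (S : Sys Z v η) {x h : ℝ} (hh : 0 < h) :
    Sys {w | WEP.aff x h w ∈ Z} (fun w => v (WEP.aff x h w)) η := by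
  refine ⟨?_, fun z => S.v0 _, ?_, ?_⟩
  · intro φ hφ
    have := S.pos _ hφ
    rw [aff_im] at this
    exact (pos_iff_pos_of_mul_pos this).1 hh
  · intro κ h0 h1 z hz hfar
    apply S.low κ h0 h1
    · rw [aff_im]; positivity
    · intro φ hφ
      rw [← aff_un (x := x) hh φ, K_aff_aff hh]
      apply hfar
      simpa [aff_un hh] using hφ
  · intro F hF z hz
    have h1 := S.up (F.image (WEP.aff x h)) (by
      intro φ hφ
      rw [Finset.mem_image] at hφ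
      obtain ⟨ψ, hψ, rfl⟩ := hφ
      exact hF ψ hψ) (WEP.aff x h z) (by rw [aff_im]; positivity)
    rw [Finset.sum_image (fun a _ b _ hab => aff_inj hh hab)] at h1
    simp only [K_aff_aff hh] at h1
    exact h1

def Forced (η : ℝ → ℝ) (L : List ℂ) (G : ℝ) : Prop :=
  ∀ (Z : Set ℂ) (v : ℂ → ℝ), Sys Z v η → (∀ w ∈ L, w ∈ Z) →
    ∃ F : Finset ℂ, (∀ φ ∈ F, φ ∈ Z) ∧ (∀ φ ∈ F, |φ.re| ≤ 1 ∧ φ.im ≤ 2) ∧ G ≤ ∑ φ ∈ F, φ.im

/-- closeness -/
theorem close_of_K {x y t : ℝ} (hy : 0 < y) (ht : 0 < t) (ht1 : t ≤ 1 / 3) {φ : ℂ}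
    (hφ : 0 < φ.im) (h : 1 - t ^ 2 < K ⟨x, y⟩ φ) :
    y / 2 < φ.im ∧ φ.im < 2 * y ∧ |x - φ.re| < 3 * t * y := by
  unfold K at h
  simp only at h
  rw [lt_div_iff₀ (by positivity)] at h
  have ht2 : t ^ 2 ≤ 1 / 9 := by
    calc t ^ 2 ≤ (1 / 3) ^ 2 := by gcongr
      _ = 1 / 9 := by norm_num
  have h1 : 8 / 9 * ((x - φ.re) ^ 2 + (y + φ.im) ^ 2) < 4 * y * φ.im := by
    refine lt_of_le_of_lt ?_ h
    have : 0 ≤ (x - φ.re) ^ 2 + (y + φ.im) ^ 2 := by positivity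
    nlinarith
  have h2 : (φ.im - y / 2) * (φ.im - 2 * y) < 0 := by
    nlinarith [sq_nonneg (x - φ.re)]
  have hA : y / 2 < φ.im := by
    by_contra hcon
    push Not at hcon
    nlinarith
  have hB : φ.im < 2 * y := by
    by_contra hcon
    push Not at hcon
    nlinarith
  refine ⟨hA, hB, ?_⟩
  have h3 : (x - φ.re) ^ 2 < (3 * t * y) ^ 2 := by
    -- (1 - t^2)((x-u)^2 + (y-v)^2 + 4 y v) < 4 y v
    have h4 : (1 - t ^ 2) * ((x - φ.re) ^ 2 + (y - φ.im) ^ 2) < 4 * y * φ.im * t ^ 2 := by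
      nlinarith
    have h5 : (1 - t ^ 2) * (x - φ.re) ^ 2 ≤ (1 - t ^ 2) * ((x - φ.re) ^ 2 + (y - φ.im) ^ 2) := by
      apply mul_le_mul_of_nonneg_left _ (by linarith)
      nlinarith [sq_nonneg (y - φ.im)]
    have h6 : 8 / 9 * (x - φ.re) ^ 2 ≤ (1 - t ^ 2) * (x - φ.re) ^ 2 := by
      apply mul_le_mul_of_nonneg_right _ (sq_nonneg _)
      linarith
    have h7 : 4 * y * φ.im * t ^ 2 ≤ 4 * y * (2 * y) * t ^ 2 := by gcongr
    have h8 : 8 / 9 * (x - φ.re) ^ 2 < 8 * y ^ 2 * t ^ 2 := by linarith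
    nlinarith
  have h9 : 0 < 3 * t * y := by positivity
  rw [← sq_abs] at h3
  exact lt_of_pow_lt_pow_left₀ 2 h9.le h3

/-- the net lemma -/
theorem net {Z : Set ℂ} (hpos : ∀ φ ∈ Z, 0 < φ.im) {t X : ℝ} (ht : 0 < t) (ht1 : t ≤ 1 / 3)
    (J : Finset ℕ) (g : ℕ → ℝ) (n : ℕ → ℕ) (hg : ∀ j ∈ J, 6 * t * dy (2 * j) ≤ g j)
    (hn : ∀ j ∈ J, (n j : ℝ) * g j ≤ X)
    (hex : ∀ j ∈ J, ∀ x : ℝ, 0 ≤ x → x ≤ X → ∃ φ ∈ Z, 1 - t ^ 2 < K ⟨x, dy (2 * j)⟩ φ) :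
    ∃ F : Finset ℂ, (∀ φ ∈ F, φ ∈ Z) ∧
      (∀ φ ∈ F, ∃ j ∈ J, φ.im < 2 * dy (2 * j) ∧ -dy (2 * j) ≤ φ.re ∧ φ.re ≤ X + dy (2 * j)) ∧
      ∑ j ∈ J, (n j : ℝ) * dy (2 * j) / 2 ≤ ∑ φ ∈ F, φ.im := by
  classical
  -- choose the zeros
  have hgp : ∀ j ∈ J, 0 < g j := fun j hj => by
    have h1 := hg j hj
    have h2 := dy_pos (2 * j)
    have : 0 < 6 * t * dy (2 * j) := by positivity
    linarith
  have hch : ∀ p : Σ _ : ℕ, ℕ, ∃ φ : ℂ, p ∈ J.sigma (fun j => Finset.range (n j)) →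
      φ ∈ Z ∧ 1 - t ^ 2 < K ⟨p.2 * g p.1, dy (2 * p.1)⟩ φ := by
    intro p
    by_cases hp : p ∈ J.sigma (fun j => Finset.range (n j))
    · have hp' := hp
      rw [Finset.mem_sigma, Finset.mem_range] at hp'
      obtain ⟨φ, h1, h2⟩ := hex p.1 hp'.1 (p.2 * g p.1) (by
        have := hgp p.1 hp'.1; positivity) (by
        refine le_trans ?_ (hn p.1 hp'.1)
        have := hgp p.1 hp'.1
        have h3 : (p.2 : ℝ) ≤ n p.1 := by exact_mod_cast hp'.2.le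
        gcongr)
      exact ⟨φ, fun _ => ⟨h1, h2⟩⟩
    · exact ⟨0, fun h => absurd h hp⟩
  choose φ hφ using hch
  set S := J.sigma (fun j => Finset.range (n j)) with hS
  have hloc : ∀ p ∈ S, dy (2 * p.1) / 2 < (φ p).im ∧ (φ p).im < 2 * dy (2 * p.1) ∧
      |(p.2 : ℝ) * g p.1 - (φ p).re| < 3 * t * dy (2 * p.1) := by
    intro p hp
    obtain ⟨h1, h2⟩ := hφ p hp
    exact close_of_K (dy_pos _) ht ht1 (hpos _ h1) h2
  have hinj : Set.InjOn φ S := by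
    intro p hp q hq hpq
    rw [Finset.mem_coe] at hp hq
    obtain ⟨a1, a2, a3⟩ := hloc p hp
    obtain ⟨b1, b2, b3⟩ := hloc q hq
    rw [← hpq] at b1 b2 b3
    have h1 : p.1 = q.1 := by
      by_contra hne
      rcases lt_or_gt_of_ne hne with h | h
      · have h2 : dy (2 * q.1) ≤ dy (2 * p.1 + 2) := dy_anti (by omega)
        rw [dy_succ, dy_succ] at h2
        linarith
      · have h2 : dy (2 * p.1) ≤ dy (2 * q.1 + 2) := dy_anti (by omega)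
        rw [dy_succ, dy_succ] at h2
        linarith
    obtain ⟨pj, pk⟩ := p
    obtain ⟨qj, qk⟩ := q
    simp only at h1
    subst h1
    simp only at a3 b3
    have h3 : |((pk : ℝ) - qk) * g pj| < 6 * t * dy (2 * pj) := by
      have h4 : ((pk : ℝ) - qk) * g pj = ((pk : ℝ) * g pj - (φ ⟨pj, pk⟩).re)
          - ((qk : ℝ) * g pj - (φ ⟨pj, pk⟩).re) := by ring
      rw [h4]
      calc |((pk : ℝ) * g pj - (φ ⟨pj, pk⟩).re) - ((qk : ℝ) * g pj - (φ ⟨pj, pk⟩).re)|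
          ≤ |((pk : ℝ) * g pj - (φ ⟨pj, pk⟩).re)| + |((qk : ℝ) * g pj - (φ ⟨pj, pk⟩).re)| :=
            abs_sub _ _
        _ < 6 * t * dy (2 * pj) := by linarith
    rw [Finset.mem_sigma] at hp
    have hgp' := hgp pj hp.1
    rw [abs_mul, abs_of_pos hgp'] at h3
    have h5 := hg pj hp.1
    have h6 : |(pk : ℝ) - qk| < 1 := by
      by_contra hcon
      push Not at hcon
      nlinarith
    have h7 : pk = qk := by
      by_contra hne
      have h8 : (1 : ℤ) ≤ |(pk : ℤ) - qk| := by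
        apply Int.one_le_abs
        intro h; apply hne; omega
      have h9 : (1 : ℝ) ≤ |(pk : ℝ) - qk| := by exact_mod_cast h8
      linarith
    rw [h7]
  refine ⟨S.image φ, ?_, ?_, ?_⟩
  · intro ψ hψ
    rw [Finset.mem_image] at hψ
    obtain ⟨p, hp, rfl⟩ := hψ
    exact (hφ p hp).1
  · intro ψ hψ
    rw [Finset.mem_image] at hψ
    obtain ⟨p, hp, rfl⟩ := hψ
    have hp' := hp
    rw [hS, Finset.mem_sigma, Finset.mem_range] at hp'
    obtain ⟨a1, a2, a3⟩ := hloc p hp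
    refine ⟨p.1, hp'.1, a2, ?_, ?_⟩
    · have h1 : 0 ≤ (p.2 : ℝ) * g p.1 := by
        have := hgp p.1 hp'.1; positivity
      have h2 : 3 * t * dy (2 * p.1) ≤ dy (2 * p.1) := by
        have := dy_pos (2 * p.1)
        nlinarith
      have h3 := (abs_lt.1 a3).2
      linarith
    · have h1 : (p.2 : ℝ) * g p.1 ≤ X := by
        refine le_trans ?_ (hn p.1 hp'.1)
        have := hgp p.1 hp'.1
        have h3 : (p.2 : ℝ) ≤ n p.1 := by exact_mod_cast hp'.2.le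
        gcongr
      have h2 : 3 * t * dy (2 * p.1) ≤ dy (2 * p.1) := by
        have := dy_pos (2 * p.1)
        nlinarith
      have h3 := (abs_lt.1 a3).1
      linarith
  · rw [Finset.sum_image hinj, hS, Finset.sum_sigma]
    apply Finset.sum_le_sum
    intro j hj
    calc (n j : ℝ) * dy (2 * j) / 2 = ∑ k ∈ Finset.range (n j), dy (2 * j) / 2 := by
          rw [Finset.sum_const, Finset.card_range, nsmul_eq_mul]; ring
      _ ≤ _ := by
          apply Finset.sum_le_sum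
          intro k hk
          exact (hloc ⟨j, k⟩ (by rw [hS, Finset.mem_sigma]; exact ⟨hj, hk⟩)).1.le

end Pool.Agent.H44.WEP
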