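import Mathlib
import Pool.Agent.H44.WEP.Forcing

set_option autoImplicit false

namespace Pool.Agent.H44.WEP

theorem copies_zeros {e : ℕ} (he : 8 ≤ e) {η : ℝ → ℝ} {L : List ℂ} {G : ℝ}
    (hF : Forced η L G) {Z : Set ℂ} {v : ℂ → ℝ} (S : Sys Z v η)
    (hL : ∀ w ∈ stage e L, w ∈ Z) (s : Finset ℕ)
    (hs : ∀ k ∈ s, k ≤ 2 ^ (3 * e + 2 ^ (3 * e))) :
    ∃ F : Finset ℂ, (∀ φ ∈ F, φ ∈ Z) ∧
      (∀ φ ∈ F, ∃ k ∈ s, |φ.re - (-(1 / 2) + (k : ℝ) * dy (3 * e + 2 ^ (3 * e)))|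
        ≤ dy (4 * e + 2 ^ (3 * e)) ∧ φ.im ≤ 2 * dy (4 * e + 2 ^ (3 * e))) ∧
      (s.card : ℝ) * (dy (4 * e + 2 ^ (3 * e)) * G) ≤ ∑ φ ∈ F, φ.im := by
  classical
  have hrel : dy (4 * e + 2 ^ (3 * e)) = dy (3 * e + 2 ^ (3 * e)) * dy e := by
    rw [← dy_add]; congr 1; ring
  set M := 3 * e + 2 ^ (3 * e) with hM
  set hb := dy (4 * e + 2 ^ (3 * e)) with hhb
  have hbpos : 0 < hb := dy_pos _
  set sb := dy M with hsb
  have hsbpos : 0 < sb := dy_pos _
  have hε := dy_pos e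
  have hε1 := dy_e_le he
  have hsb2 : 256 * hb ≤ sb := by rw [hrel]; nlinarith
  have hk : ∀ k : ℕ, ∃ F : Finset ℂ, k ∈ s → (∀ φ ∈ F, φ ∈ Z) ∧
      (∀ φ ∈ F, |φ.re - (-(1 / 2) + (k : ℝ) * sb)| ≤ hb ∧ φ.im ≤ 2 * hb) ∧
      hb * G ≤ ∑ φ ∈ F, φ.im := by
    intro k
    by_cases hks : k ∈ s
    · obtain ⟨F, h1, h2, h3⟩ := hF _ _ (S.aff (x := -(1 / 2) + (k : ℝ) * sb) hbpos) (by
        intro w hw
        apply hL
        unfold stage
        rw [List.mem_cons, List.mem_append]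
        right; right
        exact mem_copies.2 ⟨k, hs k hks, w, hw, rfl⟩)
      refine ⟨F.image (aff (-(1 / 2) + (k : ℝ) * sb) hb), fun _ => ⟨?_, ?_, ?_⟩⟩
      · intro φ hφ
        rw [Finset.mem_image] at hφ
        obtain ⟨ψ, hψ, rfl⟩ := hφ
        exact h1 ψ hψ
      · intro φ hφ
        rw [Finset.mem_image] at hφ
        obtain ⟨ψ, hψ, rfl⟩ := hφ
        obtain ⟨h4, h5⟩ := h2 ψ hψ
        rw [aff_re, aff_im]
        constructor
        · have : -(1 / 2) + (k : ℝ) * sb + hb * ψ.re - (-(1 / 2) + (k : ℝ) * sb) = hb * ψ.re := by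
            ring
          rw [this, abs_mul, abs_of_pos hbpos]
          nlinarith
        · nlinarith
      · rw [Finset.sum_image (fun a _ b _ hab => aff_inj hbpos hab)]
        simp only [aff_im]
        rw [← Finset.mul_sum]
        gcongr
    · exact ⟨∅, fun h => absurd h hks⟩
  choose F hF' using hk
  have hdisj : Set.PairwiseDisjoint (s : Set ℕ) F := by
    intro i hi j hj hij
    rw [Function.onFun, Finset.disjoint_left]
    intro φ hφi hφj
    obtain ⟨-, h2, -⟩ := hF' i hi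
    obtain ⟨-, h3, -⟩ := hF' j hj
    have h4 := (h2 φ hφi).1
    have h5 := (h3 φ hφj).1
    have h6 : sb ≤ |((i : ℝ) - j) * sb| := by
      rw [abs_mul, abs_of_pos hsbpos]
      have h2 : (1 : ℝ) ≤ |(i : ℝ) - j| := by
        have h3 : (1 : ℤ) ≤ |(i : ℤ) - j| := by
          apply Int.one_le_abs
          intro h
          apply hij
          omega
        exact_mod_cast h3
      nlinarith
    have h7 : ((i : ℝ) - j) * sb = (φ.re - (-(1 / 2) + (j : ℝ) * sb))
        - (φ.re - (-(1 / 2) + (i : ℝ) * sb)) := by ring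
    rw [h7] at h6
    have h8 := abs_sub (φ.re - (-(1 / 2) + (j : ℝ) * sb)) (φ.re - (-(1 / 2) + (i : ℝ) * sb))
    linarith
  refine ⟨s.biUnion F, ?_, ?_, ?_⟩
  · intro φ hφ
    rw [Finset.mem_biUnion] at hφ
    obtain ⟨k, hks, hφ⟩ := hφ
    exact (hF' k hks).1 φ hφ
  · intro φ hφ
    rw [Finset.mem_biUnion] at hφ
    obtain ⟨k, hks, hφ⟩ := hφ
    exact ⟨k, hks, (hF' k hks).2.1 φ hφ⟩
  · rw [Finset.sum_biUnion hdisj]
    rw [← nsmul_eq_mul, ← Finset.sum_const]
    apply Finset.sum_le_sum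
    intro k hks
    exact (hF' k hks).2.2

theorem forced_F1 {e : ℕ} (he : 8 ≤ e) {η : ℝ → ℝ} {L : List ℂ} {G : ℝ} (hG : 0 ≤ G)
    (hF : Forced η L G) : Forced η (stage e L) (G * dy e) := by
  intro Z v S hL
  obtain ⟨F, h1, h2, h3⟩ := copies_zeros he hF S hL (Finset.range (2 ^ (3 * e + 2 ^ (3 * e)) + 1))
    (fun k hk => by rw [Finset.mem_range] at hk; omega)
  have hrel : dy (4 * e + 2 ^ (3 * e)) = dy (3 * e + 2 ^ (3 * e)) * dy e := by
    rw [← dy_add]; congr 1; ring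
  have hb1 : dy (4 * e + 2 ^ (3 * e)) ≤ 1 / 256 :=
    (dy_anti (le_trans (by omega : e ≤ 4 * e) (Nat.le_add_right _ _))).trans (dy_e_le he)
  refine ⟨F, h1, ?_, ?_⟩
  · intro φ hφ
    obtain ⟨k, hk, h4, h5⟩ := h2 φ hφ
    rw [Finset.mem_range] at hk
    have h6 := slat_re_bound (m := 3 * e + 2 ^ (3 * e)) (k := k) (by omega)
    constructor
    · calc |φ.re| = |(φ.re - (-(1 / 2) + (k : ℝ) * dy (3 * e + 2 ^ (3 * e))))
            + (-(1 / 2) + (k : ℝ) * dy (3 * e + 2 ^ (3 * e)))| := by ring_nf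
        _ ≤ _ := abs_add_le _ _
        _ ≤ 1 := by linarith
    · linarith
  · refine le_trans ?_ h3
    rw [Finset.card_range, hrel]
    push_cast
    have h7 := dy_mul_pow (3 * e + 2 ^ (3 * e))
    have h8 := dy_pos (3 * e + 2 ^ (3 * e))
    have h9 := dy_pos e
    calc G * dy e = (dy (3 * e + 2 ^ (3 * e)) * 2 ^ (3 * e + 2 ^ (3 * e))) * (G * dy e) := by
          rw [h7, one_mul]
      _ ≤ (dy (3 * e + 2 ^ (3 * e)) * 2 ^ (3 * e + 2 ^ (3 * e)) + dy (3 * e + 2 ^ (3 * e)))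
            * (G * dy e) := by gcongr; linarith
      _ = (2 ^ (3 * e + 2 ^ (3 * e)) + 1) * (dy (3 * e + 2 ^ (3 * e)) * dy e * G) := by ring

theorem forced_F2 {e : ℕ} (he : 8 ≤ e) {η : ℝ → ℝ} (hη : ∀ κ, 0 < κ → κ < 1 → 0 < η κ)
    {L : List ℂ} {G : ℝ} (hG : 0 ≤ G) (hF : Forced η L G)
    (hbig : Real.exp (-(8 / 9 * (G * dy e))) < η (8 / 9) ^ 2) :
    Forced η (stage e L) (2 ^ (3 * e) / 32) := by
  intro Z v S hL
  have hrel : dy (4 * e + 2 ^ (3 * e)) = dy (3 * e + 2 ^ (3 * e)) * dy e := by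
    rw [← dy_add]; congr 1; ring
  have hMle : 3 * e ≤ 3 * e + 2 ^ (3 * e) := Nat.le_add_right _ _
  have hHpos : 0 < 2 ^ (3 * e) := Nat.pos_of_ne_zero (by positivity)
  have hHcast : ((2 ^ (3 * e) : ℕ) : ℝ) = 2 ^ (3 * e) := by push_cast; rfl
  have hcz := fun s hs => copies_zeros he hF S hL s hs
  set M := 3 * e + 2 ^ (3 * e) with hM
  set hb := dy (4 * e + 2 ^ (3 * e)) with hhb
  have hbpos : 0 < hb := dy_pos _
  set sb := dy M with hsb
  have hsbpos : 0 < sb := dy_pos _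
  have hε := dy_pos e
  have hε1 := dy_e_le he
  have hsb2 : 256 * hb ≤ sb := by rw [hrel]; nlinarith
  have hnet := net S.pos (t := 1 / 3) (X := 1 / 4) (by norm_num) le_rfl
    (Finset.Icc 2 (M / 2)) (fun j => 2 * dy (2 * j)) (fun j => 2 ^ (2 * j - 3))
    (fun j _ => by linarith)
    (by
      intro j hj
      rw [Finset.mem_Icc] at hj
      push_cast
      have h1 : (2 : ℝ) ^ (2 * j) = 2 ^ (2 * j - 3) * 8 := by
        rw [show 2 * j = (2 * j - 3) + 3 by omega, pow_add]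
        norm_num
      have h2 := dy_mul_pow (2 * j)
      rw [h1] at h2
      have h3 : (2 : ℝ) ^ (2 * j - 3) * (2 * dy (2 * j))
          = (dy (2 * j) * (2 ^ (2 * j - 3) * 8)) / 4 := by ring
      rw [h3, h2])
    (by
      intro j hj x hx0 hx1
      rw [Finset.mem_Icc] at hj
      by_contra hcon
      push Not at hcon
      set y := dy (2 * j) with hy
      have hypos : 0 < y := dy_pos _
      have h2j : 2 * j ≤ M := by omega
      have hysb : sb ≤ y := dy_anti h2j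
      have hy1 : y ≤ 1 / 16 := by
        have : dy (2 * j) ≤ dy 4 := dy_anti (by omega)
        calc y ≤ dy 4 := this
          _ = 1 / 16 := by unfold dy; norm_num
      have hysb2 : (2 : ℝ) ^ (M - 2 * j) * sb = y := by
        have h1 : sb = dy (M - 2 * j) * y := by
          rw [hsb, hy, ← dy_add]; congr 1; omega
        have h2 := dy_mul_pow (M - 2 * j)
        calc (2 : ℝ) ^ (M - 2 * j) * sb = (dy (M - 2 * j) * 2 ^ (M - 2 * j)) * y := by
              rw [h1]; ring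
          _ = y := by rw [h2, one_mul]
      set k0 := ⌈(x + 1 / 2) / sb⌉₊ with hk0
      have hk0a : (x + 1 / 2) ≤ (k0 : ℝ) * sb := by
        have := Nat.le_ceil ((x + 1 / 2) / sb)
        rwa [div_le_iff₀ hsbpos] at this
      have hk0b : (k0 : ℝ) * sb < x + 1 / 2 + sb := by
        have := Nat.ceil_lt_add_one (a := (x + 1 / 2) / sb) (by positivity)
        rw [← hk0] at this
        have h2 : (k0 : ℝ) * sb < ((x + 1 / 2) / sb + 1) * sb := by gcongr
        have h3 : ((x + 1 / 2) / sb + 1) * sb = x + 1 / 2 + sb := by field_simp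
        linarith
      have hks : ∀ k ∈ Finset.Ico k0 (k0 + 2 ^ (M - 2 * j)),
          x ≤ -(1 / 2) + (k : ℝ) * sb ∧ -(1 / 2) + (k : ℝ) * sb ≤ x + y := by
        intro k hk
        rw [Finset.mem_Ico] at hk
        have h1 : (k0 : ℝ) ≤ k := by exact_mod_cast hk.1
        have h2 : (k : ℝ) + 1 ≤ k0 + 2 ^ (M - 2 * j) := by
          have : k + 1 ≤ k0 + 2 ^ (M - 2 * j) := hk.2
          exact_mod_cast this
        constructor
        · have : (k0 : ℝ) * sb ≤ k * sb := by gcongr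
          linarith
        · have : ((k : ℝ) + 1) * sb ≤ (k0 + 2 ^ (M - 2 * j)) * sb := by gcongr
          rw [add_mul, add_mul, hysb2] at this
          linarith
      obtain ⟨F, h1, h2, h3⟩ := hcz (Finset.Ico k0 (k0 + 2 ^ (M - 2 * j))) (by
        intro k hk
        have h4 := (hks k hk).2
        have h5 : (k : ℝ) * sb ≤ 1 := by linarith
        have h6 := dy_mul_pow M
        rw [← hsb] at h6
        have h7 : (k : ℝ) ≤ 2 ^ M := by
          by_contra hcon
          push Not at hcon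
          have : 2 ^ M * sb < k * sb := by gcongr
          linarith
        exact_mod_cast h7)
      have h4 : ∀ φ ∈ F, 8 / 9 * (φ.im / y) ≤ K ⟨x, y⟩ φ := by
        intro φ hφ
        obtain ⟨k, hk, h5, h6⟩ := h2 φ hφ
        obtain ⟨h7, h8⟩ := hks k hk
        have h9 := S.pos φ (h1 φ hφ)
        obtain ⟨h10, h11⟩ := abs_le.1 h5
        unfold K
        simp only
        rw [le_div_iff₀ (by positivity)]
        have h12 : (x - φ.re) ^ 2 ≤ (5 / 4 * y) ^ 2 := by
          apply sq_le_sq'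
          · linarith
          · linarith
        have h13 : (y + φ.im) ^ 2 ≤ (5 / 4 * y) ^ 2 := by
          gcongr
          linarith
        have h14 : 0 ≤ 8 / 9 * (φ.im / y) := by positivity
        calc 8 / 9 * (φ.im / y) * ((x - φ.re) ^ 2 + (y + φ.im) ^ 2)
            ≤ 8 / 9 * (φ.im / y) * ((5 / 4 * y) ^ 2 + (5 / 4 * y) ^ 2) := by gcongr
          _ = (8 / 9 * (25 / 8)) * (φ.im * y) := by field_simp; ring
          _ ≤ 4 * (φ.im * y) := by gcongr; norm_num
          _ = 4 * y * φ.im := by ring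
      have h5 : 8 / 9 * (G * dy e) ≤ ∑ φ ∈ F, K ⟨x, y⟩ φ := by
        refine le_trans ?_ (Finset.sum_le_sum h4)
        rw [← Finset.mul_sum, ← Finset.sum_div]
        have h6 : G * dy e ≤ (∑ φ ∈ F, φ.im) / y := by
          rw [le_div_iff₀ hypos]
          refine le_trans ?_ h3
          rw [Nat.card_Ico]
          have h7 : ((k0 + 2 ^ (M - 2 * j) - k0 : ℕ) : ℝ) = 2 ^ (M - 2 * j) := by
            rw [Nat.add_sub_cancel_left]; push_cast; rfl
          rw [h7, hrel]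
          apply le_of_eq
          calc G * dy e * y = G * dy e * (2 ^ (M - 2 * j) * sb) := by rw [hysb2]
            _ = _ := by ring
        gcongr
      have h6 := S.up F h1 ⟨x, y⟩ hypos
      have h7 : Real.exp (-∑ φ ∈ F, K ⟨x, y⟩ φ) ≤ Real.exp (-(8 / 9 * (G * dy e))) := by
        apply Real.exp_le_exp.2
        linarith
      have h8 := S.low (8 / 9) (by norm_num) (by norm_num) ⟨x, y⟩ hypos (by
        intro φ hφ
        have := hcon φ hφ
        norm_num at this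
        linarith)
      have h9 := hη (8 / 9) (by norm_num) (by norm_num)
      have h10 : η (8 / 9) ^ 2 ≤ v ⟨x, y⟩ ^ 2 := by gcongr
      linarith)
  obtain ⟨F, h1, h2, h3⟩ := hnet
  refine ⟨F, h1, ?_, ?_⟩
  · intro φ hφ
    obtain ⟨j, hj, h4, h5, h6⟩ := h2 φ hφ
    have h7 := dy_le_one (2 * j)
    rw [Finset.mem_Icc] at hj
    have h8 : dy (2 * j) ≤ dy 1 := dy_anti (by omega)
    have h9 : dy 1 = 1 / 2 := by unfold dy; norm_num
    constructor
    · rw [abs_le]; constructor <;> linarith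
    · linarith
  · refine le_trans ?_ h3
    have h4 : ∀ j ∈ Finset.Icc 2 (M / 2), ((2 ^ (2 * j - 3) : ℕ) : ℝ) * dy (2 * j) / 2 = 1 / 16 := by
      intro j hj
      rw [Finset.mem_Icc] at hj
      push_cast
      have h1 : (2 : ℝ) ^ (2 * j) = 2 ^ (2 * j - 3) * 8 := by
        rw [show 2 * j = (2 * j - 3) + 3 by omega, pow_add]
        norm_num
      have h2 := dy_mul_pow (2 * j)
      rw [h1] at h2
      have h3 : (2 : ℝ) ^ (2 * j - 3) * dy (2 * j) / 2
          = (dy (2 * j) * (2 ^ (2 * j - 3) * 8)) / 16 := by ring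
      rw [h3, h2]
    rw [Finset.sum_congr rfl h4, Finset.sum_const, Nat.card_Icc, nsmul_eq_mul]
    have h5 : (2 : ℝ) ^ (3 * e) / 2 ≤ ((M / 2 + 1 - 2 : ℕ) : ℝ) := by
      have h6 : 2 ^ (3 * e) ≤ 2 * (M / 2 + 1 - 2) := by omega
      have h7 : ((2 ^ (3 * e) : ℕ) : ℝ) ≤ ((2 * (M / 2 + 1 - 2) : ℕ) : ℝ) := by exact_mod_cast h6
      rw [hHcast] at h7
      rw [Nat.cast_mul, Nat.cast_ofNat] at h7
      linarith
    linarith

end Pool.Agent.H44.WEP
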