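import Mathlib
import Pool.Agent.H44.WEP.Forcing2

set_option autoImplicit false

namespace Pool.Agent.H44.WEP

theorem dy_inj {m n : ℕ} (h : dy m = dy n) : m = n := by
  by_contra hne
  rcases lt_or_gt_of_ne hne with h1 | h1
  · have h2 : dy n ≤ dy (m + 1) := dy_anti (by omega)
    rw [dy_succ] at h2
    have := dy_pos m
    linarith
  · have h2 : dy m ≤ dy (n + 1) := dy_anti (by omega)
    rw [dy_succ] at h2
    have := dy_pos n
    linarith

/-- many zeros of the amplifier near a deep point -/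
theorem deep_sum {a j : ℕ} {x : ℝ} (hx0 : 0 ≤ x) (hx1 : x ≤ dy (a + 3)) (hj1 : a + 3 ≤ 2 * j)
    (hj2 : 4 * j ≤ 2 ^ a) :
    ∃ F : Finset ℂ, (∀ φ ∈ F, φ ∈ objA a) ∧
      2 / 5 * (2 : ℝ) ^ a ≤ ∑ φ ∈ F, K ⟨x, dy (2 * j)⟩ φ := by
  classical
  set y := dy (2 * j) with hy
  have hypos : 0 < y := dy_pos _
  set β := dy a with hβ
  have hβpos : 0 < β := dy_pos _
  have hβ8 : dy (a + 3) = β / 8 := by rw [dy_succ, dy_succ, dy_succ]; ring
  have hyβ : y ≤ β / 8 := by rw [← hβ8]; exact dy_anti hj1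
  rw [hβ8] at hx1
  set S := (Finset.Ioc (2 * j) (2 ^ a)).sigma (fun m => Finset.range (2 ^ (m - 2 * j))) with hS
  set f : (Σ _ : ℕ, ℕ) → ℂ := fun p =>
    ⟨((⌈x / dy p.1⌉₊ : ℝ) + p.2) * dy p.1, dy p.1⟩ with hf
  have hloc : ∀ p ∈ S, x ≤ (f p).re ∧ (f p).re ≤ x + y ∧ (f p).im ≤ y := by
    intro p hp
    rw [hS, Finset.mem_sigma, Finset.mem_Ioc, Finset.mem_range] at hp
    obtain ⟨⟨h1, h2⟩, h3⟩ := hp
    have hm := dy_pos p.1
    set h := dy p.1 with hh
    have hk0a : x ≤ (⌈x / h⌉₊ : ℝ) * h := by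
      have := Nat.le_ceil (x / h)
      rwa [div_le_iff₀ hm] at this
    have hk0b : (⌈x / h⌉₊ : ℝ) * h < x + h := by
      have := Nat.ceil_lt_add_one (a := x / h) (by positivity)
      have h2 : (⌈x / h⌉₊ : ℝ) * h < (x / h + 1) * h := by gcongr
      have h3 : (x / h + 1) * h = x + h := by field_simp
      linarith
    have h4 : (2 : ℝ) ^ (p.1 - 2 * j) * h = y := by
      have h1 : h = dy (p.1 - 2 * j) * y := by
        rw [hh, hy, ← dy_add]; congr 1; omega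
      have h2 := dy_mul_pow (p.1 - 2 * j)
      calc (2 : ℝ) ^ (p.1 - 2 * j) * h = (dy (p.1 - 2 * j) * 2 ^ (p.1 - 2 * j)) * y := by
            rw [h1]; ring
        _ = y := by rw [h2, one_mul]
    have h5 : (p.2 : ℝ) + 1 ≤ 2 ^ (p.1 - 2 * j) := by
      have : p.2 + 1 ≤ 2 ^ (p.1 - 2 * j) := h3
      exact_mod_cast this
    have h6 : ((p.2 : ℝ) + 1) * h ≤ y := by
      rw [← h4]; gcongr
    have h7 : 0 ≤ (p.2 : ℝ) * h := by positivity
    refine ⟨?_, ?_, ?_⟩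
    · simp only [hf]; rw [add_mul]; linarith
    · simp only [hf]; rw [add_mul]; linarith
    · simp only [hf]; exact dy_anti h1.le
  have hinj : Set.InjOn f S := by
    intro p _ q _ hpq
    have h1 : (f p).im = (f q).im := by rw [hpq]
    have h2 : p.1 = q.1 := dy_inj h1
    obtain ⟨pm, pk⟩ := p
    obtain ⟨qm, qk⟩ := q
    simp only at h2
    subst h2
    have h3 : (f ⟨pm, pk⟩).re = (f ⟨pm, qk⟩).re := by rw [hpq]
    simp only [hf] at h3
    have h4 := mul_right_cancel₀ (dy_pos pm).ne' h3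
    have h5 : (pk : ℝ) = qk := by linarith
    have h6 : pk = qk := by exact_mod_cast h5
    rw [h6]
  refine ⟨S.image f, ?_, ?_⟩
  · intro φ hφ
    rw [Finset.mem_image] at hφ
    obtain ⟨p, hp, rfl⟩ := hφ
    obtain ⟨h1, h2, h3⟩ := hloc p hp
    rw [hS, Finset.mem_sigma, Finset.mem_Ioc, Finset.mem_range] at hp
    refine mem_objA.2 ⟨p.1, hp.1.2, ?_⟩
    rw [← hβ]
    have hm := dy_pos p.1
    have h4 : β / 2 ≤ aw β (dy p.1) := by
      unfold aw
      have : β ≤ Real.sqrt (dy p.1 + β ^ 2) := by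
        apply Real.le_sqrt_of_sq_le
        linarith
      linarith
    have h5 : ⌈x / dy p.1⌉₊ + p.2 ≤ JA β (dy p.1) := by
      unfold JA
      apply Nat.le_floor
      rw [le_div_iff₀ hm]
      push_cast
      simp only [hf] at h2
      linarith
    refine mem_lat.2 ⟨JA β (dy p.1) + (⌈x / dy p.1⌉₊ + p.2), by omega, ?_⟩
    apply Complex.ext
    · simp only [hf]; push_cast; ring
    · rfl
  · rw [Finset.sum_image hinj, hS, Finset.sum_sigma]
    have hlev : ∀ m ∈ Finset.Ioc (2 * j) (2 ^ a),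
        (4 / 5 : ℝ) ≤ ∑ k ∈ Finset.range (2 ^ (m - 2 * j)), K ⟨x, y⟩ (f ⟨m, k⟩) := by
      intro m hm
      have hm' := hm
      rw [Finset.mem_Ioc] at hm'
      have hmp := dy_pos m
      have h4 : (2 : ℝ) ^ (m - 2 * j) * dy m = y := by
        have h1 : dy m = dy (m - 2 * j) * y := by
          rw [hy, ← dy_add]; congr 1; omega
        have h2 := dy_mul_pow (m - 2 * j)
        calc (2 : ℝ) ^ (m - 2 * j) * dy m = (dy (m - 2 * j) * 2 ^ (m - 2 * j)) * y := by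
              rw [h1]; ring
          _ = y := by rw [h2, one_mul]
      have h5 : ∀ k ∈ Finset.range (2 ^ (m - 2 * j)), 4 / 5 * (dy m / y) ≤ K ⟨x, y⟩ (f ⟨m, k⟩) := by
        intro k hk
        obtain ⟨h1, h2, h3⟩ := hloc ⟨m, k⟩ (by rw [hS, Finset.mem_sigma]; exact ⟨hm, hk⟩)
        have h6 : (f ⟨m, k⟩).im = dy m := rfl
        unfold K
        rw [h6] at h3 ⊢
        simp only
        rw [le_div_iff₀ (by positivity)]
        have h7 : (x - (f ⟨m, k⟩).re) ^ 2 ≤ y ^ 2 := by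
          apply sq_le_sq'
          · linarith
          · linarith
        have h8 : (y + dy m) ^ 2 ≤ (y + y) ^ 2 := by gcongr
        calc 4 / 5 * (dy m / y) * ((x - (f ⟨m, k⟩).re) ^ 2 + (y + dy m) ^ 2)
            ≤ 4 / 5 * (dy m / y) * (y ^ 2 + (y + y) ^ 2) := by gcongr
          _ = 4 * y * dy m := by field_simp; ring
      calc (4 / 5 : ℝ) = ∑ k ∈ Finset.range (2 ^ (m - 2 * j)), 4 / 5 * (dy m / y) := by
            rw [Finset.sum_const, Finset.card_range, nsmul_eq_mul]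
            push_cast
            have : (2 : ℝ) ^ (m - 2 * j) * (4 / 5 * (dy m / y))
                = 4 / 5 * ((2 : ℝ) ^ (m - 2 * j) * dy m / y) := by ring
            rw [this, h4, div_self hypos.ne', mul_one]
        _ ≤ _ := Finset.sum_le_sum h5
    refine le_trans ?_ (Finset.sum_le_sum hlev)
    rw [Finset.sum_const, Nat.card_Ioc, nsmul_eq_mul]
    have h6 : (2 : ℝ) ^ a / 2 ≤ ((2 ^ a - 2 * j : ℕ) : ℝ) := by
      have h7 : 2 ^ a ≤ 2 * (2 ^ a - 2 * j) := by omega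
      have h8 : ((2 ^ a : ℕ) : ℝ) ≤ ((2 * (2 ^ a - 2 * j) : ℕ) : ℝ) := by exact_mod_cast h7
      rw [Nat.cast_mul, Nat.cast_ofNat, Nat.cast_pow, Nat.cast_ofNat] at h8
      linarith
    linarith

theorem forced_F0 {η : ℝ → ℝ} (hη : ∀ κ, 0 < κ → κ < 1 → 0 < η κ) {τ : ℕ} (hτ : 3 ≤ τ) :
    ∃ a0 : ℕ, ∀ a, a0 ≤ a → Forced η (objA a) (2 ^ τ / 1024) := by
  have hτp := dy_pos τ
  have hτ8 : dy τ ≤ 1 / 8 := by
    calc dy τ ≤ dy 3 := dy_anti hτ
      _ = 1 / 8 := by unfold dy; norm_num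
  have hκ0 : 0 < 1 - dy τ ^ 2 := by nlinarith
  have hκ1 : 1 - dy τ ^ 2 < 1 := by nlinarith
  have hηp := hη _ hκ0 hκ1
  -- choose a1
  obtain ⟨a1, ha1⟩ : ∃ a1 : ℕ, ∀ a, a1 ≤ a →
      Real.exp (-(2 / 5 * (2 : ℝ) ^ a)) < η (1 - dy τ ^ 2) ^ 2 := by
    have hlim : Filter.Tendsto (fun a : ℕ => Real.exp (-(2 / 5 * (2 : ℝ) ^ a)))
        Filter.atTop (nhds 0) := by
      apply Real.tendsto_exp_neg_atTop_nhds_zero.comp
      apply Filter.Tendsto.const_mul_atTop (by norm_num)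
      exact tendsto_pow_atTop_atTop_of_one_lt (by norm_num)
    have hev := hlim.eventually (gt_mem_nhds (by positivity : 0 < η (1 - dy τ ^ 2) ^ 2))
    rw [Filter.eventually_atTop] at hev
    exact hev
  refine ⟨max a1 6, fun a ha => ?_⟩
  have haa : a1 ≤ a := le_trans (le_max_left _ _) ha
  have ha6 : 6 ≤ a := le_trans (le_max_right _ _) ha
  have hexp := ha1 a haa
  intro Z v S hL
  have h2a : 2 ^ a = 4 * 2 ^ (a - 2) := by
    rw [show a = (a - 2) + 2 by omega, pow_add]; simp; ring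
  have h2a' : 2 ^ (a - 2) = 2 * 2 ^ (a - 3) := by
    rw [show a - 2 = (a - 3) + 1 by omega, pow_succ]; ring
  have hlt : a - 3 < 2 ^ (a - 3) := Nat.lt_two_pow_self
  have hnet := net S.pos (t := dy τ) (X := dy (a + 3)) hτp (by linarith)
    (Finset.Icc (a / 2 + 2) (2 ^ (a - 2))) (fun j => 8 * dy τ * dy (2 * j))
    (fun j => 2 ^ (2 * j + τ - a - 6))
    (fun j _ => by
      have := dy_pos (2 * j)
      have h1 : 0 ≤ dy τ * dy (2 * j) := by positivity
      nlinarith)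
    (by
      intro j hj
      rw [Finset.mem_Icc] at hj
      push_cast
      have h1 : dy (2 * j + τ) = dy (2 * j + τ - a - 6) * dy (a + 6) := by
        rw [← dy_add]; congr 1; omega
      have h2 := dy_mul_pow (2 * j + τ - a - 6)
      have h3 : dy (a + 6) = dy (a + 3) / 8 := by
        rw [show a + 6 = a + 3 + 1 + 1 + 1 by ring, dy_succ, dy_succ, dy_succ]; ring
      have h4 : (2 : ℝ) ^ (2 * j + τ - a - 6) * (8 * dy τ * dy (2 * j))
          = 8 * 2 ^ (2 * j + τ - a - 6) * dy (2 * j + τ) := by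
        rw [dy_add]; ring
      rw [h4, h1, h3]
      apply le_of_eq
      calc 8 * 2 ^ (2 * j + τ - a - 6) * (dy (2 * j + τ - a - 6) * (dy (a + 3) / 8))
          = (dy (2 * j + τ - a - 6) * 2 ^ (2 * j + τ - a - 6)) * dy (a + 3) := by ring
        _ = _ := by rw [h2, one_mul])
    (by
      intro j hj x hx0 hx1
      rw [Finset.mem_Icc] at hj
      by_contra hcon
      push Not at hcon
      obtain ⟨F, hF1, hF2⟩ := deep_sum (a := a) (j := j) hx0 hx1 (by omega) (by omega)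
      have h6 := S.up F (fun φ hφ => hL φ (hF1 φ hφ)) ⟨x, dy (2 * j)⟩ (dy_pos _)
      have h7 : Real.exp (-∑ φ ∈ F, K ⟨x, dy (2 * j)⟩ φ) ≤ Real.exp (-(2 / 5 * (2 : ℝ) ^ a)) := by
        apply Real.exp_le_exp.2
        linarith
      have h8 := S.low _ hκ0 hκ1 ⟨x, dy (2 * j)⟩ (dy_pos _) hcon
      have h10 : η (1 - dy τ ^ 2) ^ 2 ≤ v ⟨x, dy (2 * j)⟩ ^ 2 := by gcongr
      linarith)
  obtain ⟨F, h1, h2, h3⟩ := hnet
  refine ⟨F, h1, ?_, ?_⟩
  · intro φ hφ
    obtain ⟨j, hj, h4, h5, h6⟩ := h2 φ hφ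
    rw [Finset.mem_Icc] at hj
    have h8 : dy (2 * j) ≤ dy 1 := dy_anti (by omega)
    have h9 : dy 1 = 1 / 2 := by unfold dy; norm_num
    have h10 : dy (a + 3) ≤ dy 1 := dy_anti (by omega)
    have h11 := dy_pos (a + 3)
    constructor
    · rw [abs_le]; constructor <;> linarith
    · linarith
  · refine le_trans ?_ h3
    have h4 : ∀ j ∈ Finset.Icc (a / 2 + 2) (2 ^ (a - 2)),
        ((2 ^ (2 * j + τ - a - 6) : ℕ) : ℝ) * dy (2 * j) / 2 = 2 ^ τ * dy (a + 7) := by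
      intro j hj
      rw [Finset.mem_Icc] at hj
      push_cast
      have h1 : dy (2 * j + τ) = dy (2 * j + τ - a - 6) * dy (a + 6) := by
        rw [← dy_add]; congr 1; omega
      have h2 := dy_mul_pow (2 * j + τ - a - 6)
      have h2' := dy_mul_pow τ
      rw [dy_add] at h1
      have h3 : dy (a + 7) = dy (a + 6) / 2 := dy_succ _
      rw [h3]
      calc (2 : ℝ) ^ (2 * j + τ - a - 6) * dy (2 * j) / 2
          = 2 ^ (2 * j + τ - a - 6) * (dy (2 * j) * dy τ) * 2 ^ τ / 2 := by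
            have : (2 : ℝ) ^ (2 * j + τ - a - 6) * (dy (2 * j) * dy τ) * 2 ^ τ / 2
              = 2 ^ (2 * j + τ - a - 6) * dy (2 * j) / 2 * (dy τ * 2 ^ τ) := by ring
            rw [this, h2', mul_one]
        _ = 2 ^ τ * (dy (a + 6) / 2) * (dy (2 * j + τ - a - 6) * 2 ^ (2 * j + τ - a - 6)) := by
            rw [h1]; ring
        _ = _ := by rw [h2, mul_one]
    rw [Finset.sum_congr rfl h4, Finset.sum_const, Nat.card_Icc, nsmul_eq_mul]
    have h5 : (2 : ℝ) ^ (a - 3) ≤ ((2 ^ (a - 2) + 1 - (a / 2 + 2) : ℕ) : ℝ) := by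
      have h6 : 2 ^ (a - 3) ≤ (2 ^ (a - 2) + 1 - (a / 2 + 2) : ℕ) := by omega
      have h7 : ((2 ^ (a - 3) : ℕ) : ℝ) ≤ _ := Nat.cast_le.2 h6
      rwa [Nat.cast_pow, Nat.cast_ofNat] at h7
    have h8 : (2 : ℝ) ^ (a - 3) * dy (a + 7) = 1 / 1024 := by
      have h9 : dy (a + 7) = dy (a - 3) * dy 10 := by
        rw [← dy_add]; congr 1; omega
      have h10 := dy_mul_pow (a - 3)
      have h11 : dy 10 = 1 / 1024 := by unfold dy; norm_num
      rw [h9, h11]
      calc (2 : ℝ) ^ (a - 3) * (dy (a - 3) * (1 / 1024)) = (dy (a - 3) * 2 ^ (a - 3)) * (1 / 1024) := by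
            ring
        _ = _ := by rw [h10, one_mul]
    have h9 := dy_pos (a + 7)
    calc (2 : ℝ) ^ τ / 1024 = 2 ^ (a - 3) * dy (a + 7) * 2 ^ τ := by rw [h8]; ring
      _ ≤ ((2 ^ (a - 2) + 1 - (a / 2 + 2) : ℕ) : ℝ) * dy (a + 7) * 2 ^ τ := by gcongr
      _ = _ := by ring

end Pool.Agent.H44.WEP
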