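import Mathlib
import Pool.Agent.H44.WEP.Forcing3

set_option autoImplicit false

namespace Pool.Agent.H44.WEP

noncomputable def obj (a : ℕ) : ℕ → List ℂ
  | 0 => objA a
  | i + 1 => stage (8 * 2 ^ i) (obj a i)

theorem e8 (i : ℕ) : 8 ≤ 8 * 2 ^ i := by
  have : 0 < 2 ^ i := Nat.pos_of_ne_zero (by positivity)
  omega

theorem good_obj (a i : ℕ) : Good (obj a i) := by
  induction i with
  | zero => exact good_objA a
  | succ i ih => exact good_stage (e8 i) ih

/-- total exponent -/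
def TT (i : ℕ) : ℕ := ∑ k ∈ Finset.range i, 8 * 2 ^ k

theorem forced_iter {η : ℝ → ℝ} {a : ℕ} {G : ℝ} (hG : 0 ≤ G) (hF : Forced η (objA a) G) (i : ℕ) :
    Forced η (obj a i) (G * dy (TT i)) := by
  induction i with
  | zero =>
    have : G * dy (TT 0) = G := by simp [TT, dy_zero]
    rw [this]; exact hF
  | succ i ih =>
    have h1 := forced_F1 (e8 i) (by have := dy_pos (TT i); positivity) ih
    have h2 : G * dy (TT (i + 1)) = G * dy (TT i) * dy (8 * 2 ^ i) := by
      unfold TT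
      rw [Finset.sum_range_succ, dy_add]; ring
    rw [h2]
    exact h1

theorem forced_chain {η : ℝ → ℝ} (hη : ∀ κ, 0 < κ → κ < 1 → 0 < η κ) :
    ∃ N0 : ℕ, ∀ n, N0 ≤ n → Forced η (obj n (n + 1)) (2 ^ (3 * (8 * 2 ^ n)) / 32) := by
  have hηp := hη (8 / 9) (by norm_num) (by norm_num)
  obtain ⟨b, hb⟩ : ∃ b : ℕ, Real.exp (-(8 / 9 * (2 : ℝ) ^ b)) < η (8 / 9) ^ 2 := by
    have hlim : Filter.Tendsto (fun a : ℕ => Real.exp (-(8 / 9 * (2 : ℝ) ^ a)))
        Filter.atTop (nhds 0) := by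
      apply Real.tendsto_exp_neg_atTop_nhds_zero.comp
      apply Filter.Tendsto.const_mul_atTop (by norm_num)
      exact tendsto_pow_atTop_atTop_of_one_lt (by norm_num)
    exact (hlim.eventually (gt_mem_nhds (by positivity : 0 < η (8 / 9) ^ 2))).exists
  have hbig : ∀ x : ℝ, 2 ^ b ≤ x → Real.exp (-(8 / 9 * x)) < η (8 / 9) ^ 2 := by
    intro x hx
    refine lt_of_le_of_lt ?_ hb
    apply Real.exp_le_exp.2
    linarith
  obtain ⟨a0, ha0⟩ := forced_F0 hη (τ := TT (b + 1) + 10 + b) (by omega)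
  refine ⟨max a0 b, fun n hn => ?_⟩
  have hna : a0 ≤ n := le_trans (le_max_left _ _) hn
  have hnb : b ≤ n := le_trans (le_max_right _ _) hn
  have h0 := ha0 n hna
  have hbase : Forced η (obj n (b + 1)) (2 ^ (3 * (8 * 2 ^ b)) / 32) := by
    have h1 := forced_iter (by positivity) h0 b
    have hT := dy_pos (TT b)
    refine forced_F2 (e8 b) hη (by positivity) h1 (hbig _ ?_)
    have h2 : dy (TT (b + 1)) = dy (TT b) * dy (8 * 2 ^ b) := by
      unfold TT
      rw [Finset.sum_range_succ, dy_add]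
    have h3 := dy_mul_pow (TT (b + 1))
    have h4 : (2 : ℝ) ^ (TT (b + 1) + 10 + b) / 1024 * dy (TT b) * dy (8 * 2 ^ b)
        = (dy (TT (b + 1)) * 2 ^ (TT (b + 1))) * 2 ^ b := by
      rw [pow_add, pow_add, h2]
      norm_num
      ring
    rw [h4, h3, one_mul]
  have hstep : ∀ i, b ≤ i → Forced η (obj n (i + 1)) (2 ^ (3 * (8 * 2 ^ i)) / 32) := by
    intro i hi
    induction i, hi using Nat.le_induction with
    | base => exact hbase
    | succ i hi ih =>
      refine forced_F2 (e8 (i + 1)) hη (by positivity) ih (hbig _ ?_)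
      have h5 : 8 * 2 ^ (i + 1) = 8 * 2 ^ i + 8 * 2 ^ i := by rw [pow_succ]; ring
      have h6 := dy_mul_pow (8 * 2 ^ (i + 1))
      have h7 : i < 2 ^ i := Nat.lt_two_pow_self
      have h8 : (2 : ℝ) ^ (3 * (8 * 2 ^ i)) = 2 ^ (8 * 2 ^ (i + 1)) * 2 ^ (8 * 2 ^ i) := by
        rw [← pow_add, h5]; congr 1; ring
      have h9 : (2 : ℝ) ^ (3 * (8 * 2 ^ i)) / 32 * dy (8 * 2 ^ (i + 1)) = 2 ^ (8 * 2 ^ i) / 32 := by
        rw [h8]
        calc (2 : ℝ) ^ (8 * 2 ^ (i + 1)) * 2 ^ (8 * 2 ^ i) / 32 * dy (8 * 2 ^ (i + 1))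
            = (dy (8 * 2 ^ (i + 1)) * 2 ^ (8 * 2 ^ (i + 1))) * (2 ^ (8 * 2 ^ i) / 32) := by ring
          _ = _ := by rw [h6, one_mul]
      rw [h9, le_div_iff₀ (by norm_num)]
      have h10 : (2 : ℝ) ^ b * 32 = 2 ^ (b + 5) := by rw [pow_add]; norm_num
      rw [h10]
      apply pow_le_pow_right₀ (by norm_num)
      omega
  exact hstep n hnb

/-- the clusters -/
noncomputable def cl (n : ℕ) : List ℂ := (obj n (n + 1)).map (aff (dy n) (dy (3 * n + 3)))

noncomputable def fam : ℕ → List ℂ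
  | 0 => [Complex.I]
  | n + 1 => cl n

theorem cl_pos {n : ℕ} {w : ℂ} (hw : w ∈ cl n) : 0 < w.im := by
  unfold cl at hw
  rw [List.mem_map] at hw
  obtain ⟨v, hv, rfl⟩ := hw
  have h1 := ((good_obj n (n + 1)).ext v hv).1
  have h2 := dy_pos (3 * n + 3)
  rw [aff_im]
  positivity

theorem fam_pos {n : ℕ} {w : ℂ} (hw : w ∈ fam n) : 0 < w.im := by
  cases n with
  | zero =>
    unfold fam at hw
    rw [List.mem_singleton] at hw
    rw [hw]; norm_num
  | succ n => exact cl_pos hw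

theorem cl_norm {n : ℕ} {w : ℂ} (hw : w ∈ cl n) : ‖w‖ ≤ 2 * dy n := by
  unfold cl at hw
  rw [List.mem_map] at hw
  obtain ⟨v, hv, rfl⟩ := hw
  obtain ⟨h1, h2, h3⟩ := (good_obj n (n + 1)).ext v hv
  have h4 := dy_pos n
  have h5 := dy_pos (3 * n + 3)
  have h6 : dy (3 * n + 3) ≤ dy n / 8 := by
    have : dy (3 * n + 3) ≤ dy (n + 3) := dy_anti (by omega)
    rw [dy_succ (n + 2), dy_succ (n + 1), dy_succ n] at this
    linarith
  refine (Complex.norm_le_abs_re_add_abs_im _).trans ?_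
  rw [aff_re, aff_im]
  have h7 : |dy n + dy (3 * n + 3) * v.re| ≤ dy n + dy (3 * n + 3) * (3 / 4) := by
    calc |dy n + dy (3 * n + 3) * v.re| ≤ |dy n| + |dy (3 * n + 3) * v.re| := abs_add_le _ _
      _ ≤ _ := by
        rw [abs_mul, abs_of_pos h4, abs_of_pos h5]; gcongr
  have h8 : |dy (3 * n + 3) * v.im| ≤ dy (3 * n + 3) * 1 := by
    rw [abs_mul, abs_of_pos h5, abs_of_pos h1]; gcongr
  linarith

theorem mass_fam (n : ℕ) : mass (fam n) ≤ 8 * dy n := by
  cases n with
  | zero => simp [fam, mass, dy_zero]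
  | succ n =>
    have h1 : fam (n + 1) = cl n := rfl
    rw [h1]
    unfold cl
    rw [mass_map_aff]
    have h2 := (good_obj n (n + 1)).mass_le
    have h3 := dy_pos (3 * n + 3)
    have h4 : dy (3 * n + 3) ≤ dy (n + 1) := dy_anti (by omega)
    have h5 := dy_pos (n + 1)
    nlinarith

theorem cl_far {n : ℕ} {z : ℂ} (hz : 0 < z.im)
    (hfar : dy (n + 2) ≤ |z.re - dy n| ∨ dy (n + 2) ≤ z.im) :
    N (cl n) z ≤ 5760 * dy n * K z Complex.I := by
  unfold cl
  have h3 := dy_pos (3 * n + 3)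
  have h4 := dy_pos n
  have h4' := dy_le_one n
  have hs := dy_pos (n + 2)
  have h5 : dy (3 * n + 3) ≤ dy (n + 2) := dy_anti (by omega)
  have hg := good_obj n (n + 1)
  have h1 := far_copy (L := obj n (n + 1)) hg.ext hg.mass_le hz (x0 := dy n) h3 (by
    rcases hfar with h | h
    · exact Or.inl (h5.trans h)
    · exact Or.inr (h5.trans h))
  refine h1.trans ?_
  have hrs : dy (3 * n + 3) = 2 * dy n * dy (n + 2) ^ 2 := by
    have e1 : dy (3 * n + 3) * dy 1 = dy n * dy (n + 2) ^ 2 := by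
      rw [sq, ← dy_add, ← dy_add, ← dy_add]; congr 1; ring
    have e2 : dy 1 = 1 / 2 := by unfold dy; norm_num
    rw [e2] at e1
    linarith
  have hr8 : dy (3 * n + 3) ≤ dy n / 8 := by
    have : dy (3 * n + 3) ≤ dy (n + 3) := dy_anti (by omega)
    rw [dy_succ (n + 2), dy_succ (n + 1), dy_succ n] at this
    linarith
  have h6 : K z ⟨dy n, dy (3 * n + 3)⟩ ≤ 9 * dy n * K z Complex.I := by
    set r := dy (3 * n + 3) with hr
    set s := dy (n + 2) with hsdef
    set d := dy n with hd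
    unfold K
    simp only [Complex.I_re, Complex.I_im, sub_zero, mul_one]
    have hD : 0 < (z.re - d) ^ 2 + (z.im + r) ^ 2 := by positivity
    have hE : 0 < z.re ^ 2 + (z.im + 1) ^ 2 := by positivity
    have hDs : s ^ 2 ≤ (z.re - d) ^ 2 + (z.im + r) ^ 2 := by
      rcases hfar with h | h
      · have : s ^ 2 ≤ |z.re - d| ^ 2 := by gcongr
        rw [sq_abs] at this
        nlinarith [sq_nonneg (z.im + r)]
      · have : s ^ 2 ≤ (z.im + r) ^ 2 := by gcongr; linarith
        nlinarith [sq_nonneg (z.re - d)]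
    have hE2 : z.re ^ 2 + (z.im + 1) ^ 2 ≤ 2 * ((z.re - d) ^ 2 + (z.im + r) ^ 2) + 4 := by
      have e1 : z.re ^ 2 ≤ 2 * (z.re - d) ^ 2 + 2 * d ^ 2 := by
        nlinarith [sq_nonneg (z.re - 2 * d)]
      have e2 : d ^ 2 ≤ 1 := by nlinarith
      have e3 : (z.im + 1) ^ 2 ≤ 2 * (z.im + r) ^ 2 + 2 := by
        nlinarith [sq_nonneg (z.im - 1), mul_pos hz h3, sq_nonneg r]
      linarith
    set D := (z.re - d) ^ 2 + (z.im + r) ^ 2 with hDdef
    rw [div_le_iff₀ hD]
    have e4 : 9 * d * (4 * z.im / (z.re ^ 2 + (z.im + 1) ^ 2)) * D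
        = 4 * z.im * (9 * d * D) / (z.re ^ 2 + (z.im + 1) ^ 2) := by ring
    rw [e4, le_div_iff₀ hE]
    have e5 : r * (z.re ^ 2 + (z.im + 1) ^ 2) ≤ 9 * d * D := by
      calc r * (z.re ^ 2 + (z.im + 1) ^ 2) ≤ r * (2 * D + 4) := by gcongr
        _ = 2 * (r * D) + 4 * r := by ring
        _ ≤ 2 * (d / 8 * D) + 4 * (2 * d * D) := by
            gcongr
            rw [hrs]; gcongr
        _ ≤ 9 * d * D := by
            have : 0 < d * D := by positivity
            linarith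
    have e6 : 0 ≤ 4 * z.im := by positivity
    calc 4 * z.im * r * (z.re ^ 2 + (z.im + 1) ^ 2) = 4 * z.im * (r * (z.re ^ 2 + (z.im + 1) ^ 2)) := by ring
      _ ≤ 4 * z.im * (9 * d * D) := by gcongr
  linarith

theorem near_unique {x : ℝ} {m n : ℕ} (hm : |x - dy m| < dy (m + 2)) (hn : |x - dy n| < dy (n + 2)) :
    m = n := by
  have key : ∀ m n : ℕ, m < n → |x - dy m| < dy (m + 2) → |x - dy n| < dy (n + 2) → False := by
    intro m n hmn h1 h2
    have h3 : dy n ≤ dy (m + 1) := dy_anti hmn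
    rw [dy_succ] at h3
    rw [dy_succ, dy_succ] at h1 h2
    obtain ⟨h4, h5⟩ := abs_lt.1 h1
    obtain ⟨h6, h7⟩ := abs_lt.1 h2
    have := dy_pos m
    have := dy_pos n
    linarith
  rcases lt_trichotomy m n with h | h | h
  · exact (key m n h hm hn).elim
  · exact h
  · exact (key n m h hn hm).elim

theorem fam_bound {μ : ℝ} (hμ : 0 < μ) (hμ1 : μ ≤ 1 / 2) {z : ℂ} (hz : 0 < z.im)
    (hfar : ∀ n, ∀ w ∈ fam n, K z w ≤ μ ^ 4) (m : ℕ) :
    ∑ n ∈ Finset.range m, N (fam n) z ≤ 2 * 10 ^ 6 * μ := by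
  have hKI : K z Complex.I ≤ μ ^ 4 := hfar 0 _ (by unfold fam; exact List.mem_singleton_self _)
  have hKI0 : 0 ≤ K z Complex.I := K_nonneg hz (by norm_num)
  have hμ4 := pow4_le hμ hμ1
  have hpos : ∀ n, 0 ≤ N (fam n) z := fun n => N_nonneg hz (fun w hw => fam_pos hw)
  -- every cluster is good
  have hgood : ∀ n, N (cl n) z ≤ 10 ^ 6 * μ := by
    intro n
    have hr := dy_pos (3 * n + 3)
    have h1 := (good_obj n (n + 1)).bound μ hμ hμ1 (un (dy n) (dy (3 * n + 3)) z)
      (by rw [un_im]; positivity) (by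
        intro w hw
        rw [← K_aff hr]
        exact hfar (n + 1) _ (List.mem_map.2 ⟨w, hw, rfl⟩))
    have h2 : 0 ≤ K (un (dy n) (dy (3 * n + 3)) z) Complex.I :=
      K_nonneg (by rw [un_im]; positivity) (by norm_num)
    unfold cl
    rw [N_map_aff hr]
    linarith
  have hcl : ∀ m, ∑ n ∈ Finset.range m, N (cl n) z ≤ 11520 * K z Complex.I + 10 ^ 6 * μ := by
    intro m
    have hfarsum : ∑ n ∈ Finset.range m, 5760 * dy n * K z Complex.I ≤ 11520 * K z Complex.I := by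
      rw [← Finset.sum_mul, ← Finset.mul_sum]
      have := sum_dy m
      nlinarith
    by_cases hnear : ∃ n1, |z.re - dy n1| < dy (n1 + 2) ∧ z.im < dy (n1 + 2)
    · obtain ⟨n1, hn1, hn2⟩ := hnear
      have h1 : ∀ n ∈ Finset.range m, N (cl n) z
          ≤ 5760 * dy n * K z Complex.I + (if n = n1 then 10 ^ 6 * μ else 0) := by
        intro n _
        have h2 : 0 ≤ 5760 * dy n * K z Complex.I := by
          have := dy_pos n; positivity
        by_cases hn : n = n1
        · rw [if_pos hn]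
          have := hgood n
          linarith
        · rw [if_neg hn, add_zero]
          apply cl_far hz
          by_contra hcon
          push Not at hcon
          exact hn (near_unique hcon.1 hn1)
      refine (Finset.sum_le_sum h1).trans ?_
      rw [Finset.sum_add_distrib]
      have h3 : ∑ n ∈ Finset.range m, (if n = n1 then 10 ^ 6 * μ else 0) ≤ 10 ^ 6 * μ := by
        rw [Finset.sum_ite_eq']
        split_ifs
        · exact le_rfl
        · positivity
      linarith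
    · push Not at hnear
      have h1 : ∀ n ∈ Finset.range m, N (cl n) z ≤ 5760 * dy n * K z Complex.I := by
        intro n _
        apply cl_far hz
        by_cases h : |z.re - dy n| < dy (n + 2)
        · exact Or.inr (hnear n h)
        · exact Or.inl (not_lt.1 h)
      have h2 : 0 ≤ 10 ^ 6 * μ := by positivity
      refine (Finset.sum_le_sum h1).trans ?_
      linarith
  have hmono : ∑ n ∈ Finset.range m, N (fam n) z ≤ ∑ n ∈ Finset.range (m + 1), N (fam n) z := by
    rw [Finset.sum_range_succ]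
    linarith [hpos m]
  refine hmono.trans ?_
  rw [Finset.sum_range_succ']
  have h0 : N (fam 0) z = K z Complex.I := by simp [fam, N]
  rw [h0]
  have h1 : ∑ k ∈ Finset.range m, N (fam (k + 1)) z = ∑ k ∈ Finset.range m, N (cl k) z := rfl
  rw [h1]
  have := hcl m
  linarith

theorem forced_zero {Z : Set ℂ} {v : ℂ → ℝ} {η : ℝ → ℝ} (hη : ∀ κ, 0 < κ → κ < 1 → 0 < η κ)
    (S : Sys Z v η) (hZ : ∀ n, ∀ w ∈ fam n, w ∈ Z) {z : ℂ} (hz : 0 < z.im) : v z = 0 := by
  obtain ⟨N0, hN0⟩ := forced_chain hη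
  set c : ℝ := 4 * z.im / ((|z.re| + 2) ^ 2 + (z.im + 1) ^ 2) with hc
  have hcpos : 0 < c := by positivity
  have hkey : ∀ n, N0 ≤ n → v z ^ 2 ≤ Real.exp (-(c * n)) := by
    intro n hn
    have hr := dy_pos (3 * n + 3)
    obtain ⟨F, h1, h2, h3⟩ := hN0 n hn _ _ (S.aff (x := dy n) hr) (by
      intro w hw
      exact hZ (n + 1) _ (List.mem_map.2 ⟨w, hw, rfl⟩))
    have h4 := S.up (F.image (aff (dy n) (dy (3 * n + 3)))) (by
      intro φ hφ
      rw [Finset.mem_image] at hφ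
      obtain ⟨ψ, hψ, rfl⟩ := hφ
      exact h1 ψ hψ) z hz
    rw [Finset.sum_image (fun a _ b _ hab => aff_inj hr hab)] at h4
    refine h4.trans ?_
    apply Real.exp_le_exp.2
    have h5 : ∀ φ ∈ F, c * (dy (3 * n + 3) * φ.im) ≤ K z (aff (dy n) (dy (3 * n + 3)) φ) := by
      intro φ hφ
      obtain ⟨h6, h7⟩ := h2 φ hφ
      have h8 : 0 < (aff (dy n) (dy (3 * n + 3)) φ).im := S.pos _ (h1 φ hφ)
      unfold K
      rw [aff_im] at h8 ⊢
      rw [aff_re, hc]
      have h9 : dy (3 * n + 3) ≤ 1 / 8 := by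
        have : dy (3 * n + 3) ≤ dy 3 := dy_anti (by omega)
        refine this.trans ?_
        unfold dy; norm_num
      have h10 : (z.re - (dy n + dy (3 * n + 3) * φ.re)) ^ 2 ≤ (|z.re| + 2) ^ 2 := by
        apply sq_le_sq'
        · obtain ⟨h11, h12⟩ := abs_le.1 h6
          have h13 := neg_abs_le z.re
          have h14 := dy_le_one n
          nlinarith
        · obtain ⟨h11, h12⟩ := abs_le.1 h6
          have h13 := le_abs_self z.re
          have h14 := dy_pos n
          nlinarith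
      have h11 : (z.im + dy (3 * n + 3) * φ.im) ^ 2 ≤ (z.im + 1) ^ 2 := by
        gcongr
        nlinarith
      rw [div_mul_eq_mul_div, div_le_div_iff₀ (by positivity) (by positivity)]
      have h12 : 0 ≤ 4 * z.im * (dy (3 * n + 3) * φ.im) := by positivity
      calc 4 * z.im * (dy (3 * n + 3) * φ.im)
            * ((z.re - (dy n + dy (3 * n + 3) * φ.re)) ^ 2 + (z.im + dy (3 * n + 3) * φ.im) ^ 2)
          ≤ 4 * z.im * (dy (3 * n + 3) * φ.im) * ((|z.re| + 2) ^ 2 + (z.im + 1) ^ 2) := by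
            gcongr
        _ = _ := by ring
    have h6 := Finset.sum_le_sum h5
    rw [← Finset.mul_sum, ← Finset.mul_sum] at h6
    have h7 : (n : ℝ) ≤ dy (3 * n + 3) * ∑ φ ∈ F, φ.im := by
      have h8 : (n : ℝ) ≤ dy (3 * n + 3) * (2 ^ (3 * (8 * 2 ^ n)) / 32) := by
        have h9 : n < 2 ^ n := Nat.lt_two_pow_self
        have h10 : (n : ℝ) ≤ 2 ^ n := by exact_mod_cast h9.le
        refine h10.trans ?_
        have h11 := dy_mul_pow (3 * n + 3)
        have h12 : (2 : ℝ) ^ (n + (3 * n + 3) + 5) ≤ 2 ^ (3 * (8 * 2 ^ n)) := by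
          apply pow_le_pow_right₀ (by norm_num)
          omega
        calc (2 : ℝ) ^ n = dy (3 * n + 3) * ((2 : ℝ) ^ (n + (3 * n + 3) + 5) / 32) := by
              rw [pow_add _ (n + (3 * n + 3)), pow_add _ n (3 * n + 3)]
              calc (2 : ℝ) ^ n = (dy (3 * n + 3) * 2 ^ (3 * n + 3)) * 2 ^ n := by rw [h11, one_mul]
                _ = _ := by ring
          _ ≤ _ := by gcongr
      refine h8.trans ?_
      gcongr
    have h8 : c * n ≤ c * (dy (3 * n + 3) * ∑ φ ∈ F, φ.im) := by gcongr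
    linarith
  have hlim : Filter.Tendsto (fun n : ℕ => Real.exp (-(c * n))) Filter.atTop (nhds 0) := by
    apply Real.tendsto_exp_neg_atTop_nhds_zero.comp
    exact Filter.Tendsto.const_mul_atTop hcpos tendsto_natCast_atTop_atTop
  have h1 : v z ^ 2 ≤ 0 := by
    apply ge_of_tendsto hlim
    rw [Filter.eventually_atTop]
    exact ⟨N0, hkey⟩
  have h2 := S.v0 z
  nlinarith [sq_nonneg (v z)]

end Pool.Agent.H44.WEP
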