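import Mathlib
import Pool.Agent.H44.WEP.Disc

set_option autoImplicit false

open Filter Topology ComplexConjugate

namespace Pool.Agent.H44.WEP

theorem inner_pow_le {f : ℂ → ℂ} (hf : IsInner f) {z : ℂ} (hz : ‖z‖ < 1) (n : ℕ) :
    ‖f z‖ ^ n ≤ (1 - ‖z‖)⁻¹ := by
  obtain ⟨⟨hd, C, hC⟩, hlim⟩ := hf
  have hC0 : 0 ≤ C := (norm_nonneg _).trans (hC 0 (by simp))
  have hz1 : 0 < 1 - ‖z‖ := by linarith
  have hcont : ContinuousOn f (Metric.ball 0 1) := hd.continuousOn
  -- the inequality for r < 1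
  have hineq : ∀ r : ℝ, 0 < r → r < 1 → 2 * Real.pi * ‖f (r * z)‖ ^ n ≤
      ∫ θ in (0 : ℝ)..(2 * Real.pi), (1 - ‖z‖)⁻¹ * ‖f (r * Complex.exp (θ * Complex.I))‖ ^ n := by
    intro r hr0 hr1
    have hmap : ∀ w ∈ Metric.closedBall (0 : ℂ) 1, (r : ℂ) * w ∈ Metric.ball (0 : ℂ) 1 := by
      intro w hw
      rw [mem_closedBall_zero_iff] at hw
      rw [mem_ball_zero_iff, norm_mul, Complex.norm_real, Real.norm_eq_abs, abs_of_pos hr0]
      nlinarith [norm_nonneg w]
    have hg : DifferentiableOn ℂ (fun w => f (r * w) ^ n) (Metric.closedBall 0 1) := by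
      apply DifferentiableOn.pow
      exact hd.comp (by fun_prop) hmap
    have hcauchy := hg.circleIntegral_sub_inv_smul (w := z) (mem_ball_zero_iff.2 hz)
    have h1 : ‖(∮ w in C(0, 1), (w - z)⁻¹ • f (r * w) ^ n)‖ = 2 * Real.pi * ‖f (r * z)‖ ^ n := by
      rw [hcauchy, norm_smul, norm_pow]
      congr 1
      simp [abs_of_pos Real.pi_pos]
    rw [← h1, circleIntegral]
    refine (intervalIntegral.norm_integral_le_integral_norm (by positivity)).trans ?_
    have hcircle : ∀ θ : ℝ, circleMap 0 1 θ = Complex.exp (θ * Complex.I) := by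
      intro θ; simp [circleMap]
    have hexp : ∀ θ : ℝ, ‖Complex.exp (θ * Complex.I)‖ = 1 := Complex.norm_exp_ofReal_mul_I
    have hsub : ∀ θ : ℝ, 1 - ‖z‖ ≤ ‖Complex.exp (θ * Complex.I) - z‖ := by
      intro θ
      have := norm_sub_norm_le (Complex.exp (θ * Complex.I)) z
      rwa [hexp] at this
    have hcf : Continuous (fun θ : ℝ => f (r * Complex.exp (θ * Complex.I))) := by
      apply hcont.comp_continuous (by fun_prop)
      intro θ
      apply hmap
      rw [mem_closedBall_zero_iff, hexp]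
    apply intervalIntegral.integral_mono_on (by positivity)
    · apply Continuous.intervalIntegrable
      apply Continuous.norm
      simp only [hcircle, deriv_circleMap, smul_eq_mul]
      apply Continuous.mul (by fun_prop)
      apply Continuous.mul
      · apply Continuous.inv₀ (by fun_prop)
        intro θ h
        have := hsub θ
        rw [h, norm_zero] at this
        linarith
      · exact hcf.pow n
    · apply Continuous.intervalIntegrable
      exact (hcf.norm.pow n).const_mul _ |>.congr (fun _ => rfl)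
    · intro θ _
      rw [norm_smul, norm_smul, norm_inv, norm_pow, deriv_circleMap, hcircle]
      rw [norm_mul, hexp, Complex.norm_I]
      rw [one_mul, one_mul]
      gcongr
      exact hsub θ
  -- pass to the limit
  have hL : Tendsto (fun r : ℝ => 2 * Real.pi * ‖f (r * z)‖ ^ n) (𝓝[<] 1)
      (𝓝 (2 * Real.pi * ‖f z‖ ^ n)) := by
    apply Tendsto.const_mul
    apply Tendsto.pow
    apply Tendsto.norm
    have h1 : ContinuousAt f z := hcont.continuousAt (Metric.isOpen_ball.mem_nhds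
      (mem_ball_zero_iff.2 hz))
    have h2 : Tendsto (fun r : ℝ => (r : ℂ) * z) (𝓝[<] 1) (𝓝 z) := by
      have h3 : Tendsto (fun r : ℝ => (r : ℂ) * z) (𝓝 1) (𝓝 (((1 : ℝ) : ℂ) * z)) := by
        apply Continuous.tendsto
        fun_prop
      rw [Complex.ofReal_one, one_mul] at h3
      exact h3.mono_left nhdsWithin_le_nhds
    exact h1.tendsto.comp h2
  have hev : ∀ᶠ r : ℝ in 𝓝[<] 1, r ∈ Set.Ioo (0 : ℝ) 1 := Ioo_mem_nhdsLT (by norm_num)
  have hR : Tendsto (fun r : ℝ => ∫ θ in (0 : ℝ)..(2 * Real.pi),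
      (1 - ‖z‖)⁻¹ * ‖f (r * Complex.exp (θ * Complex.I))‖ ^ n) (𝓝[<] 1)
      (𝓝 (∫ θ in (0 : ℝ)..(2 * Real.pi), (1 - ‖z‖)⁻¹ * 1)) := by
    apply intervalIntegral.tendsto_integral_filter_of_dominated_convergence
      (fun _ => (1 - ‖z‖)⁻¹ * C ^ n)
    · filter_upwards [hev] with r hr
      apply Continuous.aestronglyMeasurable
      have hcf : Continuous (fun θ : ℝ => f (r * Complex.exp (θ * Complex.I))) := by
        apply hcont.comp_continuous (by fun_prop)
        intro θ
        rw [mem_ball_zero_iff, norm_mul, Complex.norm_exp_ofReal_mul_I, Complex.norm_real,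
          Real.norm_eq_abs, abs_of_pos hr.1, mul_one]
        exact hr.2
      exact (hcf.norm.pow n).const_mul _
    · filter_upwards [hev] with r hr
      apply Eventually.of_forall
      intro θ _
      rw [Real.norm_eq_abs, abs_of_nonneg (by positivity)]
      gcongr
      apply hC
      rw [mem_ball_zero_iff, norm_mul, Complex.norm_exp_ofReal_mul_I, Complex.norm_real,
        Real.norm_eq_abs, abs_of_pos hr.1, mul_one]
      exact hr.2
    · exact intervalIntegrable_const
    · filter_upwards [hlim] with θ hθ _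
      obtain ⟨c, hc1, hc2⟩ := hθ
      apply Tendsto.const_mul
      have := (hc2.norm).pow n
      rwa [hc1, one_pow] at this
  have hfin := le_of_tendsto_of_tendsto hL hR (by
    filter_upwards [hev] with r hr
    exact hineq r hr.1 hr.2)
  rw [intervalIntegral.integral_const, sub_zero, smul_eq_mul, mul_one] at hfin
  exact le_of_mul_le_mul_left hfin (by positivity)

theorem inner_norm_le {f : ℂ → ℂ} (hf : IsInner f) {z : ℂ} (hz : ‖z‖ < 1) : ‖f z‖ ≤ 1 := by
  by_contra hcon
  push Not at hcon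
  have h1 := inner_pow_le hf hz
  have h2 := tendsto_pow_atTop_atTop_of_one_lt hcon
  obtain ⟨n, hn⟩ := (h2.eventually (eventually_gt_atTop ((1 - ‖z‖)⁻¹))).exists
  linarith [h1 n]

/-- dividing out one zero -/
theorem divide_one {f : ℂ → ℂ} (hd : DifferentiableOn ℂ f (Metric.ball 0 1))
    (hb : ∀ z ∈ Metric.ball (0 : ℂ) 1, ‖f z‖ ≤ 1) {a : ℂ} (ha : ‖a‖ < 1) (hfa : f a = 0) :
    ∃ g : ℂ → ℂ, DifferentiableOn ℂ g (Metric.ball 0 1) ∧
      (∀ z ∈ Metric.ball (0 : ℂ) 1, ‖g z‖ ≤ 1) ∧
      ∀ z ∈ Metric.ball (0 : ℂ) 1, f z = (z - a) / (1 - conj a * z) * g z := by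
  set ph : ℂ → ℂ := fun z => (z + a) / (1 + conj a * z) with hph
  set ps : ℂ → ℂ := fun z => (z - a) / (1 - conj a * z) with hps
  have hden : ∀ z ∈ Metric.ball (0 : ℂ) 1, 1 - conj a * z ≠ 0 := fun z hz =>
    one_sub_conj_mul_ne (mem_ball_zero_iff.1 hz) ha
  have hden' : ∀ z ∈ Metric.ball (0 : ℂ) 1, 1 + conj a * z ≠ 0 := by
    intro z hz
    have := one_sub_conj_mul_ne (z := -z) (w := a) (by rw [norm_neg]; exact mem_ball_zero_iff.1 hz) ha
    simpa using this
  have hpsball : ∀ z ∈ Metric.ball (0 : ℂ) 1, ps z ∈ Metric.ball (0 : ℂ) 1 := by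
    intro z hz
    have hz' := mem_ball_zero_iff.1 hz
    have h1 := one_sub_rho_sq hz' ha
    rw [mem_ball_zero_iff]
    have h2 : ‖ps z‖ = rho z a := rfl
    rw [h2]
    have h3 : 0 < (1 - ‖z‖ ^ 2) * (1 - ‖a‖ ^ 2) / ‖1 - conj a * z‖ ^ 2 := by
      have h4 := norm_pos_iff.2 (hden z hz)
      have h5 : 0 < 1 - ‖z‖ ^ 2 := by nlinarith [norm_nonneg z]
      have h6 : 0 < 1 - ‖a‖ ^ 2 := by nlinarith [norm_nonneg a]
      positivity
    rw [← h1] at h3
    nlinarith [rho_nonneg z a]
  have hphball : ∀ z ∈ Metric.ball (0 : ℂ) 1, ph z ∈ Metric.ball (0 : ℂ) 1 := by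
    intro z hz
    have hz' := mem_ball_zero_iff.1 hz
    have hz'' : ‖-z‖ < 1 := by rw [norm_neg]; exact hz'
    have h1 := one_sub_rho_sq hz'' ha
    rw [mem_ball_zero_iff]
    have h2 : ‖ph z‖ = rho (-z) a := by
      unfold rho
      rw [hph]
      simp only
      rw [show -z - a = -(z + a) by ring, neg_div, norm_neg, mul_neg, sub_neg_eq_add]
    rw [h2]
    have h3 : 0 < (1 - ‖-z‖ ^ 2) * (1 - ‖a‖ ^ 2) / ‖1 - conj a * -z‖ ^ 2 := by
      have h4 := norm_pos_iff.2 (one_sub_conj_mul_ne hz'' ha)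
      have h5 : 0 < 1 - ‖-z‖ ^ 2 := by nlinarith [norm_nonneg (-z)]
      have h6 : 0 < 1 - ‖a‖ ^ 2 := by nlinarith [norm_nonneg a]
      positivity
    rw [← h1] at h3
    nlinarith [rho_nonneg (-z) a]
  have hphps : ∀ z ∈ Metric.ball (0 : ℂ) 1, ph (ps z) = z := by
    intro z hz
    have h1 := hden z hz
    have h2 := hden' _ (hpsball z hz)
    have h3 : ps z * (1 - conj a * z) = z - a := div_mul_cancel₀ _ h1
    change (ps z + a) / (1 + conj a * ps z) = z
    rw [div_eq_iff h2]
    linear_combination h3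
  set F : ℂ → ℂ := fun z => f (ph z) with hF
  have hF0 : F 0 = 0 := by simp [hF, hph, hfa]
  have hFd : DifferentiableOn ℂ F (Metric.ball 0 1) := by
    apply hd.comp _ hphball
    apply DifferentiableOn.div (by fun_prop) (by fun_prop) hden'
  have hmaps : Set.MapsTo F (Metric.ball 0 1) (Metric.closedBall (F 0) 1) := by
    intro z hz
    rw [hF0, mem_closedBall_zero_iff]
    exact hb _ (hphball z hz)
  refine ⟨fun z => dslope F 0 (ps z), ?_, ?_, ?_⟩
  · have h1 : DifferentiableOn ℂ (dslope F 0) (Metric.ball 0 1) :=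
      (Complex.differentiableOn_dslope (Metric.ball_mem_nhds 0 one_pos)).2 hFd
    apply h1.comp _ hpsball
    apply DifferentiableOn.div (by fun_prop) (by fun_prop) hden
  · intro z hz
    have := Complex.norm_dslope_le_div_of_mapsTo_ball hFd hmaps (hpsball z hz)
    simpa using this
  · intro z hz
    have h1 := sub_smul_dslope F 0 (ps z)
    rw [hF0, sub_zero, sub_zero, smul_eq_mul] at h1
    rw [show (z - a) / (1 - conj a * z) = ps z from rfl, h1, hF]
    simp only
    rw [hphps z hz]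

/-- finite Blaschke division -/
theorem divide_finset (F : Finset ℂ) : ∀ f : ℂ → ℂ, DifferentiableOn ℂ f (Metric.ball 0 1) →
    (∀ z ∈ Metric.ball (0 : ℂ) 1, ‖f z‖ ≤ 1) → (∀ a ∈ F, ‖a‖ < 1 ∧ f a = 0) →
    ∀ z ∈ Metric.ball (0 : ℂ) 1, ‖f z‖ ≤ ∏ a ∈ F, rho z a := by
  classical
  induction F using Finset.induction_on with
  | empty => intro f _ hb _ z hz; simpa using hb z hz
  | insert a F haF ih =>
    intro f hd hb hF z hz
    obtain ⟨ha, hfa⟩ := hF a (Finset.mem_insert_self _ _)
    obtain ⟨g, hgd, hgb, hfg⟩ := divide_one hd hb ha hfa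
    rw [Finset.prod_insert haF, hfg z hz, norm_mul]
    have h1 := ih g hgd hgb (by
      intro b hb'
      obtain ⟨hb1, hb2⟩ := hF b (Finset.mem_insert_of_mem hb')
      refine ⟨hb1, ?_⟩
      rw [hfg b (mem_ball_zero_iff.2 hb1), mul_eq_zero, div_eq_zero_iff] at hb2
      rcases hb2 with (h | h) | h
      · exfalso
        apply haF
        rw [← sub_eq_zero.1 h]; exact hb'
      · exact absurd h (one_sub_conj_mul_ne hb1 ha)
      · exact h) z hz
    have h2 : ‖(z - a) / (1 - conj a * z)‖ = rho z a := rfl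
    rw [h2]
    have := rho_nonneg z a
    gcongr

end Pool.Agent.H44.WEP
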