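import Mathlib
import Pool.Agent.H44.WEP.Inner
import Pool.Agent.H44.WEP.Family

set_option autoImplicit false

open Filter Topology ComplexConjugate

namespace Pool.Agent.H44.WEP

theorem fam_Fam : Fam fam :=
  ⟨fun _ _ hw => fam_pos hw, fun _ _ hw => cl_norm hw, mass_fam⟩

theorem TH_zero {c : ℕ → List ℂ} (hc : Fam c) {n : ℕ} {w : ℂ} (hw : w ∈ c n) :
    cinv w ∈ zeroSet (TH c) := by
  have hpos := hc.pos n w hw
  refine ⟨mem_ball_zero_iff.2 (cinv_norm hpos), ?_⟩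
  unfold TH
  rw [cay_cinv hpos]
  exact GF_zero hc hw

theorem K_cay_cinv {z w : ℂ} (hz : ‖z‖ < 1) (hw : 0 < w.im) :
    K (cay z) w = 1 - rho z (cinv w) ^ 2 := by
  have h1 := K_cay hz (cinv_norm hw)
  rwa [cay_cinv hw] at h1

theorem TH_eta : EtaTendsToOne (TH fam) := by
  intro ε hε
  -- choose μ
  set μ : ℝ := min (1 / 2) (ε / (2 * 10 ^ 6)) with hμdef
  have hμ : 0 < μ := lt_min (by norm_num) (by positivity)
  have hμ1 : μ ≤ 1 / 2 := min_le_left _ _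
  have hμ2 : μ ≤ ε / (2 * 10 ^ 6) := min_le_right _ _
  have hμ4 := pow4_le hμ hμ1
  have hμ4p : 0 < μ ^ 4 := by positivity
  have hnn : 0 ≤ 1 - μ ^ 4 := by linarith
  refine ⟨Real.sqrt (1 - μ ^ 4), ?_, ?_⟩
  · rw [Real.sqrt_lt' one_pos]
    linarith
  intro z hz hfar
  have hz' := mem_ball_zero_iff.1 hz
  have hfar' : ∀ n, ∀ w ∈ fam n, K (cay z) w ≤ μ ^ 4 := by
    intro n w hw
    have hw0 := fam_pos hw
    rw [K_cay_cinv hz' hw0]
    have h1 := hfar _ (TH_zero fam_Fam hw)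
    have h2 : Real.sqrt (1 - μ ^ 4) ^ 2 ≤ rho z (cinv w) ^ 2 := by gcongr
    rw [Real.sq_sqrt hnn] at h2
    linarith
  have h1 := fam_bound hμ hμ1 (cay_im_pos hz') hfar'
  have h2 := GF_low fam_Fam (cay_im_pos hz') h1
  have h3 := TH_norm_le fam_Fam hz'
  have h4 : ‖TH fam z‖ ^ 2 ≤ ‖TH fam z‖ := by nlinarith [norm_nonneg (TH fam z)]
  have h5 : 1 - 2 * 10 ^ 6 * μ ≤ ‖TH fam z‖ ^ 2 := h2
  have h6 : 2 * 10 ^ 6 * μ ≤ ε := by
    rw [le_div_iff₀ (by positivity)] at hμ2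
    linarith
  linarith

/-- the modulus is bounded below away from the zeros -/
def EtaPos (Φ : ℂ → ℂ) : Prop :=
  ∀ t : ℝ, 0 < t → t < 1 → ∃ c : ℝ, 0 < c ∧
    ∀ z ∈ Metric.ball (0 : ℂ) 1, FarFromZeros Φ t z → c ≤ ‖Φ z‖

theorem exp_bound (F : Finset ℂ) (k : ℂ → ℝ) (h1 : ∀ a ∈ F, k a ≤ 1) :
    ∏ a ∈ F, (1 - k a) ≤ Real.exp (-∑ a ∈ F, k a) := by
  rw [← Finset.sum_neg_distrib, Real.exp_sum]
  apply Finset.prod_le_prod
  · intro a ha; linarith [h1 a ha]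
  · intro a _
    have := Real.add_one_le_exp (-k a)
    linarith

theorem not_divides_eta {Φ : ℂ → ℂ} (hΦ : IsInner Φ) (hη : EtaPos Φ) :
    ¬ DividesInHInf (TH fam) Φ := by
  classical
  rintro ⟨g, hg, hgΦ⟩
  have hbd : ∀ z ∈ Metric.ball (0 : ℂ) 1, ‖Φ z‖ ≤ 1 := fun z hz =>
    inner_norm_le hΦ (mem_ball_zero_iff.1 hz)
  -- the function η
  have hch : ∀ κ : ℝ, ∃ c : ℝ, 0 < κ → κ < 1 → (0 < c ∧
      ∀ z ∈ Metric.ball (0 : ℂ) 1, FarFromZeros Φ (Real.sqrt (1 - κ)) z → c ≤ ‖Φ z‖) := by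
    intro κ
    by_cases h : 0 < κ ∧ κ < 1
    · obtain ⟨c, hc⟩ := hη (Real.sqrt (1 - κ)) (Real.sqrt_pos.2 (by linarith [h.2]))
        (by rw [Real.sqrt_lt' one_pos]; linarith [h.1])
      exact ⟨c, fun _ _ => hc⟩
    · exact ⟨0, fun h1 h2 => absurd ⟨h1, h2⟩ h⟩
  choose η hη' using hch
  set Z : Set ℂ := {w | 0 < w.im ∧ Φ (cinv w) = 0} with hZ
  have S : Sys Z (fun w => ‖Φ (cinv w)‖) η := by
    refine ⟨fun φ hφ => hφ.1, fun z => norm_nonneg _, ?_, ?_⟩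
    · intro κ h0 h1 z hz hfar
      apply (hη' κ h0 h1).2 _ (mem_ball_zero_iff.2 (cinv_norm hz))
      intro w hw
      have hw' := mem_ball_zero_iff.1 hw.1
      have h2 := hfar (cay w) ⟨cay_im_pos hw', by rw [cinv_cay hw']; exact hw.2⟩
      rw [K_eq_rho hz (cay_im_pos hw'), cinv_cay hw'] at h2
      apply Real.sqrt_le_iff.2
      exact ⟨rho_nonneg _ _, by linarith⟩
    · intro F hF z hz
      have h1 := divide_finset (F.image cinv) Φ hΦ.1.1 hbd (by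
        intro a ha
        rw [Finset.mem_image] at ha
        obtain ⟨φ, hφ, rfl⟩ := ha
        exact ⟨cinv_norm (hF φ hφ).1, (hF φ hφ).2⟩) (cinv z) (mem_ball_zero_iff.2 (cinv_norm hz))
      have hinj : Set.InjOn cinv F := by
        intro a ha b hb hab
        rw [← cay_cinv (hF a ha).1, ← cay_cinv (hF b hb).1, hab]
      rw [Finset.prod_image hinj] at h1
      have h2 : ‖Φ (cinv z)‖ ^ 2 ≤ ∏ a ∈ F, (1 - K z a) := by
        calc ‖Φ (cinv z)‖ ^ 2 ≤ (∏ a ∈ F, rho (cinv z) (cinv a)) ^ 2 := by gcongr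
          _ = ∏ a ∈ F, (1 - K z a) := by
              rw [← Finset.prod_pow]
              apply Finset.prod_congr rfl
              intro a ha
              rw [K_eq_rho hz (hF a ha).1]
              ring
      exact h2.trans (exp_bound F (K z) (fun a ha => K_le_one hz (hF a ha).1))
  have hfamZ : ∀ n, ∀ w ∈ fam n, w ∈ Z := by
    intro n w hw
    have hpos := fam_pos hw
    refine ⟨hpos, ?_⟩
    rw [hgΦ _ (mem_ball_zero_iff.2 (cinv_norm hpos)), (TH_zero fam_Fam hw).2, zero_mul]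
  have hzero : ∀ z ∈ Metric.ball (0 : ℂ) 1, Φ z = 0 := by
    intro z hz
    have hz' := mem_ball_zero_iff.1 hz
    have h1 := forced_zero (fun κ h0 h1 => (hη' κ h0 h1).1) S hfamZ (cay_im_pos hz')
    simp only [cinv_cay hz'] at h1
    exact norm_eq_zero.1 h1
  -- contradiction with radial limits
  obtain ⟨θ, c, hc1, hc2⟩ := hΦ.2.exists
  have h1 : Tendsto (fun r : ℝ => Φ (r * Complex.exp (θ * Complex.I))) (𝓝[<] 1) (𝓝 0) := by
    apply tendsto_const_nhds.congr'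
    have hev : ∀ᶠ r : ℝ in 𝓝[<] 1, r ∈ Set.Ioo (0 : ℝ) 1 := Ioo_mem_nhdsLT (by norm_num)
    filter_upwards [hev] with r hr
    rw [hzero]
    rw [mem_ball_zero_iff, norm_mul, Complex.norm_exp_ofReal_mul_I, Complex.norm_real,
      Real.norm_eq_abs, abs_of_pos hr.1, mul_one]
    exact hr.2
  have h2 := tendsto_nhds_unique hc2 h1
  rw [h2, norm_zero] at hc1
  norm_num at hc1

theorem eta_form : ∃ Θ : ℂ → ℂ, IsInner Θ ∧ EtaTendsToOne Θ ∧
    ∀ Φ : ℂ → ℂ, IsInner Φ → EtaPos Φ → ¬ DividesInHInf Θ Φ :=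
  ⟨TH fam, TH_inner fam_Fam, TH_eta, fun _ h1 h2 => not_divides_eta h1 h2⟩

end Pool.Agent.H44.WEP
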