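import Mathlib
import Pool.Agent.H44.WEP.MainEta

set_option autoImplicit false

open Filter Topology ComplexConjugate

namespace Pool.Agent.H44.WEP

theorem K_sparse_le {w l : ℂ} (hw : 0 < w.im) (hl : 0 < l.im) (h : 100 * ‖w‖ ≤ ‖l‖) :
    K w l ≤ 5 * (‖w‖ / ‖l‖) := by
  have hwn : 0 < ‖w‖ := norm_pos_iff.2 (by intro h0; rw [h0] at hw; simp at hw)
  have hln : 0 < ‖l‖ := by linarith
  have h1 := normSq_sub_conj l w
  unfold K
  rw [← h1]
  have h2 : w.im ≤ ‖w‖ := (le_abs_self _).trans (Complex.abs_im_le_norm w)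
  have h3 : l.im ≤ ‖l‖ := (le_abs_self _).trans (Complex.abs_im_le_norm l)
  have h4 : 99 / 100 * ‖l‖ ≤ ‖w - conj l‖ := by
    have h5 := norm_sub_norm_le (conj l) w
    rw [Complex.norm_conj, norm_sub_rev] at h5
    linarith
  have h5 : 0 < ‖w - conj l‖ := by linarith
  rw [div_le_iff₀ (by positivity)]
  have h6 : (99 / 100 * ‖l‖) ^ 2 ≤ ‖w - conj l‖ ^ 2 := by gcongr
  calc 4 * w.im * l.im ≤ 4 * ‖w‖ * ‖l‖ := by gcongr
    _ ≤ 5 * (99 / 100) ^ 2 * (‖w‖ * ‖l‖) := by
        have : 0 < ‖w‖ * ‖l‖ := by positivity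
        nlinarith
    _ = 5 * (‖w‖ / ‖l‖) * (99 / 100 * ‖l‖) ^ 2 := by field_simp
    _ ≤ 5 * (‖w‖ / ‖l‖) * ‖w - conj l‖ ^ 2 := by gcongr

theorem sum_up {a : ℕ → ℝ} (ha : ∀ n, 0 < a n) (hr : ∀ n, 10000 * a n ≤ a (n + 1)) (m : ℕ) :
    ∑ n ∈ (Finset.range m).filter (fun n => a n ≤ 1 / 100), a n ≤ 1 / 50 := by
  have h : ∀ m : ℕ, ∑ n ∈ (Finset.range m).filter (fun n => a n ≤ 1 / 100), a n ≤ 1 / 50 ∧
      ∑ n ∈ (Finset.range m).filter (fun n => a n ≤ 1 / 100), a n ≤ a m / 1000 := by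
    intro m
    induction m with
    | zero => have := ha 0; simp; positivity
    | succ m ih =>
      rw [Finset.range_add_one, Finset.filter_insert]
      have h1 := ha m
      have h2 := hr m
      split_ifs with hc
      · rw [Finset.sum_insert (by simp)]
        constructor <;> linarith [ih.1, ih.2]
      · constructor <;> linarith [ih.1, ih.2]
  exact (h m).1

theorem sum_down {b : ℕ → ℝ} (hb : ∀ n, 0 < b n) (hr : ∀ n, 10000 * b (n + 1) ≤ b n) (m : ℕ) :
    ∑ n ∈ (Finset.range m).filter (fun n => b n ≤ 1 / 100), b n ≤ 1 / 50 := by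
  have h : ∀ m : ℕ, ∑ n ∈ (Finset.range m).filter (fun n => b n ≤ 1 / 100), b n
      + 2 * min (b m) (1 / 100) ≤ 1 / 50 := by
    intro m
    induction m with
    | zero =>
      simp only [Finset.range_zero, Finset.filter_empty, Finset.sum_empty, zero_add]
      have := min_le_right (b 0) (1 / 100)
      linarith
    | succ m ih =>
      rw [Finset.range_add_one, Finset.filter_insert]
      have h1 := hb m
      have h1' := hb (m + 1)
      have h2 := hr m
      have h3 := min_le_right (b (m + 1)) (1 / 100)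
      have h4 := min_le_left (b (m + 1)) (1 / 100)
      split_ifs with hc
      · rw [Finset.sum_insert (by simp)]
        rw [min_eq_left hc] at ih
        linarith
      · push Not at hc
        rw [min_eq_right hc.le] at ih
        linarith
  have := h m
  have h2 : 0 ≤ min (b m) (1 / 100) := le_min (hb m).le (by norm_num)
  linarith

theorem one_sub_sum_le_prod (s : Finset ℕ) (k : ℕ → ℝ) (h0 : ∀ n ∈ s, 0 ≤ k n)
    (h1 : ∀ n ∈ s, k n ≤ 1) : 1 - ∑ n ∈ s, k n ≤ ∏ n ∈ s, (1 - k n) := by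
  classical
  induction s using Finset.induction_on with
  | empty => simp
  | insert a s has ih =>
    rw [Finset.sum_insert has, Finset.prod_insert has]
    have h2 := ih (fun n hn => h0 n (Finset.mem_insert_of_mem hn))
      (fun n hn => h1 n (Finset.mem_insert_of_mem hn))
    have h3 := h0 a (Finset.mem_insert_self _ _)
    have h4 := h1 a (Finset.mem_insert_self _ _)
    have h5 : 0 ≤ ∑ n ∈ s, k n := Finset.sum_nonneg (fun n hn => h0 n (Finset.mem_insert_of_mem hn))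
    have h6 : 0 ≤ ∏ n ∈ s, (1 - k n) :=
      Finset.prod_nonneg (fun n hn => by linarith [h1 n (Finset.mem_insert_of_mem hn)])
    have h7 : ∏ n ∈ s, (1 - k n) ≤ 1 :=
      Finset.prod_le_one (fun n hn => by linarith [h1 n (Finset.mem_insert_of_mem hn)])
        (fun n hn => by linarith [h0 n (Finset.mem_insert_of_mem hn)])
    nlinarith

theorem sparse_prod {l : ℕ → ℂ} (hl : ∀ n, 0 < (l n).im)
    (hr : ∀ n, 10000 * ‖l (n + 1)‖ ≤ ‖l n‖) {t : ℝ} (ht : 0 < t) (ht1 : t < 1) {w : ℂ}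
    (hw : 0 < w.im) (hfar : ∀ n, K w (l n) ≤ 1 - t ^ 2) (m : ℕ) :
    t ^ 2 / 2 ≤ ∏ n ∈ Finset.range m, (1 - K w (l n)) := by
  have hwn : 0 < ‖w‖ := norm_pos_iff.2 (by intro h0; rw [h0] at hw; simp at hw)
  have hln : ∀ n, 0 < ‖l n‖ := fun n => norm_pos_iff.2 (by
    intro h0; have := hl n; rw [h0] at this; simp at this)
  have hanti : ∀ n k, 10000 * ‖l (n + 1 + k)‖ ≤ ‖l n‖ := by
    intro n k
    induction k with
    | zero => exact hr n
    | succ k ih =>
      have := hr (n + 1 + k)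
      have h2 := hln (n + 1 + k + 1)
      have h3 : n + 1 + (k + 1) = n + 1 + k + 1 := by ring
      rw [h3]
      linarith
  set A := (Finset.range m).filter (fun n => ‖w‖ < 100 * ‖l n‖ ∧ ‖l n‖ < 100 * ‖w‖) with hA
  have hcard : A.card ≤ 1 := by
    rw [Finset.card_le_one]
    intro a ha b hb
    rw [hA, Finset.mem_filter] at ha hb
    have key : ∀ a b : ℕ, a < b → ‖w‖ < 100 * ‖l b‖ → ‖l a‖ < 100 * ‖w‖ → False := by
      intro a b hab h1 h2
      obtain ⟨k, rfl⟩ : ∃ k, b = a + 1 + k := ⟨b - a - 1, by omega⟩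
      have := hanti a k
      linarith
    rcases lt_trichotomy a b with h | h | h
    · exact (key a b h hb.2.1 ha.2.2).elim
    · exact h
    · exact (key b a h ha.2.1 hb.2.2).elim
  have hprodA : t ^ 2 ≤ ∏ n ∈ A, (1 - K w (l n)) := by
    rcases Nat.le_one_iff_eq_zero_or_eq_one.1 hcard with h | h
    · rw [Finset.card_eq_zero] at h
      rw [h, Finset.prod_empty]
      nlinarith
    · rw [Finset.card_eq_one] at h
      obtain ⟨a, ha⟩ := h
      rw [ha, Finset.prod_singleton]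
      linarith [hfar a]
  set B := (Finset.range m).filter (fun n => ¬ (‖w‖ < 100 * ‖l n‖ ∧ ‖l n‖ < 100 * ‖w‖)) with hB
  have hsumB : ∑ n ∈ B, K w (l n) ≤ 1 / 5 := by
    have h1 : ∀ n ∈ B, K w (l n) ≤ 5 * (if ‖w‖ / ‖l n‖ ≤ 1 / 100 then ‖w‖ / ‖l n‖ else 0)
        + 5 * (if ‖l n‖ / ‖w‖ ≤ 1 / 100 then ‖l n‖ / ‖w‖ else 0) := by
      intro n hn
      rw [hB, Finset.mem_filter] at hn
      have h2 := hln n
      have hp1 : 0 ≤ (if ‖w‖ / ‖l n‖ ≤ 1 / 100 then ‖w‖ / ‖l n‖ else 0) := by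
        split_ifs <;> positivity
      have hp2 : 0 ≤ (if ‖l n‖ / ‖w‖ ≤ 1 / 100 then ‖l n‖ / ‖w‖ else 0) := by
        split_ifs <;> positivity
      by_cases hc : 100 * ‖w‖ ≤ ‖l n‖
      · have h3 := K_sparse_le hw (hl n) hc
        have h4 : ‖w‖ / ‖l n‖ ≤ 1 / 100 := by
          rw [div_le_iff₀ h2]; linarith
        rw [if_pos h4]
        linarith
      · have h5 : 100 * ‖l n‖ ≤ ‖w‖ := by
          by_contra hcon
          push Not at hcon hc
          exact hn.2 ⟨hcon, hc⟩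
        have h3 := K_sparse_le (hl n) hw h5
        rw [K_symm] at h3
        have h4 : ‖l n‖ / ‖w‖ ≤ 1 / 100 := by
          rw [div_le_iff₀ hwn]; linarith
        rw [if_pos h4]
        linarith
    refine (Finset.sum_le_sum h1).trans ?_
    rw [Finset.sum_add_distrib, ← Finset.mul_sum, ← Finset.mul_sum]
    have h2 : ∑ n ∈ B, (if ‖w‖ / ‖l n‖ ≤ 1 / 100 then ‖w‖ / ‖l n‖ else 0) ≤ 1 / 50 := by
      have h0 := sum_up (a := fun n => ‖w‖ / ‖l n‖) (fun n => by
        have := hln n; positivity) (fun n => by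
        have h3 := hln n
        have h4 := hln (n + 1)
        have h5 := hr n
        rw [← mul_div_assoc, div_le_div_iff₀ h3 h4]
        nlinarith) m
      rw [Finset.sum_filter] at h0
      refine le_trans ?_ h0
      apply Finset.sum_le_sum_of_subset_of_nonneg
      · rw [hB]; exact Finset.filter_subset _ _
      · intro n _ _
        have := hln n
        split_ifs <;> positivity
    have h3 : ∑ n ∈ B, (if ‖l n‖ / ‖w‖ ≤ 1 / 100 then ‖l n‖ / ‖w‖ else 0) ≤ 1 / 50 := by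
      have h0 := sum_down (b := fun n => ‖l n‖ / ‖w‖) (fun n => by
        have := hln n; positivity) (fun n => by
        have h5 := hr n
        rw [← mul_div_assoc]
        gcongr) m
      rw [Finset.sum_filter] at h0
      refine le_trans ?_ h0
      apply Finset.sum_le_sum_of_subset_of_nonneg
      · rw [hB]; exact Finset.filter_subset _ _
      · intro n _ _
        have := hln n
        split_ifs <;> positivity
    linarith
  have hprodB : 1 / 2 ≤ ∏ n ∈ B, (1 - K w (l n)) := by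
    have := one_sub_sum_le_prod B (fun n => K w (l n)) (fun n _ => K_nonneg hw (hl n))
      (fun n _ => K_le_one hw (hl n))
    linarith
  have hsplit := Finset.prod_filter_mul_prod_filter_not (Finset.range m)
    (fun n => ‖w‖ < 100 * ‖l n‖ ∧ ‖l n‖ < 100 * ‖w‖) (fun n => 1 - K w (l n))
  rw [← hA, ← hB] at hsplit
  rw [← hsplit]
  calc t ^ 2 / 2 = t ^ 2 * (1 / 2) := by ring
    _ ≤ (∏ n ∈ A, (1 - K w (l n))) * (∏ n ∈ B, (1 - K w (l n))) :=
        mul_le_mul hprodA hprodB (by norm_num) (le_trans (by positivity) hprodA)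

theorem norm_PF_single {l : ℕ → ℂ} (hl : ∀ n, 0 < (l n).im) {w : ℂ} (hw : 0 < w.im) (m : ℕ) :
    ‖PF (fun n => [l n]) m w‖ ^ 2 = ∏ n ∈ Finset.range m, (1 - K w (l n)) := by
  unfold PF
  rw [norm_prod, ← Finset.prod_pow]
  apply Finset.prod_congr rfl
  intro n _
  have : bl [l n] w = bf (l n) w := by simp [bl]
  rw [this, norm_bf_sq (hl n) hw.le]

theorem exists_rapid {P : ℕ → ℂ → Prop}
    (hP : ∀ n (δ : ℝ), 0 < δ → ∃ l : ℂ, 0 < l.im ∧ ‖l‖ ≤ δ ∧ P n l) :
    ∃ l : ℕ → ℂ, (∀ n, 0 < (l n).im) ∧ (∀ n, ‖l n‖ ≤ dy n) ∧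
      (∀ n, 10000 * ‖l (n + 1)‖ ≤ ‖l n‖) ∧ ∀ n, P n (l n) := by
  have hch : ∀ n (δ : ℝ), ∃ l : ℂ, 0 < δ → 0 < l.im ∧ ‖l‖ ≤ δ ∧ P n l := by
    intro n δ
    by_cases h : 0 < δ
    · obtain ⟨l, hl⟩ := hP n δ h
      exact ⟨l, fun _ => hl⟩
    · exact ⟨0, fun h' => absurd h' h⟩
  choose Q hQ using hch
  let l : ℕ → ℂ := fun n => Nat.rec (Q 0 1) (fun n v => Q (n + 1) (min (dy (n + 1)) (‖v‖ / 10000))) n
  have hl0 : l 0 = Q 0 1 := rfl
  have hls : ∀ n, l (n + 1) = Q (n + 1) (min (dy (n + 1)) (‖l n‖ / 10000)) := fun n => rfl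
  have hpos : ∀ n, 0 < (l n).im := by
    intro n
    induction n with
    | zero => rw [hl0]; exact (hQ 0 1 one_pos).1
    | succ n ih =>
      rw [hls]
      have h1 : 0 < ‖l n‖ := norm_pos_iff.2 (by intro h0; rw [h0] at ih; simp at ih)
      exact (hQ (n + 1) _ (lt_min (dy_pos _) (by positivity))).1
  have hdelta : ∀ n, 0 < min (dy (n + 1)) (‖l n‖ / 10000) := by
    intro n
    have h1 : 0 < ‖l n‖ := norm_pos_iff.2 (by intro h0; have := hpos n; rw [h0] at this; simp at this)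
    exact lt_min (dy_pos _) (by positivity)
  refine ⟨l, hpos, ?_, ?_, ?_⟩
  · intro n
    cases n with
    | zero =>
      rw [hl0, dy_zero]; exact (hQ 0 1 one_pos).2.1
    | succ n =>
      rw [hls]
      exact (hQ (n + 1) _ (hdelta n)).2.1.trans (min_le_left _ _)
  · intro n
    rw [hls]
    have := (hQ (n + 1) _ (hdelta n)).2.1.trans (min_le_right _ _)
    linarith
  · intro n
    cases n with
    | zero => rw [hl0]; exact (hQ 0 1 one_pos).2.2
    | succ n => rw [hls]; exact (hQ (n + 1) _ (hdelta n)).2.2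

end Pool.Agent.H44.WEP
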