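import Mathlib
import Pool.Agent.H44.WEP.Sparse

set_option autoImplicit false

open Filter Topology ComplexConjugate

namespace Pool.Agent.H44.WEP

theorem rho_symm (z w : ℂ) : rho z w = rho w z := by
  unfold rho
  rw [norm_div, norm_div, norm_sub_rev]
  congr 1
  rw [← Complex.norm_conj (1 - conj w * z)]
  simp [mul_comm]

theorem rho_rot {u z w : ℂ} (hu : ‖u‖ = 1) : rho (u * z) (u * w) = rho z w := by
  unfold rho
  have h1 : conj u * u = 1 := by
    rw [← Complex.normSq_eq_conj_mul_self, Complex.normSq_eq_norm_sq, hu]; norm_num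
  have h2 : conj (u * w) * (u * z) = conj w * z := by
    rw [map_mul]; linear_combination (conj w * z) * h1
  rw [h2, ← mul_sub, mul_div_assoc, norm_mul, hu, one_mul]

theorem single_Fam {l : ℕ → ℂ} (hl : ∀ n, 0 < (l n).im) (hn : ∀ n, ‖l n‖ ≤ dy n) :
    Fam (fun n => [l n]) := by
  refine ⟨?_, ?_, ?_⟩
  · intro n w hw
    rw [List.mem_singleton] at hw
    rw [hw]; exact hl n
  · intro n w hw
    rw [List.mem_singleton] at hw
    rw [hw]
    have h1 := hn (n + 1)
    have h2 : dy (n + 1) ≤ dy n := dy_anti (by omega)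
    have := dy_pos n
    linarith
  · intro n
    have h1 := hn n
    have h2 : (l n).im ≤ ‖l n‖ := (le_abs_self _).trans (Complex.abs_im_le_norm _)
    have h3 : WEP.mass [l n] = (l n).im := by simp [WEP.mass]
    rw [h3]
    have := dy_pos n
    linarith

theorem wep_etaPos {Φ : ℂ → ℂ} (hΦ : HInf Φ) (hW : HasWEP Φ) : EtaPos Φ := by
  intro t ht ht1
  by_contra hcon
  push Not at hcon
  -- a sequence of bad points
  have hseq : ∀ k : ℕ, ∃ z ∈ Metric.ball (0 : ℂ) 1, FarFromZeros Φ t z ∧ ‖Φ z‖ < 1 / ((k : ℝ) + 1) :=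
    fun k => hcon (1 / ((k : ℝ) + 1)) (by positivity)
  choose z hz hzfar hzsmall using hseq
  -- a convergent subsequence
  obtain ⟨ζ, hζ, φ, hφ, hlim⟩ := (isCompact_closedBall (0 : ℂ) 1).tendsto_subseq
    (fun k => Metric.ball_subset_closedBall (hz k))
  rw [mem_closedBall_zero_iff] at hζ
  have hcont : ContinuousOn Φ (Metric.ball 0 1) := hΦ.1.continuousOn
  have hsm : Tendsto (fun k : ℕ => 1 / ((k : ℝ) + 1)) atTop (𝓝 0) :=
    tendsto_one_div_add_atTop_nhds_zero_nat
  have hζ1 : ‖ζ‖ = 1 := by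
    rcases lt_or_eq_of_le hζ with h | h
    · exfalso
      have h1 : ContinuousAt Φ ζ := hcont.continuousAt
        (Metric.isOpen_ball.mem_nhds (mem_ball_zero_iff.2 h))
      have h2 : Tendsto (fun k => ‖Φ (z (φ k))‖) atTop (𝓝 ‖Φ ζ‖) :=
        (h1.tendsto.comp hlim).norm
      have h3 : Tendsto (fun k => ‖Φ (z (φ k))‖) atTop (𝓝 0) := by
        apply squeeze_zero (fun k => norm_nonneg _) (fun k => (hzsmall (φ k)).le)
        exact hsm.comp hφ.tendsto_atTop
      have h4 := tendsto_nhds_unique h2 h3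
      have h5 : ζ ∈ zeroSet Φ := ⟨mem_ball_zero_iff.2 h, norm_eq_zero.1 h4⟩
      have h6 : Tendsto (fun k => rho (z (φ k)) ζ) atTop (𝓝 (rho ζ ζ)) := by
        unfold rho
        apply Tendsto.norm
        apply Tendsto.div
        · exact hlim.sub_const ζ
        · exact (hlim.const_mul (conj ζ)).const_sub 1
        · exact one_sub_conj_mul_ne h h
      have h7 : rho ζ ζ = 0 := by unfold rho; simp
      rw [h7] at h6
      have h8 : t ≤ 0 := ge_of_tendsto' h6 (fun k => hzfar (φ k) ζ h5)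
      linarith
    · exact h
  -- rotation
  set u : ℂ := -conj ζ with hu
  have hun : ‖u‖ = 1 := by rw [hu, norm_neg, Complex.norm_conj, hζ1]
  have huζ : u * ζ = -1 := by
    rw [hu, neg_mul, ← Complex.normSq_eq_conj_mul_self, Complex.normSq_eq_norm_sq, hζ1]; norm_num
  have hball : ∀ k, ‖u * z k‖ < 1 := fun k => by
    rw [norm_mul, hun, one_mul]; exact mem_ball_zero_iff.1 (hz k)
  have hcay : Tendsto (fun k => cay (u * z (φ k))) atTop (𝓝 0) := by
    have h1 : Tendsto (fun k => u * z (φ k)) atTop (𝓝 (u * ζ)) := hlim.const_mul u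
    rw [huζ] at h1
    have h2 : ContinuousAt cay (-1) := by
      unfold cay
      apply ContinuousAt.div
      · fun_prop
      · fun_prop
      · norm_num
    have h3 : cay (-1) = 0 := by unfold cay; simp
    have h4 := h2.tendsto
    rw [h3] at h4
    exact h4.comp h1
  -- rapid subsequence
  obtain ⟨l, hl1, hl2, hl3, hl4⟩ := exists_rapid
    (P := fun n l => ∃ k : ℕ, l = cay (u * z k) ∧ n ≤ k) (by
      intro n δ hδ
      have h1 : ∀ᶠ k in atTop, ‖cay (u * z (φ k))‖ < δ := by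
        have := hcay.norm
        rw [norm_zero] at this
        exact this.eventually (gt_mem_nhds hδ)
      obtain ⟨k, hk1, hk2⟩ := (h1.and (eventually_ge_atTop n)).exists
      exact ⟨cay (u * z (φ k)), cay_im_pos (hball _), hk1.le, φ k, rfl, hk2.trans (hφ.id_le k)⟩)
  choose kk hk1 hk2 using hl4
  set c : ℕ → List ℂ := fun n => [l n] with hc
  have hFam : Fam c := single_Fam hl1 hl2
  -- the sparse Blaschke product
  set f : ℂ → ℂ := fun x => TH c (u * x) with hf
  have hrotmap : ∀ x ∈ Metric.ball (0 : ℂ) 1, u * x ∈ Metric.ball (0 : ℂ) 1 := by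
    intro x hx
    rw [mem_ball_zero_iff, norm_mul, hun, one_mul]
    exact mem_ball_zero_iff.1 hx
  have hfH : HInf f := by
    refine ⟨(TH_hInf hFam).1.comp (by fun_prop) hrotmap, 1, fun x hx => ?_⟩
    exact TH_norm_le hFam (mem_ball_zero_iff.1 (hrotmap x hx))
  have hfz : ∀ n, f (z (kk n)) = 0 := by
    intro n
    have h1 := (TH_zero hFam (n := n) (w := l n) (by rw [hc]; exact List.mem_singleton_self _)).2
    rw [hk1 n, cinv_cay (hball _)] at h1
    exact h1
  have hflow : ∀ a ∈ zeroSet Φ, t ^ 2 / 2 ≤ ‖f a‖ := by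
    intro a ha
    have ha1 := mem_ball_zero_iff.1 ha.1
    have hua : ‖u * a‖ < 1 := mem_ball_zero_iff.1 (hrotmap a ha.1)
    have him := cay_im_pos hua
    have hfar : ∀ n, K (cay (u * a)) (l n) ≤ 1 - t ^ 2 := by
      intro n
      rw [hk1 n, K_cay hua (hball _), rho_rot hun, rho_symm]
      have h1 := hzfar (kk n) a ha
      have h2 : t ^ 2 ≤ rho (z (kk n)) a ^ 2 := by gcongr
      linarith
    have h1 := sparse_prod hl1 hl3 ht ht1 him hfar
    have hne : cay (u * a) ≠ 0 := by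
      intro h0; rw [h0] at him; simp at him
    have h2 := ((GF_tendsto hFam him.le hne).norm).pow 2
    have h3 : t ^ 2 / 2 ≤ ‖GF c (cay (u * a))‖ ^ 2 := by
      apply ge_of_tendsto' h2
      intro m
      rw [hc, norm_PF_single hl1 him]
      exact h1 m
    have h4 := TH_norm_le hFam hua
    have h5 : ‖TH c (u * a)‖ ^ 2 ≤ ‖TH c (u * a)‖ := by nlinarith [norm_nonneg (TH c (u * a))]
    exact h3.trans h5
  obtain ⟨g, h, -, hh, hgh⟩ := hW f hfH ⟨t ^ 2 / 2, by positivity, hflow⟩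
  obtain ⟨C, hC⟩ := hh.2
  have hfinal : ∀ n : ℕ, 1 ≤ 1 / ((n : ℝ) + 1) * C := by
    intro n
    have h1 := hgh (z (kk n)) (hz _)
    rw [hfz n, zero_mul] at h1
    have h2 : ‖Φ (z (kk n))‖ * ‖h (z (kk n))‖ = 1 := by
      rw [← norm_mul]
      have : Φ (z (kk n)) * h (z (kk n)) = -1 := by linear_combination -h1
      rw [this]; simp
    have h3 := hC _ (hz (kk n))
    have h4 : ‖Φ (z (kk n))‖ ≤ 1 / ((n : ℝ) + 1) := by
      refine (hzsmall (kk n)).le.trans ?_
      have : (n : ℝ) ≤ kk n := by exact_mod_cast hk2 n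
      gcongr
    calc (1 : ℝ) = ‖Φ (z (kk n))‖ * ‖h (z (kk n))‖ := h2.symm
      _ ≤ 1 / ((n : ℝ) + 1) * C := by gcongr
  have hlim2 : Tendsto (fun n : ℕ => 1 / ((n : ℝ) + 1) * C) atTop (𝓝 (0 * C)) := hsm.mul_const C
  rw [zero_mul] at hlim2
  have := ge_of_tendsto' hlim2 hfinal
  linarith

/-- main theorem -/
theorem main_theorem : ∃ Θ : ℂ → ℂ, IsInner Θ ∧ EtaTendsToOne Θ ∧
    ∀ Φ : ℂ → ℂ, IsInner Φ → HasWEP Φ → ¬ DividesInHInf Θ Φ :=
  ⟨TH fam, TH_inner fam_Fam, TH_eta,
    fun _ h1 h2 => not_divides_eta h1 (wep_etaPos h1.1 h2)⟩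

end Pool.Agent.H44.WEP
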